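import Pool.Agent.Q48.BL.Chain

set_option autoImplicit false

/-!
Billiards: in a thin beam of rays from one point only the two extreme itineraries branch.
-/

namespace Pool.Agent.Q48.BL

open Complex Set MeasureTheory Filter Topology Pool.Agent.W780.PG Pool.Agent.W780.BB
  Pool.Agent.TH103.BL

open scoped Real ComplexConjugate

variable {n : ℕ} {p : Fin (n + 3) → ℂ}

/-- the area of a triangle, up to the factor 2 -/
noncomputable def det3 (x y z : ℂ) : ℝ := ((z - x) * conj (y - x)).im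

theorem det3_rf (i : Fin (n + 3)) (x y z : ℂ) :
    det3 (rf p i x) (rf p i y) (rf p i z) = - det3 x y z := by
  unfold det3 rf
  have e1 : p i + dir (2 * tau p i) * conj (z - p i) - (p i + dir (2 * tau p i) * conj (x - p i)) =
      dir (2 * tau p i) * conj (z - x) := by
    rw [map_sub, map_sub, map_sub]; ring
  have e2 : p i + dir (2 * tau p i) * conj (y - p i) - (p i + dir (2 * tau p i) * conj (x - p i)) =
      dir (2 * tau p i) * conj (y - x) := by
    rw [map_sub, map_sub, map_sub]; ring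
  rw [e1, e2, map_mul, conj_conj]
  have e3 : dir (2 * tau p i) * conj (z - x) * (conj (dir (2 * tau p i)) * (y - x)) =
      conj ((z - x) * conj (y - x)) := by
    rw [map_mul, conj_conj]
    linear_combination (conj (z - x) * (y - x)) * dir_mul_conj (2 * tau p i)
  rw [e3, conj_im]

theorem det3_fp (w : List (Fin (n + 3))) (x y z : ℂ) :
    det3 (fp p w x) (fp p w y) (fp p w z) = det3 x y z ∨
      det3 (fp p w x) (fp p w y) (fp p w z) = - det3 x y z := by
  induction w generalizing x y z with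
  | nil => exact Or.inl rfl
  | cons i w ih =>
    have h := ih (rf p i x) (rf p i y) (rf p i z)
    rw [det3_rf, neg_neg] at h
    exact h.symm

theorem uf_append (w v : List (Fin (n + 3))) (z : ℂ) :
    uf p (w ++ v) z = uf p w (uf p v z) := by
  induction w with
  | nil => rfl
  | cons i w ih =>
    show rf p i (uf p (w ++ v) z) = rf p i (uf p w (uf p v z))
    rw [ih]

theorem range_split (u : ℕ → Fin (n + 3)) {k i : ℕ} (h : k ≤ i) :
    (List.range i).map u = (List.range k).map u ++ (List.range (i - k)).map fun r => u (k + r) := by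
  obtain ⟨j, rfl⟩ := Nat.exists_eq_add_of_le h
  rw [List.range_add, List.map_append, List.map_map, Nat.add_sub_cancel_left]
  rfl

theorem ge_mem_VK (hp : IsConvexPolygon p) (u : ℕ → Fin (n + 3)) {k i m : ℕ} (h : k ≤ i)
    (hm : i ≤ k + m) (b : Bool) : fp p ((List.range k).map u) (ge p u i b) ∈ VK p m := by
  unfold ge
  rw [range_split u h, uf_append, fp_uf hp]
  exact ⟨_, by simp; omega, _, rfl⟩

theorem sf_vert_pos (hp : IsConvexPolygon p) {i j : Fin (n + 3)} (h1 : j ≠ i) (h2 : j ≠ i + 1) :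
    0 < sf p i (p j) := hp.pos i j h1 h2

theorem det3_bound {X P1 P2 P3 : ℂ} {φ M κ : ℝ} (h12 : ‖P2 - P1‖ ≤ M) (h13 : ‖P3 - P1‖ ≤ M)
    (k1 : |kp X φ P1| ≤ κ) (k2 : |kp X φ P2| ≤ κ) (k3 : |kp X φ P3| ≤ κ) :
    |det3 P1 P2 P3| ≤ 4 * M * κ := by
  have e1 : P3 - P1 = (((rp X φ P3 - rp X φ P1 : ℝ) : ℂ) +
      ((kp X φ P3 - kp X φ P1 : ℝ) : ℂ) * I) * dir φ := by
    have a := pt_eq X φ P3
    have b := pt_eq X φ P1
    push_cast
    linear_combination a - b
  have e2 : P2 - P1 = (((rp X φ P2 - rp X φ P1 : ℝ) : ℂ) +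
      ((kp X φ P2 - kp X φ P1 : ℝ) : ℂ) * I) * dir φ := by
    have a := pt_eq X φ P2
    have b := pt_eq X φ P1
    push_cast
    linear_combination a - b
  have hr : ∀ (a b : ℝ), ‖((a : ℂ) + (b : ℂ) * I) * dir φ‖ ≤ M → |a| ≤ M := by
    intro a b h
    rw [norm_mul, norm_dir, mul_one] at h
    have := abs_re_le_norm ((a : ℂ) + (b : ℂ) * I)
    simp at this
    linarith
  have r2 : |rp X φ P2 - rp X φ P1| ≤ M := hr _ _ (by rw [← e2]; exact h12)
  have r3 : |rp X φ P3 - rp X φ P1| ≤ M := hr _ _ (by rw [← e1]; exact h13)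
  have hdet : det3 P1 P2 P3 = (kp X φ P3 - kp X φ P1) * (rp X φ P2 - rp X φ P1) -
      (rp X φ P3 - rp X φ P1) * (kp X φ P2 - kp X φ P1) := by
    unfold det3
    rw [e1, e2]
    generalize rp X φ P3 - rp X φ P1 = a
    generalize kp X φ P3 - kp X φ P1 = b
    generalize rp X φ P2 - rp X φ P1 = c
    generalize kp X φ P2 - kp X φ P1 = d
    have : ((a : ℂ) + (b : ℂ) * I) * dir φ * conj (((c : ℂ) + (d : ℂ) * I) * dir φ) =
        ((a : ℂ) + (b : ℂ) * I) * conj ((c : ℂ) + (d : ℂ) * I) := by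
      rw [map_mul]
      linear_combination ((a : ℂ) + (b : ℂ) * I) * conj ((c : ℂ) + (d : ℂ) * I) * dir_mul_conj φ
    rw [this]
    simp
    ring
  have k31 : |kp X φ P3 - kp X φ P1| ≤ 2 * κ := (abs_sub _ _).trans (by linarith)
  have k21 : |kp X φ P2 - kp X φ P1| ≤ 2 * κ := (abs_sub _ _).trans (by linarith)
  have hM : 0 ≤ M := (norm_nonneg _).trans h12
  have hκ : 0 ≤ 2 * κ := (abs_nonneg _).trans k31
  rw [hdet]
  calc |(kp X φ P3 - kp X φ P1) * (rp X φ P2 - rp X φ P1) -
      (rp X φ P3 - rp X φ P1) * (kp X φ P2 - kp X φ P1)| ≤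
      |(kp X φ P3 - kp X φ P1) * (rp X φ P2 - rp X φ P1)| +
      |(rp X φ P3 - rp X φ P1) * (kp X φ P2 - kp X φ P1)| := abs_sub _ _
    _ ≤ 2 * κ * M + M * (2 * κ) := by
        rw [abs_mul, abs_mul]
        gcongr
    _ = 4 * M * κ := by ring

/-- rays which never meet an unfolded vertex -/
structure Ray (p : Fin (n + 3) → ℂ) (X : ℂ) (φ : ℝ) (u : ℕ → Fin (n + 3)) (t : ℕ → ℝ) :
    Prop where
  orb : Orb p X φ u t
  gen : ∀ w j (s : ℝ), 0 < s → X + s • dir φ ≠ uf p w (p j)

theorem ge_congr {u u' : ℕ → Fin (n + 3)} {i : ℕ} (h : ∀ r ≤ i, u r = u' r) (b : Bool) :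
    ge p u i b = ge p u' i b := by
  unfold ge
  rw [word_congr (k := i) (u := u) (u' := u') fun r hr => h r hr.le, h i le_rfl]

theorem Lf_congr {u u' : ℕ → Fin (n + 3)} {i : ℕ} (h : ∀ r ≤ i, u r = u' r) (z : ℂ) :
    Lf p u i z = Lf p u' i z := by
  unfold Lf
  rw [word_congr (k := i) (u := u) (u' := u') fun r hr => h r hr.le, h i le_rfl]

theorem ge_dist (hp : IsConvexPolygon p) {X : ℂ} (hX : X ∈ creg p) {D : ℝ}
    (hD : ∀ z ∈ creg p, ∀ w ∈ creg p, ‖z - w‖ ≤ D) {φ : ℝ} {u : ℕ → Fin (n + 3)} {t : ℕ → ℝ}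
    (O : Orb p X φ u t) (i : ℕ) (b : Bool) : ‖ge p u i b - X‖ ≤ D * (i + 2) := by
  have h1 : ‖ge p u i b - (X + t i • dir φ)‖ ≤ D := by
    rw [← fp_norm hp ((List.range i).map u)]
    exact hD _ (ge_creg hp u i b) _ (hit_creg hp O i)
  have h2 : ‖(X + t i • dir φ) - X‖ ≤ D * (i + 1) := by
    rw [add_sub_cancel_left, norm_smul, norm_dir, mul_one, Real.norm_eq_abs,
      abs_of_pos (O.tpos i)]
    exact time_le hp hX hD O i
  calc ‖ge p u i b - X‖ = ‖(ge p u i b - (X + t i • dir φ)) + ((X + t i • dir φ) - X)‖ := by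
        congr 1; ring
    _ ≤ D + D * (i + 1) := (norm_add_le _ _).trans (add_le_add h1 h2)
    _ = D * (i + 2) := by ring

/-- In a thin beam an itinerary with rays of other itineraries on both sides does not branch. -/
theorem no_branch (hp : IsConvexPolygon p) {X : ℂ} (hX : X ∈ creg p) {D : ℝ} (hD0 : 0 < D)
    (hD : ∀ z ∈ creg p, ∀ w ∈ creg p, ‖z - w‖ ≤ D) {m : ℕ} {M δ : ℝ}
    (hM : ∀ x ∈ VK p m, ∀ y ∈ VK p m, ‖x - y‖ ≤ M)
    (hδ : ∀ x ∈ VK p m, ∀ y ∈ VK p m, ∀ z ∈ VK p m, |det3 x y z| < δ → det3 x y z = 0)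
    {φ₁ φa φb φ₂ ϑ : ℝ} {u₁ ua ub u₂ : ℕ → Fin (n + 3)} {t₁ ta tb t₂ : ℕ → ℝ}
    (R₁ : Ray p X φ₁ u₁ t₁) (Ra : Ray p X φa ua ta) (Rb : Ray p X φb ub tb)
    (R₂ : Ray p X φ₂ u₂ t₂) (h1a : φ₁ < φa) (hab : φa < φb) (hb2 : φb < φ₂)
    (hϑ : φ₂ - φ₁ ≤ ϑ) (hϑπ : ϑ < π) {k l : ℕ} (hlm : l < k + m)
    (hsmall : 4 * M * (2 * (D * (k + m + 2) * ϑ)) < δ)
    (agab : ∀ r < l, ua r = ub r) (hne : ua l ≠ ub l)
    (ex1 : ∃ i, k ≤ i ∧ i < l ∧ (∀ r < i, ua r = u₁ r) ∧ ua i ≠ u₁ i)
    (ex2 : ∃ i, k ≤ i ∧ i < l ∧ (∀ r < i, ub r = u₂ r) ∧ ub i ≠ u₂ i) : False := by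
  obtain ⟨i1, ki1, i1l, ag1, ne1⟩ := ex1
  obtain ⟨i2, ki2, i2l, ag2, ne2⟩ := ex2
  have hkl : k < l := by omega
  have hϑ0 : 0 < ϑ := by linarith
  have sab : 0 < Real.sin (φb - φa) := Real.sin_pos_of_pos_of_lt_pi (by linarith) (by linarith)
  have sb2 : 0 < Real.sin (φ₂ - φb) := Real.sin_pos_of_pos_of_lt_pi (by linarith) (by linarith)
  have sa1 : 0 < -1 * Real.sin (φ₁ - φa) := by
    rw [← neg_sub φa φ₁, Real.sin_neg]
    have := Real.sin_pos_of_pos_of_lt_pi (show 0 < φa - φ₁ by linarith) (by linarith)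
    linarith
  -- the branching vertex
  obtain ⟨c, hca, hcb⟩ := sep hp (e := 1) (Or.inl rfl) Ra.orb Rb.orb Ra.gen Rb.gen
    (by linarith) agab hne
  rw [one_mul] at hca hcb
  obtain ⟨α, hα⟩ : ∃ α, α = ge p ua l c := ⟨_, rfl⟩
  rw [← hα] at hca hcb
  -- the end points of the gates
  have hends : ∀ r, ∃ b : Bool, r < l → 0 < kp X φa (ge p ua r b) ∧ 0 < kp X φb (ge p ua r b) ∧
      kp X φa (ge p ua r (!b)) < 0 ∧ kp X φb (ge p ua r (!b)) < 0 := by
    intro r
    by_cases hr : r < l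
    · obtain ⟨b, hb⟩ := ends hp Ra.orb Rb.orb hab (by linarith) (i := r)
        (fun r' hr' => agab r' (by omega))
      exact ⟨b, fun _ => hb⟩
    · exact ⟨true, fun h => absurd h hr⟩
  choose β hβ using hends
  -- separation from the outer rays
  obtain ⟨c2, hc2, hc2'⟩ := sep hp (e := 1) (Or.inl rfl) Rb.orb R₂.orb Rb.gen R₂.gen
    (by linarith) ag2 ne2
  rw [one_mul] at hc2 hc2'
  rw [← ge_congr (u := ua) (u' := ub) (i := i2) (fun r hr => agab r (by omega)) c2] at hc2 hc2'
  obtain ⟨c1, hc1, hc1'⟩ := sep hp (e := -1) (Or.inr rfl) Ra.orb R₁.orb Ra.gen R₁.gen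
    sa1 ag1 ne1
  have hc2e : c2 = β i2 := by
    by_contra hcon
    have h1 : c2 = !(β i2) := by
      cases hx : β i2 <;> cases hy : c2 <;> simp_all
    have h2 := (hβ i2 i2l).2.2.2
    rw [← h1] at h2
    linarith
  have hc1e : c1 = !(β i1) := by
    by_contra hcon
    have h1 : c1 = β i1 := by
      cases hx : β i1 <;> cases hy : c1 <;> simp_all
    have h2 := (hβ i1 i1l).1
    rw [← h1] at h2
    linarith
  obtain ⟨A, hA⟩ : ∃ A : ℕ → ℂ, A = fun r => ge p ua r (β r) := ⟨_, rfl⟩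
  obtain ⟨B, hB'⟩ : ∃ B : ℕ → ℂ, B = fun r => ge p ua r (!(β r)) := ⟨_, rfl⟩
  have hAr : ∀ r, A r = ge p ua r (β r) := fun r => by rw [hA]
  have hBr : ∀ r, B r = ge p ua r (!(β r)) := fun r => by rw [hB']
  -- the closest end points
  obtain ⟨i, ki, il, hclA, hA2⟩ := closest (X := X) (φ := φb) (φ' := φ₂) (e := 1) (Or.inl rfl)
    (k := k) (l := l) (i₀ := i2) (A := A) (by linarith)
    (fun r _ hr => by rw [hAr, one_mul]; exact (hβ r hr).2.1) ki2 i2l
    (by rw [hAr, one_mul, ← hc2e]; exact hc2')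
  obtain ⟨i', ki', il', hclB, hB1⟩ := closest (X := X) (φ := φa) (φ' := φ₁) (e := -1)
    (Or.inr rfl) (k := k) (l := l) (i₀ := i1) (A := B) sa1
    (fun r _ hr => by rw [hBr]; have := (hβ r hr).2.2.1; linarith) ki1 i1l
    (by rw [hBr, ← hc1e]; exact hc1')
  -- the gate functions
  have hLaff : ∀ r, Aff (Lf p ua r) := fun r a b c => Lf_line hp ua r a b c
  have hLX : ∀ r, 0 < Lf p ua r X := fun r => Lf_src_pos hp Ra.orb r
  have hLge : ∀ r b, Lf p ua r (ge p ua r b) = 0 := fun r b => Lf_ge hp ua r b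
  have hLgen : ∀ r b, Lf p ua r (ge p ua (r + 1) b) ≤ 0 := fun r b =>
    Lf_next hp ua r (ge_creg hp ua (r + 1) b)
  have hLa : ∀ r, Lf p ua r (X + ta r • dir φa) = 0 := fun r => by
    unfold Lf; exact side_zero hp (hit_unf hp Ra.orb r)
  have hLan : ∀ r, Lf p ua r (X + ta (r + 1) • dir φa) ≤ 0 := fun r =>
    Lf_next hp ua r (hit_creg hp Ra.orb (r + 1))
  have hLb : ∀ r, r < l → Lf p ua r (X + tb r • dir φb) = 0 := fun r hr => by
    rw [Lf_congr (u := ua) (u' := ub) (fun r' hr' => agab r' (by omega))]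
    unfold Lf; exact side_zero hp (hit_unf hp Rb.orb r)
  have hLbn : ∀ r, r + 1 < l → Lf p ua r (X + tb (r + 1) • dir φb) ≤ 0 := fun r hr => by
    rw [Lf_congr (u := ua) (u' := ub) (fun r' hr' => agab r' (by omega))]
    exact Lf_next hp ub r (hit_creg hp Rb.orb (r + 1))
  -- the chains
  have chA := chain (X := X) (φ := φb) (e := 1) (Or.inl rfl) (k := k) (l := l) (i := i)
    (y := fun r => X + tb r • dir φb) (A := A) (L := Lf p ua) hLaff (fun r _ _ => hLX r)
    (fun r _ hr => hLb r hr) (fun r _ _ => by rw [hAr]; exact hLge r _)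
    (fun r _ hr => hLbn r hr) (fun r _ _ => by rw [hAr]; exact hLgen r _)
    (fun r _ _ => ⟨tb r, Rb.orb.tpos r, rfl⟩)
    (fun r _ hr => by rw [hAr, one_mul]; exact (hβ r hr).2.1) hclA ki il
  have chB := chain (X := X) (φ := φa) (e := -1) (Or.inr rfl) (k := k) (l := l) (i := i')
    (y := fun r => X + ta r • dir φa) (A := B) (L := Lf p ua) hLaff (fun r _ _ => hLX r)
    (fun r _ _ => hLa r) (fun r _ _ => by rw [hBr]; exact hLge r _)
    (fun r _ _ => hLan r) (fun r _ _ => by rw [hBr]; exact hLgen r _)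
    (fun r _ _ => ⟨ta r, Ra.orb.tpos r, rfl⟩)
    (fun r _ hr => by rw [hBr]; have := (hβ r hr).2.2.1; linarith) hclB ki' il'
  -- the branching vertex is beyond all gates
  have hlast : Lf p ua (l - 1) α < 0 := by
    obtain ⟨l', rfl⟩ : ∃ l', l = l' + 1 := ⟨l - 1, by omega⟩
    rw [Nat.add_sub_cancel]
    have h1 : Lf p ua l' α ≤ 0 := by rw [hα]; exact hLgen l' c
    refine lt_of_le_of_ne h1 fun h0 => ?_
    -- otherwise it is an end point of the previous gate
    obtain ⟨j, hj⟩ : ∃ j, j = (if c then ua (l' + 1) + 1 else ua (l' + 1)) := ⟨_, rfl⟩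
    have h2 : α = uf p ((List.range l').map ua) (rf p (ua l') (p j)) := by
      rw [hα, ge, ← hj, List.range_succ, List.map_append, List.map_singleton, uf_append]
      rfl
    have h3 : sf p (ua l') (p j) = 0 := by
      rw [h2, Lf, fp_uf hp, sf_rf hp] at h0
      linarith
    have h4 : j = ua l' ∨ j = ua l' + 1 := by
      by_contra hcon
      push Not at hcon
      have := sf_vert_pos hp hcon.1 hcon.2
      linarith
    rw [rf_fix hp _ _ h3] at h2
    have h5 : ∃ b, α = ge p ua l' b := by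
      rcases h4 with h4 | h4
      · exact ⟨false, by rw [h2, h4]; rfl⟩
      · exact ⟨true, by rw [h2, h4]; rfl⟩
    obtain ⟨b, hb⟩ := h5
    obtain ⟨q1, q2, q3, q4⟩ := hβ l' (Nat.lt_succ_self l')
    by_cases hbb : b = β l'
    · rw [hb, hbb] at hcb
      linarith
    · have : b = !(β l') := by cases hx : β l' <;> cases hy : b <;> simp_all
      rw [hb, this] at hca
      linarith
  have hbey := beyond (X := X) (α := α) (φ := φa) (φ' := φb) (k := k) (l := l)
    (y := fun r => X + ta r • dir φa) (y' := fun r => X + tb r • dir φb) (L := Lf p ua) hLaff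
    (fun r _ _ => hLX r) (fun r _ _ => hLa r) (fun r _ hr => hLb r hr) (fun r _ _ => hLan r)
    (fun r _ hr => hLbn r hr) (fun r _ _ => ⟨ta r, Ra.orb.tpos r, rfl⟩)
    (fun r _ _ => ⟨tb r, Rb.orb.tpos r, rfl⟩) sab hca hcb hkl hlast
  -- the three points are nearly on the ray `b`
  have hS : ∀ (r : ℕ) (b : Bool), r ≤ l → ‖ge p ua r b - X‖ ≤ D * (k + m + 2) := by
    intro r b hr
    refine (ge_dist hp hX hD Ra.orb r b).trans ?_
    have : (r : ℝ) ≤ k + m := by exact_mod_cast (show r ≤ k + m by omega)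
    gcongr
  obtain ⟨κ, hκ⟩ : ∃ κ, κ = D * (k + m + 2) * ϑ := ⟨_, rfl⟩
  have hκ0 : 0 ≤ κ := by rw [hκ]; positivity
  have near : ∀ (z : ℂ) (φ φ' : ℝ), ‖z - X‖ ≤ D * (k + m + 2) → |φ - φ'| ≤ ϑ →
      |kp X φ z - kp X φ' z| ≤ κ := by
    intro z φ φ' h1 h2
    refine (kp_diff X φ φ' z).trans ?_
    rw [hκ]
    gcongr
  rw [one_mul] at hA2
  have kA1 : 0 < kp X φb (A i) := by rw [hAr]; exact (hβ i il).2.1
  have kA2 : 0 < kp X φa (A i) := by rw [hAr]; exact (hβ i il).1
  have kB1 : kp X φb (B i') < 0 := by rw [hBr]; exact (hβ i' il').2.2.2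
  have kB2 : kp X φa (B i') < 0 := by rw [hBr]; exact (hβ i' il').2.2.1
  have nA : |kp X φb (A i)| ≤ 2 * κ := by
    have h1 := near (A i) φb φ₂ (by rw [hAr]; exact hS i _ il.le)
      (by rw [abs_le]; constructor <;> linarith)
    rw [abs_le] at h1 ⊢
    constructor <;> linarith
  have nα : |kp X φb α| ≤ 2 * κ := by
    have h1 := near α φa φb (by rw [hα]; exact hS l _ le_rfl)
      (by rw [abs_le]; constructor <;> linarith)
    rw [abs_le] at h1 ⊢
    constructor <;> linarith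
  have nB : |kp X φb (B i')| ≤ 2 * κ := by
    have hn : ‖B i' - X‖ ≤ D * (k + m + 2) := by rw [hBr]; exact hS i' _ il'.le
    have h1 := near (B i') φa φ₁ hn (by rw [abs_le]; constructor <;> linarith)
    have h2 := near (B i') φb φa hn (by rw [abs_le]; constructor <;> linarith)
    rw [abs_le] at h1 h2 ⊢
    constructor <;> linarith
  -- hence they are collinear
  have vA : fp p ((List.range k).map ua) (A i) ∈ VK p m := by
    rw [hAr]; exact ge_mem_VK hp ua ki (by omega) _
  have vB : fp p ((List.range k).map ua) (B i') ∈ VK p m := by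
    rw [hBr]; exact ge_mem_VK hp ua ki' (by omega) _
  have vα : fp p ((List.range k).map ua) α ∈ VK p m := by
    rw [hα]; exact ge_mem_VK hp ua hkl.le (by omega) _
  have hdet : det3 (B i') α (A i) = 0 := by
    have b1 : |det3 (B i') α (A i)| ≤ 4 * M * (2 * κ) := by
      refine det3_bound (X := X) (φ := φb) ?_ ?_ nB nα nA
      · rw [← fp_norm hp ((List.range k).map ua)]; exact hM _ vα _ vB
      · rw [← fp_norm hp ((List.range k).map ua)]; exact hM _ vA _ vB
    have b2 : |det3 (fp p ((List.range k).map ua) (B i')) (fp p ((List.range k).map ua) α)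
        (fp p ((List.range k).map ua) (A i))| < δ := by
      have b3 : |det3 (fp p ((List.range k).map ua) (B i')) (fp p ((List.range k).map ua) α)
          (fp p ((List.range k).map ua) (A i))| = |det3 (B i') α (A i)| := by
        rcases det3_fp (p := p) ((List.range k).map ua) (B i') α (A i) with h | h
        · rw [h]
        · rw [h, abs_neg]
      rw [b3]
      rw [hκ] at b1
      exact b1.trans_lt hsmall
    have b3 := hδ _ vB _ vα _ vA b2
    rcases det3_fp (p := p) ((List.range k).map ua) (B i') α (A i) with h | h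
    · rw [← h]; exact b3
    · rw [b3] at h; linarith
  -- so `α` is between the two other points
  have hneAB : A i - B i' ≠ 0 := by
    intro h
    have : A i = B i' := sub_eq_zero.1 h
    rw [this] at kA1
    linarith
  obtain ⟨lam, hlam⟩ : ∃ lam : ℝ, α = B i' + lam • (A i - B i') := by
    have hns : (Complex.normSq (A i - B i') : ℂ) ≠ 0 := by
      exact_mod_cast (Complex.normSq_pos.2 hneAB).ne'
    refine ⟨((A i - B i') * conj (α - B i')).re / Complex.normSq (A i - B i'), ?_⟩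
    have e1 : (A i - B i') * conj (α - B i') =
        ((((A i - B i') * conj (α - B i')).re : ℝ) : ℂ) := by
      apply Complex.ext
      · rw [ofReal_re]
      · rw [ofReal_im]; exact hdet
    have e2 : conj (A i - B i') * (α - B i') =
        ((((A i - B i') * conj (α - B i')).re : ℝ) : ℂ) := by
      have := congrArg conj e1
      rw [map_mul, conj_conj, conj_ofReal] at this
      exact this
    rw [real_smul]
    push_cast
    rw [← e2, ← Complex.mul_conj]
    have hc : conj (A i - B i') ≠ 0 := by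
      rw [Ne, map_eq_zero]; exact hneAB
    field_simp
    ring
  have l0 : 0 < lam := by
    have h1 := hca
    rw [hlam, kp_line] at h1
    by_contra hcon
    push Not at hcon
    have := mul_nonpos_of_nonpos_of_nonneg hcon
      (show 0 ≤ kp X φa (A i) - kp X φa (B i') by linarith)
    linarith
  have l1 : lam < 1 := by
    have h1 := hcb
    rw [hlam, kp_line] at h1
    by_contra hcon
    push Not at hcon
    have := mul_nonneg (show 0 ≤ lam - 1 by linarith)
      (show 0 ≤ kp X φb (A i) - kp X φb (B i') by linarith)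
    linarith
  have z1 : Lf p ua i (B i') < 0 := by
    have h1 := hbey i ki il
    have h2 : Lf p ua i (A i) = 0 := by rw [hAr]; exact hLge i _
    rw [hlam, Lf_line hp, h2] at h1
    have h3 : 0 < (1 - lam) * (-Lf p ua i (B i')) := by linarith
    have := pos_r h3 (by linarith)
    linarith
  have z2 : Lf p ua i' (A i) < 0 := by
    have h1 := hbey i' ki' il'
    have h2 : Lf p ua i' (B i') = 0 := by rw [hBr]; exact hLge i' _
    rw [hlam, Lf_line hp, h2] at h1
    have h3 : 0 < lam * (-Lf p ua i' (A i)) := by linarith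
    have := pos_r h3 l0
    linarith
  rcases le_total i i' with h | h
  · have := chA i' h il'
    linarith
  · have := chB i h il
    linarith

end Pool.Agent.Q48.BL
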