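import Pool.Agent.Q48.BL.LimV
import Pool.Agent.Q48.BL.Branch

set_option autoImplicit false

/-!
Billiards: the structure of the invariant sets of slow directional perimeter outside small balls.
-/

namespace Pool.Agent.Q48.BL

open Complex Set MeasureTheory Filter Topology Pool.Agent.W780.PG Pool.Agent.W780.BB
  Pool.Agent.TH103.BL

open scoped Real ComplexConjugate ENNReal

variable {n : ℕ} {p : Fin (n + 3) → ℂ}

theorem exists_off (hp : IsConvexPolygon p) (f : ℂ) :
    ∃ i, f ∉ segment ℝ (p i) (p (i + 1)) := by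
  by_contra hcon
  push Not at hcon
  have h0 := sf_seg (hcon 0)
  have h1 := hcon 1
  have h2 := sf_seg (hcon 2)
  have e11 : (1 : Fin (n + 3)) + 1 = 2 := by
    apply Fin.ext
    rw [Fin.val_add, Fin.val_one, Fin.val_two, Nat.mod_eq_of_lt (by omega)]
  rw [e11] at h1
  have n1 : (2 : Fin (n + 3)) ≠ 0 := by
    intro h
    have := congrArg Fin.val h
    rw [Fin.val_two, Fin.val_zero] at this
    omega
  have n2 : (2 : Fin (n + 3)) ≠ 0 + 1 := by
    intro h
    have := congrArg Fin.val h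
    rw [zero_add, Fin.val_two, Fin.val_one] at this
    omega
  have n3 : (1 : Fin (n + 3)) ≠ 2 := by
    rw [zero_add] at n2
    exact n2.symm
  have n4 : (1 : Fin (n + 3)) ≠ 2 + 1 := by
    intro h
    have h' : (0 : Fin (n + 3)) + 1 = 2 + 1 := by rw [zero_add]; exact h
    exact n1 (add_right_cancel h').symm
  have p1 := sf_vert_pos hp n1 n2
  have p2 := sf_vert_pos hp n3 n4
  have z1 : sf p 0 (p 1) = 0 := by
    have := sf_vert1 p (1 : Fin (n + 3))
    rwa [sub_self] at this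
  rw [segment_eq_image'] at h1
  obtain ⟨s, hs, rfl⟩ := h1
  simp only at h0 h2
  rw [Pool.Agent.W12.BB.Fan.sf_line, z1] at h0
  have hs0 : s = 0 := by
    have : s * sf p 0 (p 2) = 0 := by linarith
    rcases mul_eq_zero.1 this with h | h
    · exact h
    · exact absurd h p1.ne'
  rw [hs0, zero_smul, add_zero] at h2
  exact p2.ne' h2

theorem bounded_ctrl (hp : IsConvexPolygon p) : ∃ L : ℝ, 0 < L ∧ ∀ (F : Set ℂ) (r : ℝ),
    Small p F r → ∃ (U : Set ℂ) (m : Fin 3 → ℝ), MeasurableSet U ∧ Ctrl p U m ∧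
      (∀ j, 0 < m j) ∧ (∀ j, m j ≤ L) ∧ ∀ z ∈ region p, z ∈ U → z ∈ Away F r := by
  have hbd : Bornology.IsBounded (convexHull ℝ (range p)) :=
    (isBounded_convexHull).2 (finite_range p).isBounded
  obtain ⟨D, hD⟩ := hbd.exists_norm_le
  have hD0 : 0 ≤ D := (norm_nonneg _).trans (hD _ (subset_convexHull ℝ _ (mem_range_self 0)))
  have hj : ∀ j : Fin 3, ((j : ℕ) : ℝ) ≤ 2 := fun j => by
    exact_mod_cast (show (j : ℕ) ≤ 2 by omega)
  refine ⟨12 * (D + 1), by positivity, fun F r hs => ?_⟩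
  have hr := hs.pos
  by_cases hrD : r ≤ D + 1
  · refine ⟨Away F r, fun j => 4 * r * ((j : ℕ) + 1), away_meas F r, ctrl_away hp hs,
      fun j => by positivity, fun j => ?_, fun z _ h => h⟩
    have := hj j
    have h1 : 4 * r * (((j : ℕ) : ℝ) + 1) ≤ 4 * r * 3 := by gcongr; linarith
    linarith
  · push Not at hrD
    have hs1 : Small p (∅ : Set ℂ) 1 := ⟨one_pos, by simp, by simp⟩
    refine ⟨Away ∅ 1, fun j => 4 * 1 * ((j : ℕ) + 1), away_meas _ _, ctrl_away hp hs1,
      fun j => by positivity, fun j => ?_, fun z hz _ => ?_⟩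
    · have := hj j
      show 4 * 1 * (((j : ℕ) : ℝ) + 1) ≤ 12 * (D + 1)
      linarith
    · intro f hf
      by_contra hcon
      push Not at hcon
      obtain ⟨i, hi⟩ := exists_off hp f
      have h1 := hs.side f hf i hi (p i) (left_mem_segment ℝ _ _)
      have h2 : ‖p i‖ ≤ D := hD _ (subset_convexHull ℝ _ (mem_range_self i))
      have h3 : ‖z‖ ≤ D := hD _ (interior_subset hz)
      have h4 : ‖p i - f‖ ≤ ‖p i‖ + ‖z‖ + ‖z - f‖ := by
        have e : p i - f = p i - z + (z - f) := by ring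
        rw [e]
        exact (norm_add_le _ _).trans (by gcongr; exact norm_sub_le _ _)
      linarith

/-- The structure of the invariant sets of slow directional perimeter outside small balls. -/
theorem structure_slow (hp : IsConvexPolygon p) : ∃ Φ : ℝ → ℝ,
    Tendsto (fun h => Φ h / (h * Real.log (1 / h))) (𝓝[>] 0) atTop ∧
    (∀ᶠ h in 𝓝[>] (0 : ℝ), 0 < Φ h) ∧ ∀ S : Set (ℂ × ℝ), MeasurableSet S →
      IsInvariant p S → SlowSet p Φ S →
    ∃ Θ : Set ℝ, MeasurableSet Θ ∧ (∀ θ, θ + 2 * π ∈ Θ ↔ θ ∈ Θ) ∧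
      volume {x : ℂ × ℝ | x ∈ phase p ∧ ¬ (x ∈ S ↔ x.2 ∈ Θ)} = 0 := by
  obtain ⟨L, hL, hb⟩ := bounded_ctrl hp
  obtain ⟨J, hJ, hrate⟩ := rate hp hL
  have hJR : Tendsto (fun h => (J h : ℝ) + 1) (𝓝[>] 0) atTop :=
    tendsto_atTop_add_const_right _ _ (tendsto_natCast_atTop_atTop.comp hJ)
  have e1 : ∀ᶠ h in 𝓝[>] (0 : ℝ), 0 < h * Real.log (1 / h) := by
    filter_upwards [Ioo_mem_nhdsGT (zero_lt_one : (0 : ℝ) < 1)] with h hh
    have h1 : 0 < h := hh.1
    have h2 : 0 < Real.log (1 / h) := Real.log_pos (by rw [lt_div_iff₀ h1]; linarith [hh.2])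
    positivity
  refine ⟨fun h => ((J h : ℝ) + 1) * (h * Real.log (1 / h)), ?_, ?_, ?_⟩
  · refine hJR.congr' ?_
    filter_upwards [e1] with h hh
    rw [mul_div_assoc, div_self hh.ne', mul_one]
  · filter_upwards [e1] with h hh
    positivity
  · intro S hS hI hF
    obtain ⟨C, hC⟩ := hF
    refine Pool.Agent.W803.BBD.dir_main hB hH n p hp S hS hI (fun η δ h1 h2 =>
      hrate S hS hI C ?_ η δ h1 h2)
    refine hC.mono fun h hh => ?_
    obtain ⟨F, r, hs, hchg⟩ := hh
    obtain ⟨U, m, hU, hctrl, hm0, hmL, hsub⟩ := hb F r hs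
    refine ⟨U, m, hU, hctrl, hm0, hmL, le_trans (measure_mono ?_) hchg⟩
    rintro x ⟨h1, h2, h3⟩
    exact ⟨h1, hsub _ h1.1 h2, h3⟩

end Pool.Agent.Q48.BL
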