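import Pool.Agent.Q48.BL.Sep

set_option autoImplicit false

/-!
Billiards: order of the gates along a direction; the closest end point of a gate.
-/

namespace Pool.Agent.Q48.BL

open Complex Set MeasureTheory Filter Topology Pool.Agent.W780.PG Pool.Agent.W780.BB
  Pool.Agent.TH103.BL

open scoped Real ComplexConjugate

/-- the affine functions used below -/
def Aff (L : ℂ → ℝ) : Prop := ∀ (a b : ℂ) (c : ℝ), L (a + c • (b - a)) = L a + c * (L b - L a)

theorem mu_val {L : ℂ → ℝ} (hL : Aff L) {X β : ℂ} {μ : ℝ}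
    (h0 : L (X + μ • (β - X)) = 0) : L β * μ = L X * (μ - 1) := by
  rw [hL] at h0
  linarith

theorem mono_mu {L : ℕ → ℂ → ℝ} (hL : ∀ r, Aff (L r)) {X β : ℂ} {k l : ℕ} {μ : ℕ → ℝ}
    (hX : ∀ r, k ≤ r → r < l → 0 < L r X) (hμ : ∀ r, k ≤ r → r < l → 0 < μ r)
    (h0 : ∀ r, k ≤ r → r < l → L r (X + μ r • (β - X)) = 0)
    (h1 : ∀ r, k ≤ r → r + 1 < l → L r (X + μ (r + 1) • (β - X)) ≤ 0) :
    ∀ r r', k ≤ r → r ≤ r' → r' < l → μ r ≤ μ r' := by
  have hstep : ∀ r, k ≤ r → r + 1 < l → μ r ≤ μ (r + 1) := by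
    intro r hr hr2
    have a1 := hX r hr (by omega)
    have a2 := hμ r hr (by omega)
    have a3 := h0 r hr (by omega)
    have a4 := h1 r hr hr2
    rw [hL r] at a3 a4
    by_contra hcon
    push Not at hcon
    have a5 : μ (r + 1) * (L r β - L r X) > μ r * (L r β - L r X) := by
      have : L r β - L r X < 0 := by
        by_contra hc
        push Not at hc
        have := mul_nonneg a2.le hc
        linarith
      nlinarith
    linarith
  intro r r' hr hrr
  induction r', hrr using Nat.le_induction with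
  | base => intro _; exact le_rfl
  | succ r' hrr ih =>
    intro hl
    exact (ih (by omega)).trans (hstep r' (hr.trans hrr) hl)

/-- a multiple of `β - X` on a segment -/
theorem on_seg {X β y A : ℂ} {e : ℝ} (he : e = 1 ∨ e = -1)
    (h0 : e * ((y - X) * conj (β - X)).im < 0) (h1 : 0 ≤ e * ((A - X) * conj (β - X)).im)
    (hβ : β ≠ X) :
    ∃ c μ : ℝ, 0 < c ∧ c ≤ 1 ∧ y + c • (A - y) = X + μ • (β - X) := by
  obtain ⟨w0, hw0⟩ : ∃ w0, w0 = e * ((y - X) * conj (β - X)).im := ⟨_, rfl⟩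
  obtain ⟨w1, hw1⟩ : ∃ w1, w1 = e * ((A - X) * conj (β - X)).im := ⟨_, rfl⟩
  rw [← hw0] at h0
  rw [← hw1] at h1
  obtain ⟨c, hc⟩ : ∃ c, c = -w0 / (w1 - w0) := ⟨_, rfl⟩
  have hc0 : 0 < c := by rw [hc]; exact div_pos (by linarith) (by linarith)
  have hc1 : c ≤ 1 := by rw [hc, div_le_one (by linarith)]; linarith
  obtain ⟨z, hz⟩ : ∃ z, z = y + c • (A - y) := ⟨_, rfl⟩
  have him : ((z - X) * conj (β - X)).im = 0 := by
    have e1 : (z - X) * conj (β - X) = (y - X) * conj (β - X) +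
        (c : ℂ) * ((A - X) * conj (β - X) - (y - X) * conj (β - X)) := by
      rw [hz, real_smul]; ring
    have e2 : e * ((z - X) * conj (β - X)).im = w0 + c * (w1 - w0) := by
      rw [e1, add_im, im_ofReal_mul, sub_im, hw0, hw1]; ring
    have e3 : c * (w1 - w0) = -w0 := by
      rw [hc]
      have : w1 - w0 ≠ 0 := by linarith
      field_simp
    rw [e3] at e2
    have he0 : e ≠ 0 := by rcases he with rfl | rfl <;> norm_num
    have e4 : e * ((z - X) * conj (β - X)).im = 0 := by linarith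
    exact (mul_eq_zero.1 e4).resolve_left he0
  have hne : β - X ≠ 0 := sub_ne_zero.2 hβ
  have hns : (Complex.normSq (β - X) : ℂ) ≠ 0 := by
    exact_mod_cast (Complex.normSq_pos.2 hne).ne'
  refine ⟨c, ((z - X) * conj (β - X)).re / Complex.normSq (β - X), hc0, hc1, ?_⟩
  rw [← hz]
  have e5 : (z - X) * conj (β - X) = ((((z - X) * conj (β - X)).re : ℝ) : ℂ) := by
    apply Complex.ext
    · rw [ofReal_re]
    · rw [him, ofReal_im]
  have e6 : (z - X) * (Complex.normSq (β - X) : ℂ) =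
      ((((z - X) * conj (β - X)).re : ℝ) : ℂ) * (β - X) := by
    rw [← e5, ← Complex.mul_conj]; ring
  rw [real_smul]
  push_cast
  rw [div_mul_eq_mul_div, ← e6]
  field_simp
  ring

theorem cross_ray {X β : ℂ} {φ s : ℝ} :
    ((X + s • dir φ - X) * conj (β - X)).im = - (s * kp X φ β) := by
  unfold kp
  rw [add_sub_cancel_left, real_smul, mul_assoc, im_ofReal_mul]
  have : (dir φ * conj (β - X)).im = - ((β - X) * conj (dir φ)).im := by
    have h : dir φ * conj (β - X) = conj ((β - X) * conj (dir φ)) := by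
      rw [map_mul, conj_conj, mul_comm]
    rw [h, conj_im]
  rw [this]
  ring

theorem kp_smul (X β : ℂ) (φ μ : ℝ) : kp X φ (X + μ • (β - X)) = μ * kp X φ β := by
  unfold kp
  rw [add_sub_cancel_left, real_smul, mul_assoc, im_ofReal_mul]

theorem ne_of_kp {X β : ℂ} {φ : ℝ} (h : kp X φ β ≠ 0) : β ≠ X := by
  rintro rfl
  apply h
  unfold kp
  rw [sub_self, zero_mul, zero_im]

/-- Beyond the closest end point the gates are crossed later. -/
theorem chain {X : ℂ} {φ e : ℝ} (he : e = 1 ∨ e = -1) {k l i : ℕ} {y A : ℕ → ℂ}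
    {L : ℕ → ℂ → ℝ} (hL : ∀ r, Aff (L r))
    (hX : ∀ r, k ≤ r → r < l → 0 < L r X)
    (hy0 : ∀ r, k ≤ r → r < l → L r (y r) = 0) (hA0 : ∀ r, k ≤ r → r < l → L r (A r) = 0)
    (hyn : ∀ r, k ≤ r → r + 1 < l → L r (y (r + 1)) ≤ 0)
    (hAn : ∀ r, k ≤ r → r + 1 < l → L r (A (r + 1)) ≤ 0)
    (hyr : ∀ r, k ≤ r → r < l → ∃ s : ℝ, 0 < s ∧ y r = X + s • dir φ)
    (hAe : ∀ r, k ≤ r → r < l → 0 < e * kp X φ (A r))
    (hclose : ∀ r, k ≤ r → r < l → 0 ≤ e * ((A r - X) * conj (A i - X)).im)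
    (hi : k ≤ i) (hi' : i < l) : ∀ r, i ≤ r → r < l → 0 ≤ L r (A i) := by
  have hβe := hAe i hi hi'
  have hβne : A i ≠ X := by
    refine ne_of_kp (φ := φ) fun h0 => ?_
    rw [h0, mul_zero] at hβe
    exact lt_irrefl _ hβe
  have key : ∀ r, ∃ μ : ℝ, k ≤ r → r < l → 0 < μ ∧ ∃ c : ℝ, 0 < c ∧ c ≤ 1 ∧
      y r + c • (A r - y r) = X + μ • (A i - X) := by
    intro r
    by_cases hr : k ≤ r ∧ r < l
    · obtain ⟨s, hs, hys⟩ := hyr r hr.1 hr.2
      have h0 : e * ((y r - X) * conj (A i - X)).im < 0 := by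
        rw [hys, cross_ray]
        have := mul_pos hs hβe
        nlinarith
      obtain ⟨c, μ, hc0, hc1, hz⟩ := on_seg he h0 (hclose r hr.1 hr.2) hβne
      refine ⟨μ, fun _ _ => ⟨?_, c, hc0, hc1, hz⟩⟩
      have h1 : e * kp X φ (y r + c • (A r - y r)) = c * (e * kp X φ (A r)) := by
        rw [kp_line, hys, kp_self]; ring
      rw [hz, kp_smul] at h1
      have h2 : 0 < c * (e * kp X φ (A r)) := mul_pos hc0 (hAe r hr.1 hr.2)
      rw [← h1] at h2
      have h3 : 0 < μ * (e * kp X φ (A i)) := by linarith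
      exact pos_l h3 hβe
    · exact ⟨0, fun h1 h2 => absurd ⟨h1, h2⟩ hr⟩
  choose μ hμ using key
  have hz0 : ∀ r, k ≤ r → r < l → L r (X + μ r • (A i - X)) = 0 := by
    intro r h1 h2
    obtain ⟨-, c, -, -, hz⟩ := hμ r h1 h2
    rw [← hz, hL r, hy0 r h1 h2, hA0 r h1 h2]
    ring
  have hz1 : ∀ r, k ≤ r → r + 1 < l → L r (X + μ (r + 1) • (A i - X)) ≤ 0 := by
    intro r h1 h2
    obtain ⟨-, c, hc0, hc1, hz⟩ := hμ (r + 1) (by omega) h2
    rw [← hz, hL r]
    have a1 := hyn r h1 h2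
    have a2 := hAn r h1 h2
    nlinarith
  have hmono := mono_mu hL hX (fun r h1 h2 => (hμ r h1 h2).1) hz0 hz1
  have hμi : μ i = 1 := by
    have a1 := mu_val (hL i) (hz0 i hi hi')
    rw [hA0 i hi hi', zero_mul] at a1
    have a2 := hX i hi hi'
    rcases mul_eq_zero.1 a1.symm with h | h
    · linarith
    · linarith
  intro r hr hr'
  have a1 := mu_val (hL r) (hz0 r (hi.trans hr) hr')
  have a2 := hmono i r hi hr hr'
  rw [hμi] at a2
  have a3 := hX r (hi.trans hr) hr'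
  have a4 := (hμ r (hi.trans hr) hr').1
  by_contra hcon
  push Not at hcon
  have a5 : L r (A i) * μ r < 0 := mul_neg_of_neg_of_pos hcon a4
  have a6 : 0 ≤ L r X * (μ r - 1) := mul_nonneg a3.le (by linarith)
  linarith

/-- A point between two rays beyond the last gate is beyond all gates. -/
theorem beyond {X α : ℂ} {φ φ' : ℝ} {k l : ℕ} {y y' : ℕ → ℂ}
    {L : ℕ → ℂ → ℝ} (hL : ∀ r, Aff (L r))
    (hX : ∀ r, k ≤ r → r < l → 0 < L r X)
    (hy0 : ∀ r, k ≤ r → r < l → L r (y r) = 0) (hy'0 : ∀ r, k ≤ r → r < l → L r (y' r) = 0)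
    (hyn : ∀ r, k ≤ r → r + 1 < l → L r (y (r + 1)) ≤ 0)
    (hy'n : ∀ r, k ≤ r → r + 1 < l → L r (y' (r + 1)) ≤ 0)
    (hyr : ∀ r, k ≤ r → r < l → ∃ s : ℝ, 0 < s ∧ y r = X + s • dir φ)
    (hy'r : ∀ r, k ≤ r → r < l → ∃ s : ℝ, 0 < s ∧ y' r = X + s • dir φ')
    (hsin : 0 < Real.sin (φ' - φ)) (h1 : 0 < kp X φ α) (h2 : kp X φ' α < 0)
    (hkl : k < l) (hlast : L (l - 1) α < 0) : ∀ r, k ≤ r → r < l → L r α < 0 := by
  have hαne : α ≠ X := ne_of_kp (φ := φ) h1.ne'
  have key : ∀ r, ∃ μ : ℝ, k ≤ r → r < l → 0 < μ ∧ ∃ c : ℝ, 0 < c ∧ c ≤ 1 ∧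
      y r + c • (y' r - y r) = X + μ • (α - X) := by
    intro r
    by_cases hr : k ≤ r ∧ r < l
    · obtain ⟨s, hs, hys⟩ := hyr r hr.1 hr.2
      obtain ⟨s', hs', hys'⟩ := hy'r r hr.1 hr.2
      have a0 : (1 : ℝ) * ((y r - X) * conj (α - X)).im < 0 := by
        rw [hys, cross_ray]
        have := mul_pos hs h1
        linarith
      have a1 : 0 ≤ (1 : ℝ) * ((y' r - X) * conj (α - X)).im := by
        rw [hys', cross_ray]
        have := mul_neg_of_pos_of_neg hs' h2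
        linarith
      obtain ⟨c, μ, hc0, hc1, hz⟩ := on_seg (Or.inl rfl) a0 a1 hαne
      refine ⟨μ, fun _ _ => ⟨?_, c, hc0, hc1, hz⟩⟩
      have b1 : kp X φ (y r + c • (y' r - y r)) = c * (s' * Real.sin (φ' - φ)) := by
        rw [kp_line, hys, kp_self, hys', kp_ray]; ring
      rw [hz, kp_smul] at b1
      have b2 : 0 < μ * kp X φ α := by rw [b1]; positivity
      exact pos_l b2 h1
    · exact ⟨0, fun h1 h2 => absurd ⟨h1, h2⟩ hr⟩
  choose μ hμ using key
  have hz0 : ∀ r, k ≤ r → r < l → L r (X + μ r • (α - X)) = 0 := by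
    intro r h1 h2
    obtain ⟨-, c, -, -, hz⟩ := hμ r h1 h2
    rw [← hz, hL r, hy0 r h1 h2, hy'0 r h1 h2]
    ring
  have hz1 : ∀ r, k ≤ r → r + 1 < l → L r (X + μ (r + 1) • (α - X)) ≤ 0 := by
    intro r h1 h2
    obtain ⟨-, c, hc0, hc1, hz⟩ := hμ (r + 1) (by omega) h2
    rw [← hz, hL r]
    have a1 := hyn r h1 h2
    have a2 := hy'n r h1 h2
    nlinarith
  have hmono := mono_mu hL hX (fun r h1 h2 => (hμ r h1 h2).1) hz0 hz1
  have hl : μ (l - 1) < 1 := by
    have a1 := mu_val (hL (l - 1)) (hz0 (l - 1) (by omega) (by omega))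
    have a2 := (hμ (l - 1) (by omega) (by omega)).1
    have a3 := hX (l - 1) (by omega) (by omega)
    have a4 : L (l - 1) α * μ (l - 1) < 0 := mul_neg_of_neg_of_pos hlast a2
    rw [a1] at a4
    by_contra hcon
    push Not at hcon
    have := mul_nonneg a3.le (show 0 ≤ μ (l - 1) - 1 by linarith)
    linarith
  intro r hr hr'
  have a1 := mu_val (hL r) (hz0 r hr hr')
  have a2 := hmono r (l - 1) hr (by omega) (by omega)
  have a3 := hX r hr hr'
  have a4 := (hμ r hr hr').1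
  by_contra hcon
  push Not at hcon
  have a5 : 0 ≤ L r α * μ r := mul_nonneg hcon a4.le
  have a6 : L r X * (μ r - 1) < 0 := mul_neg_of_pos_of_neg a3 (by linarith)
  linarith

/-- The closest point. -/
theorem closest {X : ℂ} {φ φ' e : ℝ} (he : e = 1 ∨ e = -1) {k l i₀ : ℕ} {A : ℕ → ℂ}
    (hs : 0 < e * Real.sin (φ' - φ)) (hAe : ∀ r, k ≤ r → r < l → 0 < e * kp X φ (A r))
    (hk : k ≤ i₀) (hl : i₀ < l) (h0 : e * kp X φ' (A i₀) < 0) :
    ∃ i, k ≤ i ∧ i < l ∧ (∀ r, k ≤ r → r < l → 0 ≤ e * ((A r - X) * conj (A i - X)).im) ∧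
      e * kp X φ' (A i) < 0 := by
  have he2 : e * e = 1 := by rcases he with rfl | rfl <;> norm_num
  obtain ⟨i, hi, hmax⟩ := Finset.exists_max_image (Finset.Ico k l)
    (fun r => e * rp X φ (A r) / kp X φ (A r)) ⟨i₀, Finset.mem_Ico.2 ⟨hk, hl⟩⟩
  rw [Finset.mem_Ico] at hi
  have hcr : ∀ r, ((A r - X) * conj (A i - X)).im =
      kp X φ (A r) * rp X φ (A i) - rp X φ (A r) * kp X φ (A i) := by
    intro r
    rw [pt_eq X φ (A r), pt_eq X φ (A i), map_mul]
    have : ((rp X φ (A r) : ℂ) + (kp X φ (A r) : ℂ) * I) * dir φ *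
        (conj ((rp X φ (A i) : ℂ) + (kp X φ (A i) : ℂ) * I) * conj (dir φ)) =
        ((rp X φ (A r) : ℂ) + (kp X φ (A r) : ℂ) * I) *
          conj ((rp X φ (A i) : ℂ) + (kp X φ (A i) : ℂ) * I) := by
      linear_combination ((rp X φ (A r) : ℂ) + (kp X φ (A r) : ℂ) * I) *
          conj ((rp X φ (A i) : ℂ) + (kp X φ (A i) : ℂ) * I) * dir_mul_conj φ
    rw [this]
    simp
    ring
  have hprod : ∀ r, k ≤ r → r < l → 0 < kp X φ (A r) * kp X φ (A i) := by
    intro r h1 h2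
    have a1 := mul_pos (hAe r h1 h2) (hAe i hi.1 hi.2)
    have a2 : e * kp X φ (A r) * (e * kp X φ (A i)) = e * e * (kp X φ (A r) * kp X φ (A i)) := by
      ring
    rw [a2, he2, one_mul] at a1
    exact a1
  have hclose : ∀ r, k ≤ r → r < l → 0 ≤ e * ((A r - X) * conj (A i - X)).im := by
    intro r h1 h2
    have a1 : e * rp X φ (A r) / kp X φ (A r) ≤ e * rp X φ (A i) / kp X φ (A i) :=
      hmax r (Finset.mem_Ico.2 ⟨h1, h2⟩)
    have a2 := hprod r h1 h2
    have a3 : kp X φ (A r) ≠ 0 := fun h => by rw [h, zero_mul] at a2; exact lt_irrefl _ a2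
    have a4 : kp X φ (A i) ≠ 0 := fun h => by rw [h, mul_zero] at a2; exact lt_irrefl _ a2
    have a5 := mul_nonneg a2.le (sub_nonneg.2 a1)
    have a6 : kp X φ (A r) * kp X φ (A i) * (e * rp X φ (A i) / kp X φ (A i) -
        e * rp X φ (A r) / kp X φ (A r)) =
        e * (kp X φ (A r) * rp X φ (A i) - rp X φ (A r) * kp X φ (A i)) := by
      field_simp
    rw [hcr, ← a6]
    exact a5
  refine ⟨i, hi.1, hi.2, hclose, ?_⟩
  -- the identity
  have hid : kp X φ (A i₀) * kp X φ' (A i) = - (Real.sin (φ' - φ) *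
      ((A i₀ - X) * conj (A i - X)).im) + kp X φ (A i) * kp X φ' (A i₀) := by
    have hsub : ∀ z, kp X φ' z = kp X φ z * Real.cos (φ' - φ) - rp X φ z * Real.sin (φ' - φ) := by
      intro z
      have e1 : conj (dir φ') = conj (dir φ) * conj (dir (φ' - φ)) := by
        rw [← map_mul, ← dir_add]; congr 2; ring
      unfold kp rp
      rw [e1, ← mul_assoc, mul_im, conj_re, conj_im, dir_re, dir_im]
      ring
    rw [hcr, hsub, hsub]
    ring
  have b1 := hclose i₀ hk hl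
  have b2 := hAe i₀ hk hl
  have b3 := hAe i hi.1 hi.2
  have b4 : 0 ≤ Real.sin (φ' - φ) * ((A i₀ - X) * conj (A i - X)).im := by
    have := mul_nonneg hs.le b1
    have c1 : e * Real.sin (φ' - φ) * (e * ((A i₀ - X) * conj (A i - X)).im) =
        e * e * (Real.sin (φ' - φ) * ((A i₀ - X) * conj (A i - X)).im) := by ring
    rw [c1, he2, one_mul] at this
    exact this
  have b5 : kp X φ (A i) * kp X φ' (A i₀) < 0 := by
    have := mul_neg_of_pos_of_neg b3 h0
    have c1 : e * kp X φ (A i) * (e * kp X φ' (A i₀)) =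
        e * e * (kp X φ (A i) * kp X φ' (A i₀)) := by ring
    rw [c1, he2, one_mul] at this
    exact this
  have b6 : kp X φ (A i₀) * kp X φ' (A i) < 0 := by rw [hid]; linarith
  by_contra hcon
  push Not at hcon
  have := mul_nonneg b2.le hcon
  have c1 : e * kp X φ (A i₀) * (e * kp X φ' (A i)) =
      e * e * (kp X φ (A i₀) * kp X φ' (A i)) := by ring
  rw [c1, he2, one_mul] at this
  linarith

end Pool.Agent.Q48.BL
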