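import Pool.Agent.Q48.BL.Branch

set_option autoImplicit false

/-!
Billiards: the number of itineraries of the rays from one point grows subexponentially.
-/

namespace Pool.Agent.Q48.BL

open Complex Set MeasureTheory Filter Topology Pool.Agent.W780.PG Pool.Agent.W780.BB
  Pool.Agent.TH103.BL

open scoped Real ComplexConjugate

variable {n : ℕ} {p : Fin (n + 3) → ℂ}

/-- a family of rays from `X`, with directions in an interval of length `π` -/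
structure Fam (p : Fin (n + 3) → ℂ) (X : ℂ) (τ : ℝ) (G : Set ℝ) (U : ℝ → ℕ → Fin (n + 3))
    (T : ℝ → ℕ → ℝ) : Prop where
  ray : ∀ φ ∈ G, Ray p X φ (U φ) (T φ)
  lt : ∀ φ ∈ G, φ ∈ Ioo τ (τ + π)

/-- itineraries -/
def Wd (U : ℝ → ℕ → Fin (n + 3)) (k : ℕ) (φ : ℝ) : List (Fin (n + 3)) := (List.range k).map (U φ)

theorem Wd_succ (U : ℝ → ℕ → Fin (n + 3)) (k : ℕ) (φ : ℝ) :
    Wd U (k + 1) φ = Wd U k φ ++ [U φ k] := by
  unfold Wd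
  rw [List.range_succ, List.map_append, List.map_singleton]

theorem Wd_eq_iff (U : ℝ → ℕ → Fin (n + 3)) (k : ℕ) (φ ψ : ℝ) :
    Wd U k φ = Wd U k ψ ↔ ∀ i < k, U φ i = U ψ i :=
  ⟨fun h => word_inj h, fun h => word_congr h⟩

theorem Wd_len (U : ℝ → ℕ → Fin (n + 3)) (k : ℕ) (φ : ℝ) : (Wd U k φ).length = k := by
  unfold Wd; simp

theorem Wd_fin (U : ℝ → ℕ → Fin (n + 3)) (k : ℕ) (J : Set ℝ) : (Wd U k '' J).Finite := by
  refine (List.finite_length_le (Fin (n + 3)) k).subset ?_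
  rintro _ ⟨φ, -, rfl⟩
  exact (Wd_len U k φ).le

theorem ext_card {α : Type*} (C : Set (List α)) [Fintype α] (hC : C.Finite) :
    ((fun q : List α × α => q.1 ++ [q.2]) '' (C ×ˢ univ)).ncard ≤ C.ncard * Fintype.card α := by
  refine (Set.ncard_image_le (hC.prod Set.finite_univ)).trans ?_
  rw [Set.ncard_prod, Set.ncard_univ, Nat.card_eq_fintype_card]

theorem step_any (U : ℝ → ℕ → Fin (n + 3)) (l : ℕ) (J : Set ℝ) :
    (Wd U (l + 1) '' J).ncard ≤ (Wd U l '' J).ncard * (n + 3) := by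
  have h1 : Wd U (l + 1) '' J ⊆ (fun q : List (Fin (n + 3)) × Fin (n + 3) => q.1 ++ [q.2]) ''
      ((Wd U l '' J) ×ˢ univ) := by
    rintro _ ⟨φ, hφ, rfl⟩
    exact ⟨(Wd U l φ, U φ l), ⟨⟨φ, hφ, rfl⟩, mem_univ _⟩, (Wd_succ U l φ).symm⟩
  have h2 := ext_card (Wd U l '' J) (Wd_fin U l J)
  rw [Fintype.card_fin] at h2
  exact (Set.ncard_le_ncard h1 (((Wd_fin U l J).prod Set.finite_univ).image _)).trans h2

theorem pow_any (U : ℝ → ℕ → Fin (n + 3)) (k j : ℕ) (J : Set ℝ) {w : List (Fin (n + 3))}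
    (hJ : ∀ φ ∈ J, Wd U k φ = w) : (Wd U (k + j) '' J).ncard ≤ (n + 3) ^ j := by
  induction j with
  | zero =>
    rw [pow_zero, add_zero]
    have : Wd U k '' J ⊆ {w} := by
      rintro _ ⟨φ, hφ, rfl⟩
      exact hJ φ hφ
    exact (Set.ncard_le_ncard this (Set.finite_singleton _)).trans (Set.ncard_singleton _).le
  | succ j ih =>
    rw [← add_assoc, pow_succ]
    exact (step_any U (k + j) J).trans (Nat.mul_le_mul_right _ ih)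

theorem Fam.between {X : ℂ} {τ : ℝ} {G : Set ℝ} {U : ℝ → ℕ → Fin (n + 3)} {T : ℝ → ℕ → ℝ}
    (F : Fam p X τ G U T) (hp : IsConvexPolygon p) {φ₁ φ φ₂ : ℝ} (g₁ : φ₁ ∈ G) (g : φ ∈ G)
    (g₂ : φ₂ ∈ G) (h1 : φ₁ < φ) (h2 : φ < φ₂) {k : ℕ} (h : Wd U k φ₁ = Wd U k φ₂) :
    Wd U k φ = Wd U k φ₁ := by
  rw [Wd_eq_iff] at h ⊢
  have a1 := F.lt φ₁ g₁
  have a2 := F.lt φ₂ g₂
  exact Pool.Agent.Q48.BL.between hp (F.ray φ₁ g₁).orb (F.ray φ g).orb (F.ray φ₂ g₂).orb h1 h2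
    (by linarith [a1.1, a2.2]) h

/-- the first difference -/
theorem first_diff {u u' : ℕ → Fin (n + 3)} {k l : ℕ} (hk : ∀ r < k, u r = u' r)
    (hl : ¬ ∀ r < l, u r = u' r) : ∃ i, k ≤ i ∧ i < l ∧ (∀ r < i, u r = u' r) ∧ u i ≠ u' i := by
  classical
  push Not at hl
  have hex : ∃ r, r < l ∧ u r ≠ u' r := hl
  refine ⟨Nat.find hex, ?_, (Nat.find_spec hex).1, ?_, (Nat.find_spec hex).2⟩
  · by_contra hcon
    push Not at hcon
    exact (Nat.find_spec hex).2 (hk _ hcon)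
  · intro r hr
    by_contra hne
    exact Nat.find_min hex hr ⟨hr.trans (Nat.find_spec hex).1, hne⟩

/-- One more reflection in a thin beam. -/
theorem step_thin (hp : IsConvexPolygon p) {X : ℂ} (hX : X ∈ creg p) {D : ℝ} (hD0 : 0 < D)
    (hD : ∀ z ∈ creg p, ∀ w ∈ creg p, ‖z - w‖ ≤ D) {m : ℕ} {M δ : ℝ}
    (hM : ∀ x ∈ VK p m, ∀ y ∈ VK p m, ‖x - y‖ ≤ M)
    (hδ : ∀ x ∈ VK p m, ∀ y ∈ VK p m, ∀ z ∈ VK p m, |det3 x y z| < δ → det3 x y z = 0)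
    {τ : ℝ} {G : Set ℝ} {U : ℝ → ℕ → Fin (n + 3)} {T : ℝ → ℕ → ℝ} (F : Fam p X τ G U T)
    {ϑ : ℝ} (hϑπ : ϑ < π) {k l : ℕ} (hlm : l < k + m)
    (hsmall : 4 * M * (2 * (D * (k + m + 2) * ϑ)) < δ)
    {w : List (Fin (n + 3))} {J : Set ℝ} (hJG : J ⊆ G) (hJw : ∀ φ ∈ J, Wd U k φ = w)
    (hthin : ∀ φ ∈ J, ∀ ψ ∈ J, ψ - φ ≤ ϑ) :
    (Wd U (l + 1) '' J).ncard ≤ (Wd U l '' J).ncard + 2 * (n + 3) := by
  classical
  set 𝓛 : Set (List (Fin (n + 3))) := {c | c ∈ Wd U l '' J ∧ ∀ φ ∈ J, ∀ φ' ∈ J, Wd U l φ' = c →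
    Wd U l φ ≠ c → φ' < φ} with h𝓛
  set 𝓡 : Set (List (Fin (n + 3))) := {c | c ∈ Wd U l '' J ∧ ∀ φ ∈ J, ∀ φ' ∈ J, Wd U l φ' = c →
    Wd U l φ ≠ c → φ < φ'} with h𝓡
  have hL1 : 𝓛.Subsingleton := by
    rintro c ⟨⟨φ, hφ, rfl⟩, hc⟩ c' ⟨⟨φ', hφ', rfl⟩, hc'⟩
    by_contra hne
    have a := hc φ' hφ' φ hφ rfl (Ne.symm hne)
    have b := hc' φ hφ φ' hφ' rfl hne
    linarith
  have hR1 : 𝓡.Subsingleton := by
    rintro c ⟨⟨φ, hφ, rfl⟩, hc⟩ c' ⟨⟨φ', hφ', rfl⟩, hc'⟩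
    by_contra hne
    have a := hc φ' hφ' φ hφ rfl (Ne.symm hne)
    have b := hc' φ hφ φ' hφ' rfl hne
    linarith
  have hL2 : 𝓛.ncard ≤ 1 := by
    haveI := hL1.finite.to_subtype
    exact Set.ncard_le_one_iff_subsingleton.2 hL1
  have hR2 : 𝓡.ncard ≤ 1 := by
    haveI := hR1.finite.to_subtype
    exact Set.ncard_le_one_iff_subsingleton.2 hR1
  -- the itineraries which are not extreme do not branch
  have hnb : ∀ φ ∈ J, ∀ ψ ∈ J, Wd U l φ = Wd U l ψ → Wd U l φ ∉ 𝓛 ∪ 𝓡 → U φ l = U ψ l := by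
    have main : ∀ φ ∈ J, ∀ ψ ∈ J, φ < ψ → Wd U l φ = Wd U l ψ → Wd U l φ ∉ 𝓛 ∪ 𝓡 →
        U φ l = U ψ l := by
      intro φa ha φb hb hab heq hext
      by_contra hne
      rw [mem_union, not_or] at hext
      obtain ⟨e1, e2⟩ := hext
      rw [h𝓛, mem_ofPred_eq, not_and] at e1
      rw [h𝓡, mem_ofPred_eq, not_and] at e2
      have e1' := e1 ⟨φa, ha, rfl⟩
      have e2' := e2 ⟨φa, ha, rfl⟩
      push Not at e1' e2'
      obtain ⟨φ₁, h₁, φ₁', h₁', eq1, ne1, le1⟩ := e1'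
      obtain ⟨φ₂, h₂, φ₂', h₂', eq2, ne2, le2⟩ := e2'
      have lt1 : φ₁ < φ₁' := lt_of_le_of_ne le1 (by
        rintro rfl; exact ne1 eq1)
      have lt2 : φ₂' < φ₂ := lt_of_le_of_ne le2 (by
        rintro rfl; exact ne2 eq2)
      have l1 : φ₁ < φa := by
        by_contra hcon
        push Not at hcon
        rcases hcon.lt_or_eq with h | h
        · exact ne1 (F.between hp (hJG ha) (hJG h₁) (hJG h₁') h lt1 eq1.symm)
        · exact ne1 (by rw [← h])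
      have l2 : φb < φ₂ := by
        by_contra hcon
        push Not at hcon
        rcases hcon.lt_or_eq with h | h
        · exact ne2 ((F.between hp (hJG h₂') (hJG h₂) (hJG hb) lt2 h
            (eq2.trans heq)).trans eq2)
        · exact ne2 (by rw [h]; exact heq.symm)
      have kk : ∀ φ ∈ J, ∀ ψ ∈ J, ∀ r < k, U φ r = U ψ r := fun φ hφ ψ hψ =>
        (Wd_eq_iff U k φ ψ).1 ((hJw φ hφ).trans (hJw ψ hψ).symm)
      refine no_branch hp hX hD0 hD hM hδ (F.ray φ₁ (hJG h₁)) (F.ray φa (hJG ha))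
        (F.ray φb (hJG hb)) (F.ray φ₂ (hJG h₂)) l1 hab l2 (hthin φ₁ h₁ φ₂ h₂) hϑπ hlm hsmall
        ((Wd_eq_iff U l φa φb).1 heq) hne ?_ ?_
      · refine first_diff (kk φa ha φ₁ h₁) ?_
        rw [← Wd_eq_iff]
        exact fun h => ne1 h.symm
      · refine first_diff (kk φb hb φ₂ h₂) ?_
        rw [← Wd_eq_iff]
        exact fun h => ne2 (h.symm.trans heq.symm)
    intro φ hφ ψ hψ heq hext
    rcases lt_trichotomy φ ψ with h | h | h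
    · exact main φ hφ ψ hψ h heq hext
    · rw [h]
    · exact (main ψ hψ φ hφ h heq.symm (by rw [← heq]; exact hext)).symm
  -- counting
  have hsub : Wd U (l + 1) '' J ⊆ (Wd U (l + 1) '' {φ | φ ∈ J ∧ Wd U l φ ∉ 𝓛 ∪ 𝓡}) ∪
      (fun q : List (Fin (n + 3)) × Fin (n + 3) => q.1 ++ [q.2]) '' ((𝓛 ∪ 𝓡) ×ˢ univ) := by
    rintro _ ⟨φ, hφ, rfl⟩
    by_cases h : Wd U l φ ∈ 𝓛 ∪ 𝓡
    · exact Or.inr ⟨(Wd U l φ, U φ l), ⟨h, mem_univ _⟩, (Wd_succ U l φ).symm⟩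
    · exact Or.inl ⟨φ, ⟨hφ, h⟩, rfl⟩
  have hLRfin : (𝓛 ∪ 𝓡).Finite := hL1.finite.union hR1.finite
  have c1 : (Wd U (l + 1) '' {φ | φ ∈ J ∧ Wd U l φ ∉ 𝓛 ∪ 𝓡}).ncard ≤ (Wd U l '' J).ncard := by
    refine Set.ncard_le_ncard_of_injOn List.dropLast ?_ ?_ (Wd_fin U l J)
    · rintro _ ⟨φ, ⟨hφ, -⟩, rfl⟩
      rw [Wd_succ, List.dropLast_concat]
      exact ⟨φ, hφ, rfl⟩
    · rintro _ ⟨φ, ⟨hφ, hφ'⟩, rfl⟩ _ ⟨ψ, ⟨hψ, hψ'⟩, rfl⟩ heq
      rw [Wd_succ, Wd_succ, List.dropLast_concat, List.dropLast_concat] at heq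
      rw [Wd_succ, Wd_succ, heq, hnb φ hφ ψ hψ heq hφ']
  have c2 := ext_card (𝓛 ∪ 𝓡) hLRfin
  rw [Fintype.card_fin] at c2
  have c3 : (𝓛 ∪ 𝓡).ncard ≤ 2 := (Set.ncard_union_le _ _).trans (by omega)
  calc (Wd U (l + 1) '' J).ncard ≤ _ := Set.ncard_le_ncard hsub
        ((Wd_fin U (l + 1) _).union ((hLRfin.prod Set.finite_univ).image _))
    _ ≤ _ := Set.ncard_union_le _ _
    _ ≤ (Wd U l '' J).ncard + 2 * (n + 3) :=
        add_le_add c1 (c2.trans (Nat.mul_le_mul_right _ c3))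

end Pool.Agent.Q48.BL
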