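import Pool.Agent.W780.BB.Defs

set_option autoImplicit false

/-!
Billiards in convex polygons: invariant maps and their change when all directions are turned, the
positions in small balls being left out.

States are pairs `(z, θ)` of a position and a direction angle; `region`, `dir`, `tau`, `phase` are
defined in `Pool.Agent.W780.PG.Defs` and `Pool.Agent.W780.BB.Defs`.
-/

namespace Pool.Agent.Q48.BL

open Complex Set MeasureTheory Pool.Agent.W780.PG Pool.Agent.W780.BB

open scoped Real ENNReal

variable {n : ℕ}

/-- The points at distance at least `r` from each point of `F`. -/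
def Away (F : Set ℂ) (r : ℝ) : Set ℂ := {z | ∀ f ∈ F, r ≤ ‖z - f‖}

/-- `r > 0` is small: the distance of a point of `F` to each side not containing it and to each
other point of `F` is at least `20 r`. -/
structure Small (p : Fin (n + 3) → ℂ) (F : Set ℂ) (r : ℝ) : Prop where
  pos : 0 < r
  side : ∀ f ∈ F, ∀ i, f ∉ segment ℝ (p i) (p (i + 1)) →
    ∀ y ∈ segment ℝ (p i) (p (i + 1)), 20 * r ≤ ‖y - f‖
  sep : ∀ f ∈ F, ∀ g ∈ F, f ≠ g → 20 * r ≤ ‖f - g‖

/-- A map on the states is invariant under the billiard flow in the region of `p`: it does not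
change if `2 π` is added to the direction angle (`periodic`), during free motion inside the
region (`free`) and under elastic reflection in an inner point `y` of a side (`reflect`), where the
direction angle `θ` becomes `2 τ - θ`, `τ` the direction angle of the side. Nothing is required of
the motion after a vertex has been hit. -/
structure IsInvariantMap {Y : Type*} (p : Fin (n + 3) → ℂ) (f : ℂ × ℝ → Y) : Prop where
  periodic : ∀ (z : ℂ) (θ : ℝ), f (z, θ + 2 * π) = f (z, θ)
  free : ∀ (z : ℂ) (θ s : ℝ), z ∈ region p → z + s • dir θ ∈ region p →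
    f (z, θ) = f (z + s • dir θ, θ)
  reflect : ∀ i, ∀ y ∈ openSegment ℝ (p i) (p (i + 1)), ∀ θ s r : ℝ, 0 < s → 0 < r →
    y - s • dir θ ∈ region p → y + r • dir (2 * tau p i - θ) ∈ region p →
    f (y - s • dir θ, θ) = f (y + r • dir (2 * tau p i - θ), 2 * tau p i - θ)

/-- The change of the map `f` over the positions in `U` when all directions are turned by `h`: the
integral of the distance of `f (z, θ + h)` and `f (z, θ)`, cut off at `1`, over the states of the
phase space with position in `U`. -/
noncomputable def Osc {Y : Type*} [MetricSpace Y] (p : Fin (n + 3) → ℂ) (U : Set ℂ)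
    (f : ℂ × ℝ → Y) (h : ℝ) : ℝ≥0∞ :=
  ∫⁻ x in {x : ℂ × ℝ | x ∈ phase p ∧ x.1 ∈ U},
    ENNReal.ofReal (min 1 (dist (f (x.1, x.2 + h)) (f x)))

end Pool.Agent.Q48.BL
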