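import Pool.Agent.Q48.BL.Gap

set_option autoImplicit false

/-!
Billiards: the main estimate with control only over a set `U`.
-/

namespace Pool.Agent.Q48.BL

open Complex Set MeasureTheory Filter Topology Pool.Agent.W780.PG Pool.Agent.W780.BB
  Pool.Agent.TH103.BL

open scoped Real ComplexConjugate

variable {n : ℕ} {p : Fin (n + 3) → ℂ}

theorem ok_of_gen (hp : IsConvexPolygon p) {z : ℂ} {φ : ℝ} (hz : z ∈ reg p)
    (h : ∀ N : ℕ, ∀ w j, uf p w (p j) ∉ segment ℝ z (z + (N : ℝ) • dir φ)) : Ok p z φ 0 := by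
  refine ⟨?_, ?_⟩
  · have hc : Continuous fun s : ℝ => z + s • dir φ := by fun_prop
    have h3 : ∀ᶠ s in 𝓝 (0 : ℝ), z + s • dir φ ∈ reg p :=
      hc.continuousAt ((reg_open hp).mem_nhds (by rw [zero_smul, add_zero]; exact hz))
    obtain ⟨δ, hδ, hball⟩ := Metric.eventually_nhds_iff.1 h3
    refine ⟨δ, hδ, fun s h4 h5 => hball ?_⟩
    rw [Real.dist_eq, sub_zero, abs_of_pos h4]
    exact h5
  · intro w j s hs heq
    obtain ⟨T, hT⟩ := exists_nat_ge s
    apply h T w j
    rw [← heq, segment_eq_image']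
    have hT0 : (0 : ℝ) < T := hs.trans_le hT
    refine ⟨s / T, ⟨by positivity, (div_le_one hT0).2 hT⟩, ?_⟩
    simp only
    rw [add_sub_cancel_left, smul_smul, div_mul_cancel₀ _ hT0.ne']

theorem pick {P Q : Fin 3 → Prop} (hP : ∀ j k, j ≠ k → P j ∨ P k)
    (hQ : ∀ j k, j ≠ k → Q j ∨ Q k) : ∃ j, P j ∧ Q j := by
  by_contra hcon
  push Not at hcon
  have a1 := hP 0 1 (by decide)
  have a2 := hP 0 2 (by decide)
  have a3 := hP 1 2 (by decide)
  have b1 := hQ 0 1 (by decide)
  have b2 := hQ 0 2 (by decide)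
  have b3 := hQ 1 2 (by decide)
  have c0 := hcon 0
  have c1 := hcon 1
  have c2 := hcon 2
  tauto

/-- The pointwise part of the estimate, in the direction `e = ± 1`. -/
theorem core (hp : IsConvexPolygon p) {S : Set (ℂ × ℝ)} (hI : IsInvariant p S) {U : Set ℂ}
    {m : Fin 3 → ℝ} (hctrl : Ctrl p U m) {L : ℝ} (hm0 : ∀ j, 0 < m j) (hmL : ∀ j, m j ≤ L)
    {K : ℕ} {T η h : ℝ} (hT : 0 < T) (hh0 : 0 < h) (hTh : (T + L) * h < η)
    (hK : ∀ z ∈ reg p, ∀ A : ℂ, ‖A - z‖ ≤ T + L →
      (∀ w j, uf p w (p j) ∉ segment ℝ z A) → (∀ w i, sf p i (fp p w A) ≠ 0) →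
      ∃ w : List (Fin (n + 3)), w.length ≤ K ∧ Ch p w z A)
    {e : ℝ} (he : e = 1 ∨ e = -1) {z : ℂ} {θ φ : ℝ} (hφ : dir φ = e • dir θ)
    {G : ℂ} (hG : G = -(e • (dir (θ - e * h) - dir θ)))
    (hmem : ∀ v : ℂ, ‖v‖ < η → z + v ∈ reg p)
    (hfree : ∀ a ∈ VS p K, a ∉ convexHull ℝ ({z + (T + L) • dir φ, z, z + (T + L) • G} : Set ℂ))
    (hg1 : ∀ N : ℕ, ∀ w j, uf p w (p j) ∉ segment ℝ z (z + (N : ℝ) • dir φ))
    (hg2 : ∀ N : ℕ, ∀ w j, uf p w (p j) ∉ segment ℝ (z + T • G) (z + T • G + (N : ℝ) • dir φ))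
    (hg3 : ∀ i w j, uf p w (p j) ∉ segment ℝ z (z + (T + m i) • dir φ))
    (hg4 : ∀ j w i, sf p i (fp p w (z + (T + m j) • dir φ)) ≠ 0)
    (hg5 : ∀ i w j, uf p w (p j) ∉ segment ℝ (z + T • G) (z + T • G + m i • dir φ))
    (hg6 : ∀ j w i, sf p i (fp p w (z + T • G + m j • dir φ)) ≠ 0)
    (hE1 : ∀ j (w : List (Fin (n + 3))), w.length ≤ K → Ch p w z (z + (T + m j) • dir φ) →
      fp p w (z + (T + m j) • dir φ) ∈ U →
      fd p w (z + (T + m j) • dir φ, θ) ∉ Bp S h ∪ Bp S (-h))
    (hE2 : ∀ j (w : List (Fin (n + 3))), w.length ≤ K →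
      Ch p w (z + T • G) (z + T • G + m j • dir φ) → fp p w (z + T • G + m j • dir φ) ∈ U →
      fd p w (z + T • G + m j • dir φ, θ) ∉ Bp S h ∪ Bp S (-h)) :
    ((z, θ) ∈ S ↔ (z + T • G, θ) ∈ S) := by
  have hL : 0 < L := (hm0 0).trans_le (hmL 0)
  have he1 : |e| = 1 := by rcases he with rfl | rfl <;> norm_num
  have hGn : ‖G‖ ≤ h := by
    rw [hG, norm_neg, norm_smul, Real.norm_eq_abs, he1, one_mul]
    have := norm_dir_sub θ (-(e * h))
    rw [← sub_eq_add_neg, abs_neg, abs_mul, he1, one_mul, abs_of_pos hh0] at this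
    exact this
  have hz : z ∈ reg p := by
    have hη : 0 < η := lt_trans (by positivity) hTh
    have := hmem 0 (by rw [norm_zero]; exact hη)
    rwa [add_zero] at this
  have hGr : ∀ s : ℝ, 0 ≤ s → s ≤ T + L → z + s • G ∈ reg p := by
    intro s hs hs2
    apply hmem
    rw [norm_smul, Real.norm_eq_abs, abs_of_nonneg hs]
    calc s * ‖G‖ ≤ (T + L) * h := by gcongr
      _ < η := hTh
  have hz2 : z + T • G ∈ reg p := hGr T hT.le (by linarith)
  -- the common good time
  have c1 := hctrl z φ hz (ok_of_gen hp hz hg1) T hT.le hg4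
  have c2 := hctrl (z + T • G) φ hz2 (ok_of_gen hp hz2 hg2) 0 le_rfl
    (by intro j w i; rw [zero_add]; exact hg6 j w i)
  obtain ⟨j, hj1, hj2⟩ := pick c1 c2
  rw [zero_add] at hj2
  have hι : -(e * h) = h ∨ -(e * h) = -h := by
    rcases he with rfl | rfl
    · right; ring
    · left; ring
  have hτ : ∀ (y : ℂ) (t : ℝ), y + (e * t) • dir θ = y + t • dir φ := by
    intro y t
    rw [hφ, smul_smul, mul_comm e t]
  have hτ2 : ∀ (y : ℂ) (t : ℝ), y - (e * t) • (dir (θ + -(e * h)) - dir θ) = y + t • G := by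
    intro y t
    rw [hG, ← sub_eq_add_neg, smul_neg, smul_smul, mul_comm e t, sub_eq_add_neg]
  have hm1 := hm0 j
  have hm2 := hmL j
  -- first step
  obtain ⟨w1, hw1, hin1⟩ := hj1
  obtain ⟨w1', hw1l, hw1'⟩ := hK z hz (z + (T + m j) • dir φ) (by
    rw [add_sub_cancel_left, norm_smul, norm_dir, mul_one, Real.norm_eq_abs,
      abs_of_pos (by positivity)]
    linarith) (hg3 j) (hg4 j)
  have e1 := hUq n p hp w1 w1' _ _ hw1 hw1'
  subst e1
  have s1 := step hp hI (K := K) (y := z) (θ := θ) (τ := e * (T + m j)) (ι := -(e * h)) (h := h)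
    hι hz (by rw [hτ2]; exact hGr _ (by linarith) (by linarith)) hw1l (by rw [hτ]; exact hw1)
    (by
      rw [hτ, hτ2]
      intro a ha hin
      refine hfree a ha ?_
      have := tri_sub (z := z) (a := dir φ) (b := G) (s := 0) (t := T + m j) (T := T + L)
        (by linarith) le_rfl (by linarith) (by linarith)
      rw [zero_smul, add_zero] at this
      exact this hin) (by rw [hτ]; exact hE1 j w1 hw1l hw1 hin1)
  rw [hτ2] at s1
  -- second step
  obtain ⟨w2, hw2, hin2⟩ := hj2
  obtain ⟨w2', hw2l, hw2'⟩ := hK (z + T • G) hz2 (z + T • G + m j • dir φ) (by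
    rw [add_sub_cancel_left, norm_smul, norm_dir, mul_one, Real.norm_eq_abs,
      abs_of_pos (by positivity)]
    linarith) (hg5 j) (hg6 j)
  have e2 := hUq n p hp w2 w2' _ _ hw2 hw2'
  subst e2
  have s2 := step hp hI (K := K) (y := z + T • G) (θ := θ) (τ := e * m j) (ι := -(e * h))
    (h := h) hι hz2 (by
      rw [hτ2, add_assoc, ← add_smul]
      exact hGr _ (by linarith) (by linarith)) hw2l (by rw [hτ]; exact hw2)
    (by
      rw [hτ, hτ2]
      intro a ha hin
      exact hfree a ha (tri_sub (z := z) (a := dir φ) (b := G) (s := T) (t := m j) (T := T + L)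
        (by linarith) hT.le (by linarith) (by linarith) hin))
    (by rw [hτ]; exact hE2 j w2 hw2l hw2 hin2)
  rw [hτ2, add_assoc, ← add_smul] at s2
  exact s1.trans s2.symm

/-- generic states -/
def Cond (p : Fin (n + 3) → ℂ) (x : ℂ × ℝ) (t : ℝ) : Prop :=
  (∀ w j, uf p w (p j) ∉ segment ℝ x.1 (x.1 + t • dir x.2)) ∧
    (∀ w i, sf p i (fp p w (x.1 + t • dir x.2)) ≠ 0)

/-- the two directions -/
noncomputable def ee (b : Bool) : ℝ := if b then 1 else -1

/-- the transversal translation -/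
noncomputable def GG (h : ℝ) (b : Bool) (θ : ℝ) : ℂ :=
  -(ee b • (dir (θ - ee b * h) - dir θ))

theorem GG_cont (h : ℝ) (b : Bool) : Continuous (GG h b) := by
  have h1 : Continuous fun θ : ℝ => dir (θ - ee b * h) :=
    continuous_dir.comp (continuous_id.sub continuous_const)
  have h2 : Continuous fun θ : ℝ => ee b • (dir (θ - ee b * h) - dir θ) :=
    (h1.sub continuous_dir).const_smul (ee b)
  exact h2.neg

/-- The main estimate, with control over `U`. -/
theorem est_loc (hp : IsConvexPolygon p) (S : Set (ℂ × ℝ))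
    (hS : MeasurableSet S) (hI : IsInvariant p S) {U : Set ℂ} (hU : MeasurableSet U)
    {m : Fin 3 → ℝ} (hctrl : Ctrl p U m) {L : ℝ} (hm0 : ∀ j, 0 < m j) (hmL : ∀ j, m j ≤ L)
    (K : ℕ) (T η h : ℝ) (hT : 0 < T)
    (hh0 : 0 < h) (hTh : (T + L) * h < η)
    (hK : ∀ z ∈ reg p, ∀ A : ℂ, ‖A - z‖ ≤ T + L →
      (∀ w j, uf p w (p j) ∉ segment ℝ z A) → (∀ w i, sf p i (fp p w A) ≠ 0) →
      ∃ w : List (Fin (n + 3)), w.length ≤ K ∧ Ch p w z A) :
    volume {x : ℂ × ℝ | x ∈ phase p ∧ Metric.closedBall x.1 η ⊆ reg p ∧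
        ¬ (x ∈ S ↔ (x.1 + (T * Real.sin h) • (I * dir x.2), x.2) ∈ S)} ≤
      volume (Bad (VS p K) (T + L) h) +
        24 * volume {x : ℂ × ℝ | x ∈ phase p ∧ x.1 ∈ U ∧
          ¬ (x ∈ S ↔ (x.1, x.2 + h) ∈ S)} := by
  have hL : 0 < L := (hm0 0).trans_le (hmL 0)
  have hη : 0 < η := lt_trans (by positivity) hTh
  have hrr : region p = reg p := (hH n p hp).2
  have hopen : IsOpen (reg p) := (hB n p hp).2.1
  have hregm : MeasurableSet (region p) := by rw [hrr]; exact hopen.measurableSet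
  have hfd1 := (hR n p hp).2.2.2.2.2.2.2.2.1
  have hWf : {w : List (Fin (n + 3)) | w.length ≤ K}.Finite := List.finite_length_le _ K
  set W := hWf.toFinset with hW
  have hper := hI.periodic
  -- generic states
  set 𝒯 : Set ℝ := (range fun N : ℕ => (N : ℝ)) ∪ (range fun N : ℕ => -(N : ℝ)) ∪
    (range fun q : Bool × Fin 3 => ee q.1 * (T + m q.2)) ∪
    (range fun q : Bool × Fin 3 => ee q.1 * m q.2) with h𝒯
  have hcount : 𝒯.Countable := by
    rw [h𝒯]
    exact (((countable_range _).union (countable_range _)).union (countable_range _)).union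
      (countable_range _)
  set N : Set (ℂ × ℝ) := {x | ¬ ∀ t ∈ 𝒯, Cond p x t} with hN
  have hNnull : volume N = 0 := by
    have h1 : ∀ᵐ x : ℂ × ℝ, ∀ t ∈ 𝒯, Cond p x t :=
      (ae_ball_iff hcount).2 fun t _ => Pool.Agent.W337.BB.gen_th n p hp t
    exact h1
  set NG : Bool → Set (ℂ × ℝ) := fun b =>
    (fun x : ℂ × ℝ => (x.1 + T • GG h b x.2, x.2)) ⁻¹' N with hNG
  have hGm : ∀ b, Measurable fun θ : ℝ => T • GG h b θ := fun b =>
    ((GG_cont h b).const_smul T).measurable
  have hNGnull : ∀ b, volume (NG b) = 0 := fun b =>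
    le_antisymm ((shear_le _ (hGm b) N).trans hNnull.le) zero_le
  set B2 : Set (ℂ × ℝ) := {x | x.1 ∈ U} ∩ (Bp S h ∪ Bp S (-h)) with hB2
  have hB2m : MeasurableSet B2 :=
    (measurable_fst hU).inter ((meas_Bp hS h).union (meas_Bp hS (-h)))
  have hB2p : ∀ z θ, (z, θ + 2 * π) ∈ B2 ↔ (z, θ) ∈ B2 := by
    intro z θ
    rw [hB2]
    simp only [mem_inter_iff, mem_union]
    rw [per_Bp hper, per_Bp hper]
    exact Iff.rfl
  obtain ⟨ω, hω⟩ : ∃ ω, ω = volume {x : ℂ × ℝ | x ∈ phase p ∧ x.1 ∈ U ∧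
    ¬ (x ∈ S ↔ (x.1, x.2 + h) ∈ S)} := ⟨_, rfl⟩
  have hph : ∀ k : ℝ, phase p ∩ ({x : ℂ × ℝ | x.1 ∈ U} ∩ Bp S k) =
      ((region p ∩ U) ×ˢ Ico 0 (2 * π)) ∩ Bp S k := by
    intro k
    ext x
    simp only [phase, mem_inter_iff, mem_prod, mem_ofPred_eq]
    tauto
  have hvol1 : volume (phase p ∩ ({x : ℂ × ℝ | x.1 ∈ U} ∩ Bp S h)) ≤ ω := by
    rw [hω]
    refine measure_mono ?_
    rintro x ⟨h1, h2, h3⟩
    exact ⟨h1, h2, h3⟩
  have hvolm : volume (phase p ∩ ({x : ℂ × ℝ | x.1 ∈ U} ∩ Bp S (-h))) ≤ ω := by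
    rw [hph, vol_neg' hS (hregm.inter hU) hper, ← hph]
    exact hvol1
  have hvol2 : volume (phase p ∩ B2) ≤ ω + ω := by
    calc volume (phase p ∩ B2) = volume ((phase p ∩ ({x : ℂ × ℝ | x.1 ∈ U} ∩ Bp S h)) ∪
          (phase p ∩ ({x : ℂ × ℝ | x.1 ∈ U} ∩ Bp S (-h)))) := by
          rw [hB2, inter_union_distrib_left, inter_union_distrib_left]
      _ ≤ _ := measure_union_le _ _
      _ ≤ ω + ω := add_le_add hvol1 hvolm
  set E1 : Bool → Fin 3 → Set (ℂ × ℝ) := fun b j => {x | x ∈ phase p ∧ ∃ w ∈ W,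
    Ch p w x.1 (x.1 + (ee b * (T + m j)) • dir x.2) ∧
      fd p w (x.1 + (ee b * (T + m j)) • dir x.2, x.2) ∈ B2} with hE1
  set E0 : Bool → Fin 3 → Set (ℂ × ℝ) := fun b j => {x | x ∈ phase p ∧ ∃ w ∈ W,
    Ch p w x.1 (x.1 + (ee b * m j) • dir x.2) ∧
      fd p w (x.1 + (ee b * m j) • dir x.2, x.2) ∈ B2} with hE0
  set E2 : Bool → Fin 3 → Set (ℂ × ℝ) := fun b j =>
    (fun x : ℂ × ℝ => (x.1 + T • GG h b x.2, x.2)) ⁻¹' (E0 b j) with hE2
  have hv1 : ∀ b j, volume (E1 b j) ≤ ω + ω := fun b j =>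
    (hFlow n p hp (ee b * (T + m j)) B2 hB2m hB2p W).trans hvol2
  have hv2 : ∀ b j, volume (E2 b j) ≤ ω + ω := fun b j =>
    (shear_le _ (hGm b) _).trans ((hFlow n p hp (ee b * m j) B2 hB2m hB2p W).trans hvol2)
  have hsub : {x : ℂ × ℝ | x ∈ phase p ∧ Metric.closedBall x.1 η ⊆ reg p ∧
        ¬ (x ∈ S ↔ (x.1 + (T * Real.sin h) • (I * dir x.2), x.2) ∈ S)} ⊆
      (N ∪ ⋃ b ∈ (Finset.univ : Finset Bool), NG b) ∪ (Bad (VS p K) (T + L) h ∪
        ⋃ b ∈ (Finset.univ : Finset Bool), ⋃ j ∈ (Finset.univ : Finset (Fin 3)),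
          (E1 b j ∪ E2 b j)) := by
    rintro ⟨z, θ⟩ ⟨hx1, hx2, hx3⟩
    by_contra hcon
    rw [mem_union, mem_union, mem_union, not_or, not_or, not_or] at hcon
    obtain ⟨⟨hxN, hxNG⟩, hxB, hxE⟩ := hcon
    rw [hN, mem_ofPred_eq, not_not] at hxN
    simp only [mem_iUnion, not_exists, Finset.mem_univ, forall_const] at hxNG hxE
    have hzθ : θ ∈ Ico 0 (2 * π) := hx1.2
    have hmem : ∀ v : ℂ, ‖v‖ < η → z + v ∈ reg p := by
      intro v hv
      apply hx2
      rw [Metric.mem_closedBall, dist_eq_norm]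
      simpa using hv.le
    have hin𝒯 : ∀ b : Bool, ∀ j, ee b * (T + m j) ∈ 𝒯 := fun b j => by
      rw [h𝒯]; exact Or.inl (Or.inr ⟨(b, j), rfl⟩)
    have hin𝒯' : ∀ b : Bool, ∀ j, ee b * m j ∈ 𝒯 := fun b j => by
      rw [h𝒯]; exact Or.inr ⟨(b, j), rfl⟩
    have hin𝒯'' : ∀ b : Bool, ∀ M : ℕ, ee b * (M : ℝ) ∈ 𝒯 := fun b M => by
      rw [h𝒯]
      cases b with
      | true => exact Or.inl (Or.inl (Or.inl ⟨M, by simp [ee]⟩))
      | false => exact Or.inl (Or.inl (Or.inr ⟨M, by simp [ee]⟩))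
    -- one of the triangles contains no vertex
    have hcase : ∃ b : Bool, ∀ a ∈ VS p K, a ∉ convexHull ℝ
        ({z + (T + L) • (ee b • dir θ), z, z + (T + L) • GG h b θ} : Set ℂ) := by
      rw [Bad, mem_ofPred_eq, not_and] at hxB
      have hxB' := hxB hzθ
      rw [not_and_or] at hxB'
      rcases hxB' with hm | hpl
      · push Not at hm
        refine ⟨false, fun a ha => ?_⟩
        have := hm a ha
        simp only [GG, ee, Bool.false_eq_true, if_false, neg_smul, one_smul, neg_neg, neg_mul,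
          one_mul, sub_neg_eq_add, smul_neg, ← sub_eq_add_neg] at this ⊢
        exact this
      · push Not at hpl
        refine ⟨true, fun a ha => ?_⟩
        have := hpl a ha
        simp only [GG, ee, if_true, one_smul, one_mul, neg_sub] at this ⊢
        exact this
    obtain ⟨b, hb⟩ := hcase
    have hee : ee b = 1 ∨ ee b = -1 := by cases b <;> simp [ee]
    obtain ⟨φ, hφ⟩ : ∃ φ, dir φ = ee b • dir θ := by
      rcases hee with h1 | h1
      · exact ⟨θ, by rw [h1, one_smul]⟩
      · refine ⟨θ + π, ?_⟩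
        rw [h1, neg_smul, one_smul]
        unfold dir
        rw [ofReal_add, add_mul, exp_add, exp_pi_mul_I]
        ring
    have hconv : ∀ (y : ℂ) (t : ℝ), y + (ee b * t) • dir θ = y + t • dir φ := by
      intro y t
      rw [hφ, smul_smul, mul_comm (ee b) t]
    have hxNG' : ∀ t ∈ 𝒯, Cond p (z + T • GG h b θ, θ) t := by
      have := hxNG b
      rw [hNG, mem_preimage, hN, mem_ofPred_eq, not_not] at this
      exact this
    have hzr : z ∈ reg p := by
      have := hmem 0 (by rw [norm_zero]; exact hη)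
      rwa [add_zero] at this
    have hGn : ‖GG h b θ‖ ≤ h := by
      have he1 : |ee b| = 1 := by rcases hee with h1 | h1 <;> rw [h1] <;> norm_num
      rw [GG, norm_neg, norm_smul, Real.norm_eq_abs, he1, one_mul]
      have := norm_dir_sub θ (-(ee b * h))
      rw [← sub_eq_add_neg, abs_neg, abs_mul, he1, one_mul, abs_of_pos hh0] at this
      exact this
    have hz2 : z + T • GG h b θ ∈ reg p := by
      apply hmem
      rw [norm_smul, Real.norm_eq_abs, abs_of_pos hT]
      calc T * ‖GG h b θ‖ ≤ (T + L) * h := by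
            have : T ≤ T + L := by linarith
            gcongr
        _ < η := hTh
    have hfin := core hp hI hctrl hm0 hmL hT hh0 hTh hK hee hφ (G := GG h b θ) rfl hmem
      (by rw [hφ]; exact hb)
      (fun M w j => by
        have := (hxN _ (hin𝒯'' b M)).1 w j
        simp only at this
        rw [hconv] at this
        exact this)
      (fun M w j => by
        have := (hxNG' _ (hin𝒯'' b M)).1 w j
        simp only at this
        rw [hconv] at this
        exact this)
      (fun i w j => by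
        have := (hxN _ (hin𝒯 b i)).1 w j
        simp only at this
        rw [hconv] at this
        exact this)
      (fun j w i => by
        have := (hxN _ (hin𝒯 b j)).2 w i
        simp only at this
        rw [hconv] at this
        exact this)
      (fun i w j => by
        have := (hxNG' _ (hin𝒯' b i)).1 w j
        simp only at this
        rw [hconv] at this
        exact this)
      (fun j w i => by
        have := (hxNG' _ (hin𝒯' b j)).2 w i
        simp only at this
        rw [hconv] at this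
        exact this)
      (fun j w hwl hw hin hbad => by
        apply hxE b j
        left
        rw [hE1]
        simp only [mem_ofPred_eq]
        refine ⟨hx1, w, by rw [hW]; simpa using hwl, by rw [hconv]; exact hw, ?_⟩
        rw [hconv, hB2]
        refine ⟨?_, hbad⟩
        show (fd p w (z + (T + m j) • dir φ, θ)).1 ∈ U
        rw [hfd1]
        exact hin)
      (fun j w hwl hw hin hbad => by
        apply hxE b j
        right
        rw [hE2]
        simp only [mem_preimage]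
        rw [hE0]
        simp only [mem_ofPred_eq]
        refine ⟨⟨by rw [hrr]; exact hz2, hzθ⟩, w, by rw [hW]; simpa using hwl,
          by rw [hconv]; exact hw, ?_⟩
        rw [hconv, hB2]
        refine ⟨?_, hbad⟩
        show (fd p w (z + T • GG h b θ + m j • dir φ, θ)).1 ∈ U
        rw [hfd1]
        exact hin)
    -- free motion
    have hCn : z + (T * Real.sin h) • (I * dir θ) ∈ reg p := by
      apply hmem
      have hnn : ‖I * dir θ‖ = 1 := by rw [norm_mul, norm_I, norm_dir, one_mul]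
      rw [norm_smul, hnn, Real.norm_eq_abs, abs_mul, abs_of_pos hT]
      have h1 : |Real.sin h| ≤ |h| := Real.abs_sin_le_abs
      rw [abs_of_pos hh0] at h1
      calc T * |Real.sin h| * 1 ≤ (T + L) * h := by
            rw [mul_one]
            have : T ≤ T + L := by linarith
            gcongr
        _ < η := hTh
    have hform : ∃ c : ℝ, z + T • GG h b θ = (z + (T * Real.sin h) • (I * dir θ)) + c • dir θ := by
      cases b with
      | true =>
        refine ⟨T * (1 - Real.cos h), ?_⟩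
        rw [← plus_formula]
        simp only [GG, ee, if_true, one_smul, one_mul, neg_sub]
      | false =>
        refine ⟨T * (Real.cos h - 1), ?_⟩
        rw [← minus_formula]
        simp only [GG, ee, Bool.false_eq_true, if_false, neg_smul, one_smul, neg_neg, neg_mul,
          one_mul, sub_neg_eq_add]
    obtain ⟨c, hc⟩ := hform
    apply hx3
    rw [hfin, hc]
    exact (hI.free (z + (T * Real.sin h) • (I * dir θ)) θ c (by rw [hrr]; exact hCn)
      (by rw [hrr, ← hc]; exact hz2)).symm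
  calc volume {x : ℂ × ℝ | x ∈ phase p ∧ Metric.closedBall x.1 η ⊆ reg p ∧
        ¬ (x ∈ S ↔ (x.1 + (T * Real.sin h) • (I * dir x.2), x.2) ∈ S)}
      ≤ _ := measure_mono hsub
    _ ≤ (volume N + ∑ b ∈ (Finset.univ : Finset Bool), volume (NG b)) +
        (volume (Bad (VS p K) (T + L) h) + ∑ b ∈ (Finset.univ : Finset Bool),
          ∑ j ∈ (Finset.univ : Finset (Fin 3)), (volume (E1 b j) + volume (E2 b j))) := by
        refine (measure_union_le _ _).trans ?_
        refine add_le_add ((measure_union_le _ _).trans ?_) ((measure_union_le _ _).trans ?_)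
        · gcongr
          exact measure_biUnion_finset_le _ _
        · gcongr
          refine (measure_biUnion_finset_le _ _).trans (Finset.sum_le_sum fun b _ => ?_)
          refine (measure_biUnion_finset_le _ _).trans (Finset.sum_le_sum fun j _ => ?_)
          exact measure_union_le _ _
    _ ≤ (0 + ∑ b ∈ (Finset.univ : Finset Bool), 0) +
        (volume (Bad (VS p K) (T + L) h) + ∑ b ∈ (Finset.univ : Finset Bool),
          ∑ j ∈ (Finset.univ : Finset (Fin 3)), ((ω + ω) + (ω + ω))) := by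
        gcongr with b _ b _ j _
        · exact hNnull.le
        · exact (hNGnull b).le
        · exact hv1 b j
        · exact hv2 b j
    _ = volume (Bad (VS p K) (T + L) h) + 24 * ω := by
        simp only [Finset.sum_const_zero, add_zero, zero_add, Finset.sum_const, Finset.card_univ,
          Fintype.card_bool, Fintype.card_fin, nsmul_eq_mul]
        push_cast
        ring
    _ = _ := by rw [hω]

end Pool.Agent.Q48.BL
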