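import Pool.Agent.Q48.BL.Bdd

set_option autoImplicit false

/-!
Billiards: invariant maps of slow directional oscillation outside small balls.
-/

namespace Pool.Agent.Q48.BL

open Complex Set MeasureTheory Filter Topology Pool.Agent.W780.PG Pool.Agent.W780.BB
  Pool.Agent.TH103.BL

open scoped Real ComplexConjugate ENNReal

variable {n : ℕ} {p : Fin (n + 3) → ℂ} {Y : Type*}

theorem lvl_inv {f : ℂ × ℝ → Y} (hI : IsInvariantMap p f) (φ : Y → ℝ) (c : ℝ) :
    IsInvariant p {x | c < φ (f x)} := by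
  refine ⟨fun z θ => ?_, fun z θ s h1 h2 => ?_, fun i y hy θ s r h1 h2 h3 h4 => ?_⟩
  · show c < φ (f (z, θ + 2 * π)) ↔ c < φ (f (z, θ))
    rw [hI.periodic]
  · show c < φ (f (z, θ)) ↔ c < φ (f (z + s • dir θ, θ))
    rw [hI.free z θ s h1 h2]
  · show c < φ (f (y - s • dir θ, θ)) ↔
      c < φ (f (y + r • dir (2 * tau p i - θ), 2 * tau p i - θ))
    rw [hI.reflect i y hy θ s r h1 h2 h3 h4]

theorem vol_level (a b : ℝ) : volume {c : ℝ | ¬ (c < a ↔ c < b)} = ENNReal.ofReal |b - a| := by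
  rcases le_total a b with h | h
  · have : {c : ℝ | ¬ (c < a ↔ c < b)} = Ico a b := by
      ext c
      simp only [mem_ofPred_eq, mem_Ico]
      constructor
      · intro h1
        by_contra h2
        apply h1
        rw [not_and_or, not_le, not_lt] at h2
        rcases h2 with h2 | h2
        · exact ⟨fun _ => h2.trans_le h, fun _ => h2⟩
        · exact ⟨fun h3 => absurd (h3.trans_le (h.trans h2)) (lt_irrefl _),
            fun h3 => absurd (h3.trans_le h2) (lt_irrefl _)⟩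
      · rintro ⟨h1, h2⟩ h3
        exact absurd (h3.2 h2) (not_lt.2 h1)
    rw [this, Real.volume_Ico, abs_of_nonneg (by linarith)]
  · have : {c : ℝ | ¬ (c < a ↔ c < b)} = Ico b a := by
      ext c
      simp only [mem_ofPred_eq, mem_Ico]
      constructor
      · intro h1
        by_contra h2
        apply h1
        rw [not_and_or, not_le, not_lt] at h2
        rcases h2 with h2 | h2
        · exact ⟨fun _ => h2, fun _ => h2.trans_le h⟩
        · exact ⟨fun h3 => absurd (h3.trans_le h2) (lt_irrefl _),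
            fun h3 => absurd (h3.trans_le (h.trans h2)) (lt_irrefl _)⟩
      · rintro ⟨h1, h2⟩ h3
        exact absurd (h3.1 h2) (not_lt.2 h1)
    rw [this, Real.volume_Ico, abs_of_nonpos (by linarith)]
    congr 1
    ring

theorem phase_meas (p : Fin (n + 3) → ℂ) : MeasurableSet (phase p) :=
  (isOpen_interior.measurableSet).prod measurableSet_Ico

theorem coarea {φ : ℂ × ℝ → ℝ} (hφ : Measurable φ) {U : Set ℂ} (hU : MeasurableSet U) (h : ℝ) :
    Measurable (fun c : ℝ => Chg p U {x | c < φ x} h) ∧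
      ∫⁻ c : ℝ, Chg p U {x | c < φ x} h =
        ∫⁻ x in {x : ℂ × ℝ | x ∈ phase p ∧ x.1 ∈ U}, ENNReal.ofReal |φ (x.1, x.2 + h) - φ x| := by
  set Q : Set (ℂ × ℝ) := {x | x ∈ phase p ∧ x.1 ∈ U} with hQ
  have hQm : MeasurableSet Q := (phase_meas p).inter (measurable_fst hU)
  have hsh : Measurable fun x : ℂ × ℝ => (x.1, x.2 + h) := by fun_prop
  set A1 : Set (ℝ × (ℂ × ℝ)) := {q | q.1 < φ q.2} with hA1
  set A2 : Set (ℝ × (ℂ × ℝ)) := {q | q.1 < φ (q.2.1, q.2.2 + h)} with hA2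
  have m1 : MeasurableSet A1 := measurableSet_lt measurable_fst (hφ.comp measurable_snd)
  have m2 : MeasurableSet A2 :=
    measurableSet_lt measurable_fst (hφ.comp (hsh.comp measurable_snd))
  set E : Set (ℝ × (ℂ × ℝ)) := {q | q.2 ∈ Q} ∩ ((A1 \ A2) ∪ (A2 \ A1)) with hE
  have hEm : MeasurableSet E := (measurable_snd hQm).inter ((m1.diff m2).union (m2.diff m1))
  have hEmem : ∀ (c : ℝ) (x : ℂ × ℝ), (c, x) ∈ E ↔ x ∈ Q ∧
      ¬ (c < φ x ↔ c < φ (x.1, x.2 + h)) := by
    intro c x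
    simp only [hE, hA1, hA2, mem_inter_iff, mem_union, Set.mem_sdiff, mem_ofPred_eq]
    tauto
  have h1 : ∀ c : ℝ, Chg p U {x | c < φ x} h = volume (Prod.mk c ⁻¹' E) := by
    intro c
    unfold Chg
    congr 1
    ext x
    rw [mem_preimage, hEmem, hQ]
    simp only [mem_ofPred_eq]
    tauto
  refine ⟨?_, ?_⟩
  · simp only [h1]
    exact measurable_measure_prodMk_left hEm
  · simp only [h1]
    rw [← Measure.prod_apply hEm, Measure.prod_apply_symm hEm, ← lintegral_indicator hQm]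
    refine lintegral_congr fun x => ?_
    by_cases hx : x ∈ Q
    · rw [indicator_of_mem hx, ← vol_level]
      congr 1
      ext c
      rw [mem_preimage, hEmem]
      simp only [mem_ofPred_eq]
      tauto
    · rw [indicator_of_notMem hx]
      have : (fun c : ℝ => (c, x)) ⁻¹' E = ∅ := by
        ext c
        rw [mem_preimage, hEmem]
        simp only [mem_empty_iff_false, iff_false]
        tauto
      rw [this, measure_empty]

theorem levels {φ : ℂ × ℝ → ℝ} (hφ : Measurable φ) {C : ℝ} {Φ : ℝ → ℝ}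
    (hΦ : ∀ᶠ h in 𝓝[>] (0 : ℝ), 0 < Φ h)
    (hF : ∃ᶠ h : ℝ in 𝓝[>] 0, ∃ (F : Set ℂ) (r : ℝ), Small p F r ∧
      ∫⁻ x in {x : ℂ × ℝ | x ∈ phase p ∧ x.1 ∈ Away F r},
        ENNReal.ofReal |φ (x.1, x.2 + h) - φ x| ≤ ENNReal.ofReal (C * Φ h)) :
    ∀ᵐ c : ℝ, SlowSet p Φ {x | c < φ x} := by
  obtain ⟨u, hu, hP⟩ := Filter.exists_seq_forall_of_frequently (hF.and_eventually hΦ)
  choose F r hs hosc using fun k => (hP k).1
  have hb0 : ∀ k, 0 < Φ (u k) := fun k => (hP k).2
  obtain ⟨a, ha⟩ : ∃ a : ℕ → ℝ≥0∞, a = fun k => ENNReal.ofReal (Φ (u k)) := ⟨_, rfl⟩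
  have ha0 : ∀ k, a k ≠ 0 := fun k => by rw [ha]; exact (ENNReal.ofReal_pos.2 (hb0 k)).ne'
  have haT : ∀ k, a k ≠ ⊤ := fun k => by rw [ha]; exact ENNReal.ofReal_ne_top
  obtain ⟨ψ, hψ⟩ : ∃ ψ : ℕ → ℝ → ℝ≥0∞, ψ = fun k c =>
    Chg p (Away (F k) (r k)) {x | c < φ x} (u k) / a k := ⟨_, rfl⟩
  have hψm : ∀ k, Measurable (ψ k) := fun k => by
    rw [hψ]
    exact (coarea hφ (away_meas _ _) _).1.div_const _
  have hψi : ∀ k, ∫⁻ c, ψ k c ≤ ENNReal.ofReal C := fun k => by
    rw [hψ]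
    simp only [div_eq_mul_inv]
    rw [lintegral_mul_const _ (coarea hφ (away_meas _ _) _).1, (coarea hφ (away_meas _ _) _).2,
      ← div_eq_mul_inv]
    refine ENNReal.div_le_of_le_mul ?_
    refine (hosc k).trans ?_
    rw [ha, ENNReal.ofReal_mul' (hb0 k).le]
  have hfat : ∫⁻ c, liminf (fun k => ψ k c) atTop ≤ ENNReal.ofReal C := by
    refine (lintegral_liminf_le hψm).trans ?_
    refine (liminf_le_liminf (Eventually.of_forall hψi)).trans ?_
    rw [liminf_const]
  have hae : ∀ᵐ c : ℝ, liminf (fun k => ψ k c) atTop < ⊤ :=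
    ae_lt_top (Measurable.liminf hψm) (ne_top_of_le_ne_top ENNReal.ofReal_ne_top hfat)
  filter_upwards [hae] with c hc
  obtain ⟨b, hb1, hb2⟩ := exists_between hc
  have hfr : ∃ᶠ k in atTop, ψ k c < b := frequently_lt_of_liminf_lt (by isBoundedDefault) hb1
  refine ⟨b.toReal, ?_⟩
  refine hu.frequently (hfr.mono fun k hk => ⟨F k, r k, hs k, ?_⟩)
  rw [hψ] at hk
  simp only at hk
  have h3 := (ENNReal.div_lt_iff (Or.inl (ha0 k)) (Or.inl (haT k))).1 hk
  refine h3.le.trans ?_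
  rw [ENNReal.ofReal_mul ENNReal.toReal_nonneg, ENNReal.ofReal_toReal hb2.ne, ha]

end Pool.Agent.Q48.BL
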