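import Pool.Agent.Q48.BL.Step
import Pool.Agent.Q48.BL.Defs

set_option autoImplicit false

/-!
Billiards: after being near a point of a finite set an orbit is away from this set for some time.
-/

namespace Pool.Agent.Q48.BL

open Complex Set MeasureTheory Filter Topology Pool.Agent.W780.PG Pool.Agent.W780.BB
  Pool.Agent.TH103.BL

open scoped Real ComplexConjugate

variable {n : ℕ} {p : Fin (n + 3) → ℂ}

theorem sf_seg {i : Fin (n + 3)} {f : ℂ} (hf : f ∈ segment ℝ (p i) (p (i + 1))) :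
    sf p i f = 0 := by
  rw [segment_eq_image'] at hf
  obtain ⟨s, -, rfl⟩ := hf
  unfold sf lft
  have : conj (p (i + 1) - p i) * (p i + s • (p (i + 1) - p i) - p i) =
      ((s * Complex.normSq (p (i + 1) - p i) : ℝ) : ℂ) := by
    rw [real_smul]
    push_cast
    rw [← Complex.mul_conj]
    ring
  simp only at this ⊢
  rw [this, ofReal_im]

theorem ps_succ (hp : IsConvexPolygon p) (z : ℂ) (θ : ℝ) (u : ℕ → Fin (n + 3)) (k : ℕ) (s : ℝ) :
    ps p z θ u (k + 1) s = rf p (u k) (ps p z θ u k s) := by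
  unfold ps
  rw [rf_ray hp]
  rfl

theorem fp_ps (hp : IsConvexPolygon p) (z : ℂ) (θ s : ℝ) (u : ℕ → Fin (n + 3)) (k : ℕ) :
    fp p ((List.range k).map u) (z + s • dir θ) = ps p z θ u k s := by
  have h1 := fd_word hp z θ s u k
  have h2 := (hR n p hp).2.2.2.2.2.2.2.2.1 ((List.range k).map u) (z + s • dir θ) θ
  rw [← h2, h1]
  rfl

theorem gap (hp : IsConvexPolygon p) {F : Set ℂ} {r : ℝ} (hs : Small p F r) {z : ℂ} {θ : ℝ}
    {u : ℕ → Fin (n + 3)} {t : ℕ → ℝ} (O : Orb p z θ u t) {Ka Kb : ℕ} {sa sb : ℝ}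
    (ha' : sa < t Ka) (hb : tp t Kb < sb) (hb' : sb < t Kb)
    (ha : tp t Ka < sa)
    (h1 : sa + 3 * r ≤ sb) (h2 : sb ≤ sa + 9 * r) {f : ℂ} (hf : f ∈ F)
    (hnear : ‖ps p z θ u Ka sa - f‖ < r) : ps p z θ u Kb sb ∈ Away F r := by
  have hr := hs.pos
  have hKab : Ka ≤ Kb := by
    by_contra hcon
    push Not at hcon
    have := lt_of_tp O ha hcon
    linarith
  have key : ∀ k, Ka ≤ k → k ≤ Kb → ‖ps p z θ u k sa - f‖ < r := by
    intro k hk
    induction k, hk using Nat.le_induction with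
    | base => exact fun _ => hnear
    | succ k hk ih =>
      intro hkb
      have h3 := ih (by omega)
      have h4 : t k < sb := lt_of_tp O hb (by omega)
      have h5 : sa < t k := ha'.trans_le (O.tmono.monotone hk)
      have hit : ps p z θ u k (t k) ∈ Pool.Agent.W780.PG.side p (u k) := O.hit k
      have hseg : ps p z θ u k (t k) ∈ segment ℝ (p (u k)) (p (u k + 1)) :=
        openSegment_subset_segment _ _ _ hit
      have h6 : ‖ps p z θ u k (t k) - f‖ < 20 * r := by
        calc ‖ps p z θ u k (t k) - f‖ = ‖(ps p z θ u k (t k) - ps p z θ u k sa) +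
              (ps p z θ u k sa - f)‖ := by congr 1; ring
          _ ≤ ‖ps p z θ u k (t k) - ps p z θ u k sa‖ + ‖ps p z θ u k sa - f‖ := norm_add_le _ _
          _ < 9 * r + r := by
            rw [ps_diff, abs_of_pos (by linarith)]
            linarith
          _ ≤ 20 * r := by linarith
      have h7 : f ∈ segment ℝ (p (u k)) (p (u k + 1)) := by
        by_contra hcon
        exact absurd (hs.side f hf (u k) hcon _ hseg) (not_le.2 h6)
      have h8 : rf p (u k) f = f := rf_fix hp _ _ (sf_seg h7)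
      rw [ps_succ hp]
      calc ‖rf p (u k) (ps p z θ u k sa) - f‖ =
            ‖rf p (u k) (ps p z θ u k sa) - rf p (u k) f‖ := by rw [h8]
        _ = ‖ps p z θ u k sa - f‖ := rf_norm hp _ _ _
        _ < r := h3
  have h3 := key Kb hKab le_rfl
  have h4 : ‖ps p z θ u Kb sb - ps p z θ u Kb sa‖ = sb - sa := by
    rw [ps_diff, abs_of_pos (by linarith)]
  intro g hg
  by_cases hfg : f = g
  · subst hfg
    have h5 : ‖ps p z θ u Kb sb - ps p z θ u Kb sa‖ ≤ ‖ps p z θ u Kb sb - f‖ +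
        ‖ps p z θ u Kb sa - f‖ := by
      have e : ps p z θ u Kb sb - ps p z θ u Kb sa = (ps p z θ u Kb sb - f) -
          (ps p z θ u Kb sa - f) := by ring
      rw [e]
      exact norm_sub_le _ _
    linarith
  · have h5 := hs.sep f hf g hg hfg
    have h6 : ‖f - g‖ ≤ ‖ps p z θ u Kb sb - g‖ + ‖ps p z θ u Kb sb - ps p z θ u Kb sa‖ +
        ‖ps p z θ u Kb sa - f‖ := by
      have e : f - g = (ps p z θ u Kb sb - g) - (ps p z θ u Kb sb - ps p z θ u Kb sa) -
          (ps p z θ u Kb sa - f) := by ring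
      rw [e]
      exact (norm_sub_le _ _).trans (by gcongr; exact norm_sub_le _ _)
    linarith

/-- strict frames at generic times -/
theorem frame (hp : IsConvexPolygon p) {z : ℂ} {θ : ℝ} {u : ℕ → Fin (n + 3)} {t : ℕ → ℝ}
    (O : Orb p z θ u t) {s : ℝ} (hs : 0 < s)
    (hg : ∀ w i, sf p i (fp p w (z + s • dir θ)) ≠ 0) : ∃ K, tp t K < s ∧ s < t K := by
  obtain ⟨K, h1, h2⟩ := exists_frame hp O hs.le
  refine ⟨K, lt_of_le_of_ne h1 ?_, h2⟩
  intro he
  cases K with
  | zero =>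
    have : tp t 0 = 0 := rfl
    linarith
  | succ K =>
    have he' : t K = s := he
    have h3 : ps p z θ u K (t K) ∈ Pool.Agent.W780.PG.side p (u K) := O.hit K
    apply hg ((List.range K).map u) (u K)
    rw [fp_ps hp, ← he']
    exact side_zero hp h3

theorem ctrl_away (hp : IsConvexPolygon p) {F : Set ℂ} {r : ℝ} (hs : Small p F r) :
    Ctrl p (Away F r) (fun j => 4 * r * ((j : ℕ) + 1)) := by
  intro z φ hz hok T hT hg
  have hr := hs.pos
  obtain ⟨u, t, O⟩ := exists_orb hp hok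
  have hpos : ∀ j : Fin 3, 0 < T + 4 * r * ((j : ℕ) + 1) := fun j => by positivity
  have hframe : ∀ j : Fin 3, ∃ K, tp t K < T + 4 * r * ((j : ℕ) + 1) ∧
      T + 4 * r * ((j : ℕ) + 1) < t K := fun j => frame hp O (hpos j) (hg j)
  have hin : ∀ (j : Fin 3) (K : ℕ), tp t K < T + 4 * r * ((j : ℕ) + 1) →
      T + 4 * r * ((j : ℕ) + 1) < t K → ps p z φ u K (T + 4 * r * ((j : ℕ) + 1)) ∈ Away F r →
      PosIn p (Away F r) z (z + (T + 4 * r * ((j : ℕ) + 1)) • dir φ) := by
    intro j K h1 h2 h3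
    refine ⟨(List.range K).map u, orb_ch hp O h1 h2, ?_⟩
    rw [fp_ps hp]
    exact h3
  have key : ∀ j k : Fin 3, j < k →
      PosIn p (Away F r) z (z + (T + 4 * r * ((j : ℕ) + 1)) • dir φ) ∨
      PosIn p (Away F r) z (z + (T + 4 * r * ((k : ℕ) + 1)) • dir φ) := by
    intro j k hjk
    obtain ⟨Ka, a1, a2⟩ := hframe j
    obtain ⟨Kb, b1, b2⟩ := hframe k
    by_cases hA : ps p z φ u Ka (T + 4 * r * ((j : ℕ) + 1)) ∈ Away F r
    · exact Or.inl (hin j Ka a1 a2 hA)
    · right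
      rw [Away, mem_ofPred_eq] at hA
      push Not at hA
      obtain ⟨f, hf, hnear⟩ := hA
      have c1 : (j : ℕ) + 1 ≤ (k : ℕ) := hjk
      have c2 : (k : ℕ) ≤ (j : ℕ) + 2 := by have := k.2; omega
      have c1' : ((j : ℕ) : ℝ) + 1 ≤ ((k : ℕ) : ℝ) := by exact_mod_cast c1
      have c2' : ((k : ℕ) : ℝ) ≤ ((j : ℕ) : ℝ) + 2 := by exact_mod_cast c2
      refine hin k Kb b1 b2 (gap hp hs O a2 b1 b2 a1 ?_ ?_ hf hnear)
      · nlinarith
      · nlinarith
  intro j k hjk
  rcases lt_or_gt_of_ne hjk with h | h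
  · exact key j k h
  · exact (key k j h).symm

end Pool.Agent.Q48.BL
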