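import Pool.Agent.Q48.BL.Gap

set_option autoImplicit false

/-!
Billiards: the rays from one point, ordered by their directions, in the unfolded plane.
-/

namespace Pool.Agent.Q48.BL

open Complex Set MeasureTheory Filter Topology Pool.Agent.W780.PG Pool.Agent.W780.BB
  Pool.Agent.TH103.BL

open scoped Real ComplexConjugate

variable {n : ℕ} {p : Fin (n + 3) → ℂ}

/-- the signed distance from the ray from `X` in the direction `φ`, positive to the left -/
noncomputable def kp (X : ℂ) (φ : ℝ) (z : ℂ) : ℝ := ((z - X) * conj (dir φ)).im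

/-- the coordinate along the ray -/
noncomputable def rp (X : ℂ) (φ : ℝ) (z : ℂ) : ℝ := ((z - X) * conj (dir φ)).re

theorem conj_dir (b : ℝ) : conj (dir b) = dir (-b) := by
  apply Complex.ext
  · rw [conj_re, dir_re, dir_re, Real.cos_neg]
  · rw [conj_im, dir_im, dir_im, Real.sin_neg]

theorem kp_ray (X : ℂ) (φ ψ s : ℝ) : kp X φ (X + s • dir ψ) = s * Real.sin (ψ - φ) := by
  unfold kp
  rw [add_sub_cancel_left, conj_dir, real_smul, mul_assoc, ← dir_add, im_ofReal_mul, dir_im,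
    ← sub_eq_add_neg]

theorem kp_self (X : ℂ) (φ s : ℝ) : kp X φ (X + s • dir φ) = 0 := by
  rw [kp_ray, sub_self, Real.sin_zero, mul_zero]

theorem kp_line (X : ℂ) (φ : ℝ) (z w : ℂ) (c : ℝ) :
    kp X φ (z + c • (w - z)) = kp X φ z + c * (kp X φ w - kp X φ z) := by
  unfold kp
  have : (z + c • (w - z) - X) * conj (dir φ) = (z - X) * conj (dir φ) +
      (c : ℂ) * ((w - X) * conj (dir φ) - (z - X) * conj (dir φ)) := by
    rw [real_smul]; ring
  rw [this, add_im, im_ofReal_mul, sub_im]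

theorem dir_mul_conj (φ : ℝ) : dir φ * conj (dir φ) = 1 := by
  rw [conj_dir, ← dir_add, add_neg_cancel, dir_zero]

theorem pt_eq (X : ℂ) (φ : ℝ) (z : ℂ) :
    z - X = ((rp X φ z : ℂ) + (kp X φ z : ℂ) * I) * dir φ := by
  unfold rp kp
  rw [re_add_im, mul_assoc, mul_comm (conj (dir φ)), dir_mul_conj, mul_one]

theorem of_kp_zero {X : ℂ} {φ : ℝ} {z : ℂ} (h : kp X φ z = 0) : z = X + rp X φ z • dir φ := by
  have := pt_eq X φ z
  rw [h, ofReal_zero, zero_mul, add_zero] at this
  rw [real_smul]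
  linear_combination this

theorem abs_kp_le (X : ℂ) (φ : ℝ) (z : ℂ) : |kp X φ z| ≤ ‖z - X‖ := by
  unfold kp
  refine (abs_im_le_norm _).trans ?_
  rw [norm_mul, RCLike.norm_conj, norm_dir, mul_one]

theorem kp_diff (X : ℂ) (φ ψ : ℝ) (z : ℂ) : |kp X φ z - kp X ψ z| ≤ ‖z - X‖ * |φ - ψ| := by
  unfold kp
  rw [← sub_im, ← mul_sub, ← map_sub]
  refine (abs_im_le_norm _).trans ?_
  rw [norm_mul, RCLike.norm_conj]
  have := norm_dir_sub ψ (φ - ψ)
  rw [add_sub_cancel] at this
  gcongr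

/-- a point of the chord between two rays in an intermediate direction -/
theorem comb (X : ℂ) {φ₁ φ φ₂ t₁ t₂ : ℝ} (h1 : φ₁ < φ) (h2 : φ < φ₂) (h3 : φ₂ < φ₁ + π)
    (ht1 : 0 < t₁) (ht2 : 0 < t₂) : ∃ s c : ℝ, 0 < s ∧ 0 < c ∧ c < 1 ∧
      X + s • dir φ = (X + t₁ • dir φ₁) + c • ((X + t₂ • dir φ₂) - (X + t₁ • dir φ₁)) := by
  have s1 : 0 < Real.sin (φ₂ - φ) := Real.sin_pos_of_pos_of_lt_pi (by linarith) (by linarith)
  have s2 : 0 < Real.sin (φ - φ₁) := Real.sin_pos_of_pos_of_lt_pi (by linarith) (by linarith)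
  have s3 : 0 < Real.sin (φ₂ - φ₁) := Real.sin_pos_of_pos_of_lt_pi (by linarith) (by linarith)
  obtain ⟨a, ha⟩ : ∃ a, a = Real.sin (φ₂ - φ) / t₁ := ⟨_, rfl⟩
  obtain ⟨b, hb⟩ : ∃ b, b = Real.sin (φ - φ₁) / t₂ := ⟨_, rfl⟩
  have ha0 : 0 < a := by rw [ha]; positivity
  have hb0 : 0 < b := by rw [hb]; positivity
  have hat : a * t₁ = Real.sin (φ₂ - φ) := by rw [ha]; field_simp
  have hbt : b * t₂ = Real.sin (φ - φ₁) := by rw [hb]; field_simp
  refine ⟨Real.sin (φ₂ - φ₁) / (a + b), b / (a + b), by positivity, by positivity, ?_, ?_⟩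
  · rw [div_lt_one (by positivity)]; linarith
  have key : (Real.sin (φ₂ - φ₁) : ℂ) * dir φ =
      (Real.sin (φ₂ - φ) : ℂ) * dir φ₁ + (Real.sin (φ - φ₁) : ℂ) * dir φ₂ := by
    apply Complex.ext
    · rw [re_ofReal_mul, add_re, re_ofReal_mul, re_ofReal_mul, dir_re, dir_re, dir_re,
        Real.sin_sub, Real.sin_sub, Real.sin_sub]
      ring
    · rw [im_ofReal_mul, add_im, im_ofReal_mul, im_ofReal_mul, dir_im, dir_im, dir_im,
        Real.sin_sub, Real.sin_sub, Real.sin_sub]
      ring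
  have hab : ((a + b : ℝ) : ℂ) ≠ 0 := by exact_mod_cast (show a + b ≠ 0 by positivity)
  have hat' : (a : ℂ) * t₁ = (Real.sin (φ₂ - φ) : ℂ) := by rw [← hat]; push_cast; ring
  have hbt' : (b : ℂ) * t₂ = (Real.sin (φ - φ₁) : ℂ) := by rw [← hbt]; push_cast; ring
  rw [← hat', ← hbt'] at key
  simp only [real_smul, ofReal_div]
  rw [show ((Real.sin (φ₂ - φ₁) : ℝ) : ℂ) / ((a + b : ℝ) : ℂ) * dir φ =
    ((Real.sin (φ₂ - φ₁) : ℂ) * dir φ) / ((a + b : ℝ) : ℂ) by ring, key]
  field_simp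
  push_cast
  ring

variable {z : ℂ} {θ : ℝ} {u : ℕ → Fin (n + 3)} {t : ℕ → ℝ}

/-- uniqueness of the exit -/
theorem exit_uniq (hp : IsConvexPolygon p) (O : Orb p z θ u t) {i : ℕ} {s : ℝ} {j : Fin (n + 3)}
    (hs : tp t i < s) (hj : ps p z θ u i s ∈ Pool.Agent.W780.PG.side p j) : t i = s ∧ u i = j := by
  have hlt := tp_lt O i
  have hts : t i = s := by
    rcases lt_trichotomy (t i) s with h | h | h
    · exfalso
      have h1 : 0 < sf p (u i) (ps p z θ u i ((tp t i + t i) / 2)) :=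
        ps_in O i (by linarith) (by linarith) (u i)
      have h2 : sf p (u i) (ps p z θ u i (t i)) = 0 := side_zero hp (O.hit i)
      have h3 : 0 ≤ sf p (u i) (ps p z θ u i s) := side_sub_creg hp _ hj (u i)
      unfold ps at h1 h2 h3
      rw [sf_ray] at h1 h2 h3
      have h4 := sl_neg hp O i
      have : (s - t i) * sl p (u i) (angs p θ u i) < 0 := mul_neg_of_pos_of_neg (by linarith) h4
      linarith
    · exact h
    · exfalso
      have h1 := ps_in O i hs h j
      have h2 := side_zero hp hj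
      change 0 < sf p j _ at h1
      linarith
  refine ⟨hts, ?_⟩
  by_contra hne
  have h1 := side_pos hp hj (k := u i) hne
  have h2 : sf p (u i) (ps p z θ u i (t i)) = 0 := side_zero hp (O.hit i)
  rw [hts] at h2
  linarith

theorem late (hp : IsConvexPolygon p) (O : Orb p z θ u t) {i : ℕ} {s : ℝ} {j : Fin (n + 3)}
    (hs : 0 < s) (hj : ps p z θ u i s ∈ Pool.Agent.W780.PG.side p j)
    (hne : ∀ m, i = m + 1 → j ≠ u m) : tp t i < s := by
  cases i with
  | zero => exact hs
  | succ m =>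
    show t m < s
    have h1 := side_pos hp hj (k := u m) (hne m rfl).symm
    have h2 : sf p (u m) (ps p z θ u (m + 1) (t m)) = 0 := by
      have : ps p z θ u (m + 1) (t m) = pt p z θ u t m := pt_next hp O m
      rw [this]
      exact side_zero hp (O.hit m)
    have h3 := (pt_zero_next hp O m).2
    unfold ps at h1 h2
    rw [sf_ray] at h1 h2
    by_contra hcon
    push Not at hcon
    have := mul_nonneg (show 0 ≤ t m - s by linarith) h3.le
    linarith

theorem hit_unf (hp : IsConvexPolygon p) (O : Orb p z θ u t) (i : ℕ) :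
    fp p ((List.range i).map u) (z + t i • dir θ) ∈ Pool.Agent.W780.PG.side p (u i) := by
  rw [fp_ps hp]; exact O.hit i

theorem word_congr {u' : ℕ → Fin (n + 3)} {k : ℕ} (h : ∀ i < k, u i = u' i) :
    (List.range k).map u = (List.range k).map u' := by
  apply List.map_congr_left
  intro i hi
  exact h i (List.mem_range.1 hi)

theorem word_inj {u' : ℕ → Fin (n + 3)} {k : ℕ}
    (h : (List.range k).map u = (List.range k).map u') : ∀ i < k, u i = u' i := by
  intro i hi
  have := List.map_inj_left.1 h i (List.mem_range.2 hi)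
  exact this

theorem fp_line (hp : IsConvexPolygon p) (w : List (Fin (n + 3))) (a b : ℂ) (c : ℝ) :
    fp p w (a + c • (b - a)) = fp p w a + c • (fp p w b - fp p w a) :=
  (hR n p hp).2.2.2.2.2.2.2.2.2.1 w a b c

theorem side_conv (i : Fin (n + 3)) : Convex ℝ (Pool.Agent.W780.PG.side p i) :=
  convex_openSegment _ _

theorem mem_conv {S : Set ℂ} (hS : Convex ℝ S) {a b : ℂ} (ha : a ∈ S) (hb : b ∈ S) {c : ℝ}
    (h0 : 0 ≤ c) (h1 : c ≤ 1) : a + c • (b - a) ∈ S := by
  apply hS.segment_subset ha hb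
  rw [segment_eq_image']
  exact ⟨c, ⟨h0, h1⟩, rfl⟩

/-- Intermediate rays have the same itinerary. -/
theorem between (hp : IsConvexPolygon p) {X : ℂ} {φ₁ φ φ₂ : ℝ} {u₁ u₂ : ℕ → Fin (n + 3)}
    {t₁ t₂ : ℕ → ℝ} (O₁ : Orb p X φ₁ u₁ t₁) (O : Orb p X φ u t) (O₂ : Orb p X φ₂ u₂ t₂)
    (h1 : φ₁ < φ) (h2 : φ < φ₂) (h3 : φ₂ < φ₁ + π) {k : ℕ} (hag : ∀ i < k, u₁ i = u₂ i) :
    ∀ i < k, u i = u₁ i := by
  intro i
  induction i using Nat.strong_induction_on with
  | _ i ih =>
    intro hi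
    have ih' : ∀ r < i, u r = u₁ r := fun r hr => ih r hr (by omega)
    obtain ⟨s, c, hs, hc0, hc1, he⟩ := comb X h1 h2 h3 (O₁.tpos i) (O₂.tpos i)
    have w1 : (List.range i).map u = (List.range i).map u₁ := word_congr ih'
    have w2 : (List.range i).map u₂ = (List.range i).map u₁ :=
      word_congr fun r hr => (hag r (by omega)).symm
    have m1 := hit_unf hp O₁ i
    have m2 := hit_unf hp O₂ i
    rw [w2, ← hag i hi] at m2
    have m3 : ps p X φ u i s ∈ Pool.Agent.W780.PG.side p (u₁ i) := by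
      rw [← fp_ps hp, w1, he, fp_line hp]
      exact mem_conv (side_conv _) m1 m2 hc0.le hc1.le
    have hlate := late hp O hs m3 (fun m hm => by
      subst hm
      rw [ih m (Nat.lt_succ_self m) (by omega)]
      exact u_ne hp O₁ m)
    exact (exit_uniq hp O hlate m3).2

/-- end points of the unfolded gates -/
noncomputable def ge (p : Fin (n + 3) → ℂ) (u : ℕ → Fin (n + 3)) (i : ℕ) (b : Bool) : ℂ :=
  uf p ((List.range i).map u) (p (if b then u i + 1 else u i))

/-- the unfolded side function of the gate -/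
noncomputable def Lf (p : Fin (n + 3) → ℂ) (u : ℕ → Fin (n + 3)) (i : ℕ) (z : ℂ) : ℝ :=
  sf p (u i) (fp p ((List.range i).map u) z)

theorem fp_uf (hp : IsConvexPolygon p) (w : List (Fin (n + 3))) (z : ℂ) :
    fp p w (uf p w z) = z := ((hR n p hp).2.2.2.2.2.2.1 w z).1

theorem uf_fp (hp : IsConvexPolygon p) (w : List (Fin (n + 3))) (z : ℂ) :
    uf p w (fp p w z) = z := ((hR n p hp).2.2.2.2.2.2.1 w z).2

theorem fp_norm (hp : IsConvexPolygon p) (w : List (Fin (n + 3))) (a b : ℂ) :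
    ‖fp p w a - fp p w b‖ = ‖a - b‖ := (hR n p hp).2.2.2.2.2.2.2.1 w a b

theorem fp_inj (hp : IsConvexPolygon p) (w : List (Fin (n + 3))) {a b : ℂ}
    (h : fp p w a = fp p w b) : a = b := by
  rw [← uf_fp hp w a, h, uf_fp hp]

theorem Lf_line (hp : IsConvexPolygon p) (u : ℕ → Fin (n + 3)) (i : ℕ) (a b : ℂ) (c : ℝ) :
    Lf p u i (a + c • (b - a)) = Lf p u i a + c * (Lf p u i b - Lf p u i a) := by
  unfold Lf
  rw [fp_line hp, Pool.Agent.W12.BB.Fan.sf_line]
  ring

theorem Lf_ge (hp : IsConvexPolygon p) (u : ℕ → Fin (n + 3)) (i : ℕ) (b : Bool) :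
    Lf p u i (ge p u i b) = 0 := by
  unfold Lf ge
  rw [fp_uf hp]
  cases b with
  | true => exact sf_seg (right_mem_segment _ _ _)
  | false => exact sf_seg (left_mem_segment _ _ _)

/-- The position at the reflection lies on the open unfolded gate. -/
theorem hit_ge (hp : IsConvexPolygon p) (O : Orb p z θ u t) (i : ℕ) :
    ∃ c : ℝ, 0 < c ∧ c < 1 ∧ z + t i • dir θ =
      ge p u i false + c • (ge p u i true - ge p u i false) := by
  have h1 := hit_unf hp O i
  obtain ⟨a, b, ha, hb, hab, he⟩ := h1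
  refine ⟨b, hb, by linarith, ?_⟩
  apply fp_inj hp ((List.range i).map u)
  rw [fp_line hp, ← he]
  unfold ge
  rw [fp_uf hp, fp_uf hp]
  have : a = 1 - b := by linarith
  rw [this]
  simp only [if_true, Bool.false_eq_true, if_false, sub_smul, one_smul, smul_sub]
  ring

theorem Lf_ray (hp : IsConvexPolygon p) (z : ℂ) (θ : ℝ) (u : ℕ → Fin (n + 3)) (i : ℕ) (s : ℝ) :
    Lf p u i (z + s • dir θ) = sf p (u i) (srcs p z u i) + s * sl p (u i) (angs p θ u i) := by
  unfold Lf
  rw [fp_ps hp, ← sf_ray]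
  rfl

theorem Lf_src_pos (hp : IsConvexPolygon p) (O : Orb p z θ u t) (i : ℕ) : 0 < Lf p u i z := by
  have h0 : Lf p u i (z + (0 : ℝ) • dir θ) = Lf p u i z := by rw [zero_smul, add_zero]
  have h1 : Lf p u i (z + t i • dir θ) = 0 := by
    unfold Lf; rw [fp_ps hp]; exact side_zero hp (O.hit i)
  rw [← h0, Lf_ray hp]
  rw [Lf_ray hp] at h1
  have h2 := sl_neg hp O i
  have h3 := O.tpos i
  have := mul_neg_of_pos_of_neg h3 h2
  linarith

/-- The unfolded copy after the gate lies beyond the gate. -/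
theorem Lf_next (hp : IsConvexPolygon p) (u : ℕ → Fin (n + 3)) (i : ℕ) {x : ℂ}
    (hx : fp p ((List.range (i + 1)).map u) x ∈ creg p) : Lf p u i x ≤ 0 := by
  have h1 : fp p ((List.range (i + 1)).map u) x = rf p (u i) (fp p ((List.range i).map u) x) := by
    have h2 := (hR n p hp).2.2.2.2.2.2.2.2.1 ((List.range (i + 1)).map u) x 0
    have h3 := (hR n p hp).2.2.2.2.2.2.2.2.1 ((List.range i).map u) x 0
    rw [← h2, ← h3, List.range_succ, List.map_append, List.map_singleton, fd_append]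
    rfl
  rw [h1] at hx
  have h2 : 0 ≤ sf p (u i) (rf p (u i) (fp p ((List.range i).map u) x)) := hx (u i)
  rw [sf_rf hp] at h2
  unfold Lf
  linarith

theorem ge_creg (hp : IsConvexPolygon p) (u : ℕ → Fin (n + 3)) (i : ℕ) (b : Bool) :
    fp p ((List.range i).map u) (ge p u i b) ∈ creg p := by
  unfold ge
  rw [fp_uf hp]
  exact vert_mem hp _

theorem hit_creg (hp : IsConvexPolygon p) (O : Orb p z θ u t) (i : ℕ) :
    fp p ((List.range i).map u) (z + t i • dir θ) ∈ creg p :=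
  side_sub_creg hp _ (hit_unf hp O i)

/-- bound for the reflection times -/
theorem time_le (hp : IsConvexPolygon p) (hz : z ∈ creg p) {D : ℝ}
    (hD : ∀ z ∈ creg p, ∀ w ∈ creg p, ‖z - w‖ ≤ D) (O : Orb p z θ u t) (k : ℕ) :
    t k ≤ D * (k + 1) := by
  have hpc : ∀ k, t k - tp t k ≤ D := by
    intro k
    have hs : ps p z θ u k (tp t k) ∈ creg p := by
      cases k with
      | zero =>
        show z + (0 : ℝ) • dir θ ∈ creg p
        rw [zero_smul, add_zero]
        exact hz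
      | succ k =>
        show srcs p z u (k + 1) + t k • dir (angs p θ u (k + 1)) ∈ creg p
        rw [pt_next hp O k]
        exact side_sub_creg hp _ (O.hit k)
    have h1 := hD _ (side_sub_creg hp _ (O.hit k)) _ hs
    have h2 := ps_diff (p := p) (z := z) (θ := θ) (u := u) k (t k) (tp t k)
    have h3 := tp_lt O k
    rw [abs_of_pos (by linarith)] at h2
    unfold ps at h2 h1
    rw [h2] at h1
    exact h1
  induction k with
  | zero =>
    have := hpc 0
    have h0 : tp t 0 = 0 := rfl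
    simp only [Nat.cast_zero, zero_add, mul_one]
    linarith
  | succ k ih =>
    have := hpc (k + 1)
    have h0 : tp t (k + 1) = t k := rfl
    push_cast
    linarith

end Pool.Agent.Q48.BL
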