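import Pool.Agent.Q48.BL.Count

set_option autoImplicit false

/-!
Billiards: the number of itineraries of the rays from one point grows subexponentially.
-/

namespace Pool.Agent.Q48.BL

open Complex Set MeasureTheory Filter Topology Pool.Agent.W780.PG Pool.Agent.W780.BB
  Pool.Agent.TH103.BL

open scoped Real ComplexConjugate

variable {n : ℕ} {p : Fin (n + 3) → ℂ}

theorem fat_card (hp : IsConvexPolygon p) {X : ℂ} {τ : ℝ} {G : Set ℝ}
    {U : ℝ → ℕ → Fin (n + 3)} {T : ℝ → ℕ → ℝ} (F : Fam p X τ G U T) (k : ℕ) {ϑ : ℝ}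
    (hϑ : 0 < ϑ) (W : Finset (List (Fin (n + 3))))
    (hW : ∀ w ∈ W, ∃ φ ∈ G, ∃ ψ ∈ G, Wd U k φ = w ∧ Wd U k ψ = w ∧ ϑ < ψ - φ) :
    (W.card : ℝ) * ϑ ≤ π := by
  classical
  have hch : ∀ w, ∃ q : ℝ × ℝ, w ∈ W → q.1 ∈ G ∧ q.2 ∈ G ∧ Wd U k q.1 = w ∧ Wd U k q.2 = w ∧
      ϑ < q.2 - q.1 := by
    intro w
    by_cases hw : w ∈ W
    · obtain ⟨φ, hφ, ψ, hψ, h⟩ := hW w hw
      exact ⟨(φ, ψ), fun _ => ⟨hφ, hψ, h⟩⟩
    · exact ⟨(0, 0), fun h => absurd h hw⟩
  choose q hq using hch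
  have hdisj : (W : Set (List (Fin (n + 3)))).PairwiseDisjoint
      (fun w => Icc (q w).1 (q w).2) := by
    have main : ∀ w ∈ W, ∀ w' ∈ W, ∀ x, x ∈ Icc (q w).1 (q w).2 → x ∈ Icc (q w').1 (q w').2 →
        (q w).1 ≤ (q w').1 → w = w' := by
      intro w hw w' hw' x hx hx' hle
      obtain ⟨a1, a2, a3, a4, a5⟩ := hq w hw
      obtain ⟨b1, b2, b3, b4, b5⟩ := hq w' hw'
      rcases hle.lt_or_eq with h | h
      · have h2 : (q w').1 ≤ (q w).2 := hx'.1.trans hx.2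
        rcases h2.lt_or_eq with h3 | h3
        · have := F.between hp a1 b1 a2 h h3 (a3.trans a4.symm)
          rw [b3, a3] at this
          exact this.symm
        · rw [h3, a4] at b3
          exact b3
      · rw [← h, a3] at b3
        exact b3
    intro w hw w' hw' hne
    rw [Function.onFun, Set.disjoint_left]
    intro x hx hx'
    apply hne
    rcases le_total (q w).1 (q w').1 with h | h
    · exact main w hw w' hw' x hx hx' h
    · exact (main w' hw' w hw x hx' hx h).symm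
  have hvol : volume (⋃ w ∈ W, Icc (q w).1 (q w).2) = ∑ w ∈ W, volume (Icc (q w).1 (q w).2) :=
    measure_biUnion_finset hdisj fun w _ => measurableSet_Icc
  have hle : volume (⋃ w ∈ W, Icc (q w).1 (q w).2) ≤ volume (Ioo τ (τ + π)) := by
    refine measure_mono ?_
    refine Set.iUnion₂_subset fun w hw => ?_
    obtain ⟨a1, a2, -⟩ := hq w hw
    intro x hx
    exact ⟨(F.lt _ a1).1.trans_le hx.1, hx.2.trans_lt (F.lt _ a2).2⟩
  rw [hvol, Real.volume_Ioo, add_sub_cancel_left] at hle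
  have h2 : ∑ w ∈ W, ENNReal.ofReal ϑ ≤ ∑ w ∈ W, volume (Icc (q w).1 (q w).2) := by
    refine Finset.sum_le_sum fun w hw => ?_
    rw [Real.volume_Icc]
    exact ENNReal.ofReal_le_ofReal (hq w hw).2.2.2.2.le
  have h3 := h2.trans hle
  rw [Finset.sum_const, nsmul_eq_mul, ← ENNReal.ofReal_natCast, ← ENNReal.ofReal_mul
    (Nat.cast_nonneg _), ENNReal.ofReal_le_ofReal_iff Real.pi_pos.le] at h3
  exact h3

theorem total_thin (hp : IsConvexPolygon p) {X : ℂ} (hX : X ∈ creg p) {D : ℝ} (hD0 : 0 < D)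
    (hD : ∀ z ∈ creg p, ∀ w ∈ creg p, ‖z - w‖ ≤ D) {m : ℕ} {M δ : ℝ}
    (hM : ∀ x ∈ VK p m, ∀ y ∈ VK p m, ‖x - y‖ ≤ M)
    (hδ : ∀ x ∈ VK p m, ∀ y ∈ VK p m, ∀ z ∈ VK p m, |det3 x y z| < δ → det3 x y z = 0)
    {τ : ℝ} {G : Set ℝ} {U : ℝ → ℕ → Fin (n + 3)} {T : ℝ → ℕ → ℝ} (F : Fam p X τ G U T)
    {ϑ : ℝ} (hϑπ : ϑ < π) {k : ℕ}
    (hsmall : 4 * M * (2 * (D * (k + m + 2) * ϑ)) < δ)
    {w : List (Fin (n + 3))} {J : Set ℝ} (hJG : J ⊆ G) (hJw : ∀ φ ∈ J, Wd U k φ = w)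
    (hthin : ∀ φ ∈ J, ∀ ψ ∈ J, ψ - φ ≤ ϑ) :
    (Wd U (k + m) '' J).ncard ≤ 1 + 2 * (n + 3) * m := by
  have key : ∀ j, j ≤ m → (Wd U (k + j) '' J).ncard ≤ 1 + 2 * (n + 3) * j := by
    intro j
    induction j with
    | zero =>
      intro _
      have := pow_any U k 0 J hJw
      simpa using this
    | succ j ih =>
      intro hj
      have h1 := step_thin hp hX hD0 hD hM hδ F hϑπ (k := k) (l := k + j) (by omega) hsmall hJG
        hJw hthin
      have h2 := ih (by omega)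
      rw [← add_assoc]
      have h3 : 2 * (n + 3) * (j + 1) = 2 * (n + 3) * j + 2 * (n + 3) := by ring
      omega
  exact key m le_rfl

theorem recur (hp : IsConvexPolygon p) {X : ℂ} (hX : X ∈ creg p) {D : ℝ} (hD0 : 0 < D)
    (hD : ∀ z ∈ creg p, ∀ w ∈ creg p, ‖z - w‖ ≤ D) {m : ℕ} {M δ : ℝ}
    (hM : ∀ x ∈ VK p m, ∀ y ∈ VK p m, ‖x - y‖ ≤ M)
    (hδ : ∀ x ∈ VK p m, ∀ y ∈ VK p m, ∀ z ∈ VK p m, |det3 x y z| < δ → det3 x y z = 0)
    {τ : ℝ} {G : Set ℝ} {U : ℝ → ℕ → Fin (n + 3)} {T : ℝ → ℕ → ℝ} (F : Fam p X τ G U T)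
    {ϑ : ℝ} (hϑ : 0 < ϑ) (hϑπ : ϑ < π) {k : ℕ}
    (hsmall : 4 * M * (2 * (D * (k + m + 2) * ϑ)) < δ) :
    ((Wd U (k + m) '' G).ncard : ℝ) ≤ (1 + 2 * (n + 3) * m) * (Wd U k '' G).ncard +
      ((n : ℝ) + 3) ^ m * (π / ϑ) := by
  classical
  set Fk := (Wd_fin U k G).toFinset with hFk
  set J : List (Fin (n + 3)) → Set ℝ := fun w => {φ | φ ∈ G ∧ Wd U k φ = w} with hJ
  have hcard : (Wd U (k + m) '' G).ncard ≤ ∑ w ∈ Fk, (Wd U (k + m) '' (J w)).ncard := by
    have hsub : (Wd_fin U (k + m) G).toFinset ⊆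
        Fk.biUnion fun w => (Wd_fin U (k + m) (J w)).toFinset := by
      intro v hv
      rw [Set.Finite.mem_toFinset] at hv
      obtain ⟨φ, hφ, rfl⟩ := hv
      rw [Finset.mem_biUnion]
      refine ⟨Wd U k φ, ?_, ?_⟩
      · rw [hFk, Set.Finite.mem_toFinset]; exact ⟨φ, hφ, rfl⟩
      · rw [Set.Finite.mem_toFinset]; exact ⟨φ, ⟨hφ, rfl⟩, rfl⟩
    rw [Set.ncard_eq_toFinset_card _ (Wd_fin U (k + m) G)]
    refine (Finset.card_le_card hsub).trans (Finset.card_biUnion_le.trans ?_)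
    refine Finset.sum_le_sum fun w _ => ?_
    rw [Set.ncard_eq_toFinset_card _ (Wd_fin U (k + m) (J w))]
  set Ft := Fk.filter fun w => ∃ φ ∈ G, ∃ ψ ∈ G, Wd U k φ = w ∧ Wd U k ψ = w ∧ ϑ < ψ - φ
    with hFt
  have hfat := fat_card hp F k hϑ Ft (fun w hw => (Finset.mem_filter.1 hw).2)
  have hbound : ∀ w ∈ Fk, ((Wd U (k + m) '' (J w)).ncard : ℝ) ≤
      (1 + 2 * (n + 3) * m) + if w ∈ Ft then ((n : ℝ) + 3) ^ m else 0 := by
    intro w hw
    by_cases hwt : w ∈ Ft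
    · rw [if_pos hwt]
      have h1 := pow_any U k m (J w) (w := w) (fun φ hφ => hφ.2)
      have h2 : ((Wd U (k + m) '' (J w)).ncard : ℝ) ≤ ((n : ℝ) + 3) ^ m := by exact_mod_cast h1
      have h3 : (0 : ℝ) ≤ 1 + 2 * (n + 3) * m := by positivity
      linarith
    · rw [if_neg hwt, add_zero]
      have hthin : ∀ φ ∈ J w, ∀ ψ ∈ J w, ψ - φ ≤ ϑ := by
        intro φ hφ ψ hψ
        by_contra hcon
        push Not at hcon
        exact hwt (Finset.mem_filter.2 ⟨hw, φ, hφ.1, ψ, hψ.1, hφ.2, hψ.2, hcon⟩)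
      have h1 := total_thin hp hX hD0 hD hM hδ F hϑπ hsmall (w := w) (J := J w)
        (fun φ hφ => hφ.1) (fun φ hφ => hφ.2) hthin
      exact_mod_cast h1
  have hFkc : (Fk.card : ℝ) = ((Wd U k '' G).ncard : ℝ) := by
    rw [Set.ncard_eq_toFinset_card _ (Wd_fin U k G)]
  calc ((Wd U (k + m) '' G).ncard : ℝ) ≤ ∑ w ∈ Fk, ((Wd U (k + m) '' (J w)).ncard : ℝ) := by
        exact_mod_cast hcard
    _ ≤ ∑ w ∈ Fk, ((1 + 2 * (n + 3) * m) + if w ∈ Ft then ((n : ℝ) + 3) ^ m else 0) :=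
        Finset.sum_le_sum hbound
    _ = (1 + 2 * (n + 3) * m) * (Wd U k '' G).ncard + ((n : ℝ) + 3) ^ m * Ft.card := by
        rw [Finset.sum_add_distrib, Finset.sum_const, nsmul_eq_mul, ← hFkc,
          ← Finset.sum_filter]
        have : Fk.filter (fun w => w ∈ Ft) = Ft := by
          ext w
          rw [Finset.mem_filter]
          exact ⟨fun h => h.2, fun h => ⟨(Finset.mem_filter.1 h).1, h⟩⟩
        rw [this, Finset.sum_const, nsmul_eq_mul]
        ring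
    _ ≤ (1 + 2 * (n + 3) * m) * (Wd U k '' G).ncard + ((n : ℝ) + 3) ^ m * (π / ϑ) := by
        gcongr
        rw [le_div_iff₀ hϑ]
        exact hfat

theorem finite_gap {S : Set ℝ} (hS : S.Finite) : ∃ δ : ℝ, 0 < δ ∧ ∀ s ∈ S, |s| < δ → s = 0 := by
  refine Set.Finite.induction_on (motive := fun S _ => ∃ δ : ℝ, 0 < δ ∧ ∀ s ∈ S, |s| < δ → s = 0)
    S hS ⟨1, one_pos, fun s hs => absurd hs (Set.notMem_empty s)⟩ ?_
  intro a S _ _ ih
  obtain ⟨δ, hδ, h⟩ := ih
  by_cases ha : a = 0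
  · refine ⟨δ, hδ, fun s hs hlt => ?_⟩
    rcases hs with rfl | hs
    · exact ha
    · exact h s hs hlt
  · refine ⟨min δ |a|, lt_min hδ (abs_pos.2 ha), fun s hs hlt => ?_⟩
    rcases hs with rfl | hs
    · exact absurd (hlt.trans_le (min_le_right _ _)) (lt_irrefl _)
    · exact h s hs (hlt.trans_le (min_le_left _ _))

theorem exists_consts (hp : IsConvexPolygon p) (m : ℕ) : ∃ M δ : ℝ, 0 < M ∧ 0 < δ ∧
    (∀ x ∈ VK p m, ∀ y ∈ VK p m, ‖x - y‖ ≤ M) ∧
    (∀ x ∈ VK p m, ∀ y ∈ VK p m, ∀ z ∈ VK p m, |det3 x y z| < δ → det3 x y z = 0) := by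
  have hfin : (VK p m).Finite := (hR n p hp).2.2.2.2.2.2.2.2.2.2.2 m
  obtain ⟨C, hC⟩ := hfin.isBounded.exists_norm_le
  have hS : ((fun q : ℂ × ℂ × ℂ => det3 q.1 q.2.1 q.2.2) '' (VK p m ×ˢ (VK p m ×ˢ VK p m))).Finite :=
    (hfin.prod (hfin.prod hfin)).image _
  obtain ⟨δ, hδ, h⟩ := finite_gap hS
  refine ⟨2 * |C| + 1, δ, by positivity, hδ, fun x hx y hy => ?_, fun x hx y hy z hz => ?_⟩
  · have h1 := hC x hx
    have h2 := hC y hy
    have h3 := le_abs_self C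
    calc ‖x - y‖ ≤ ‖x‖ + ‖y‖ := norm_sub_le _ _
      _ ≤ 2 * |C| + 1 := by linarith
  · exact h _ ⟨(x, y, z), ⟨hx, hy, hz⟩, rfl⟩

/-- The number of itineraries of length `k` of rays from one point grows subexponentially. -/
theorem subexp (hp : IsConvexPolygon p) {ε : ℝ} (hε : 0 < ε) : ∃ C : ℝ, 0 < C ∧
    ∀ (X : ℂ) (τ : ℝ) (G : Set ℝ) (U : ℝ → ℕ → Fin (n + 3)) (T : ℝ → ℕ → ℝ), X ∈ creg p →
      Fam p X τ G U T → ∀ k : ℕ, ((Wd U k '' G).ncard : ℝ) ≤ C * Real.exp (ε * k) := by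
  obtain ⟨D, hD0, hD⟩ := exists_D hp
  -- the number `m`
  obtain ⟨m, hm⟩ : ∃ m : ℕ, (1 + 2 * ((n : ℝ) + 3) * m) ≤ 1 / 2 * Real.exp (ε * m) := by
    have h1 : Tendsto (fun m : ℕ => (1 + 2 * ((n : ℝ) + 3) * m) / Real.exp (ε * m)) atTop
        (𝓝 0) := by
      have a1 : Tendsto (fun x : ℝ => (2 * ((n : ℝ) + 3) * x + 1) / Real.exp (ε * x)) atTop
          (𝓝 0) := by
        have b1 : Tendsto (fun x : ℝ => x * Real.exp (-(ε * x))) atTop (𝓝 0) := by
          have c1 := (Real.tendsto_pow_mul_exp_neg_atTop_nhds_zero 1).comp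
            (tendsto_id.const_mul_atTop hε)
          have c2 := c1.const_mul (1 / ε)
          rw [mul_zero] at c2
          refine c2.congr fun x => ?_
          simp only [Function.comp_apply, id, pow_one]
          field_simp
        have b2 : Tendsto (fun x : ℝ => Real.exp (-(ε * x))) atTop (𝓝 0) :=
          Real.tendsto_exp_neg_atTop_nhds_zero.comp (tendsto_id.const_mul_atTop hε)
        have b3 := (b1.const_mul (2 * ((n : ℝ) + 3))).add b2
        rw [mul_zero, add_zero] at b3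
        refine b3.congr fun x => ?_
        rw [Real.exp_neg]
        field_simp
      have a2 := a1.comp tendsto_natCast_atTop_atTop
      refine a2.congr fun m => ?_
      simp only [Function.comp_apply]
      ring
    have h2 := (h1.eventually (gt_mem_nhds (show (0 : ℝ) < 1 / 2 by norm_num))).exists
    obtain ⟨m, hm⟩ := h2
    refine ⟨m, ?_⟩
    rw [div_lt_iff₀ (Real.exp_pos _)] at hm
    exact hm.le
  obtain ⟨M, δ, hM0, hδ0, hM, hδ⟩ := exists_consts hp m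
  obtain ⟨δ', hδ'⟩ : ∃ δ', δ' = min 1 (δ / (16 * M * D)) := ⟨_, rfl⟩
  have hδ'0 : 0 < δ' := by rw [hδ']; exact lt_min one_pos (by positivity)
  have hpi := Real.pi_pos
  obtain ⟨C1, hC1⟩ : ∃ C1, C1 = ((n : ℝ) + 3) ^ m * (π / δ') * ((m + 2) * (1 + 1 / ε)) := ⟨_, rfl⟩
  have hC10 : 0 < C1 := by rw [hC1]; positivity
  obtain ⟨C, hC⟩ : ∃ C, C = 2 * C1 + ((n : ℝ) + 3) ^ m := ⟨_, rfl⟩
  have hC0 : 0 < C := by rw [hC]; positivity
  refine ⟨C, hC0, fun X τ G U T hX F k => ?_⟩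
  have hrec : ∀ k : ℕ, ((Wd U (k + m) '' G).ncard : ℝ) ≤
      1 / 2 * Real.exp (ε * m) * (Wd U k '' G).ncard + C1 * Real.exp (ε * k) := by
    intro k
    obtain ⟨ϑ, hϑ⟩ : ∃ ϑ, ϑ = δ' / (k + m + 2) := ⟨_, rfl⟩
    have hkm : (0 : ℝ) < k + m + 2 := by positivity
    have hϑ0 : 0 < ϑ := by rw [hϑ]; positivity
    have hϑ1 : ϑ < π := by
      have h1 : ϑ ≤ δ' := by
        rw [hϑ]
        apply div_le_self hδ'0.le
        have : (0 : ℝ) ≤ (k : ℝ) + m := by positivity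
        linarith
      have h2 : δ' ≤ 1 := by rw [hδ']; exact min_le_left _ _
      have := Real.pi_gt_three
      linarith
    have hsmall : 4 * M * (2 * (D * (k + m + 2) * ϑ)) < δ := by
      have h1 : δ' ≤ δ / (16 * M * D) := by rw [hδ']; exact min_le_right _ _
      have h2 : 4 * M * (2 * (D * (k + m + 2) * ϑ)) = 8 * M * D * δ' := by
        rw [hϑ]; field_simp; ring
      rw [h2]
      calc 8 * M * D * δ' ≤ 8 * M * D * (δ / (16 * M * D)) := by gcongr
        _ = δ / 2 := by field_simp; norm_num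
        _ < δ := by linarith
    have h1 := recur hp hX hD0 hD hM hδ F hϑ0 hϑ1 hsmall
    refine h1.trans (add_le_add ?_ ?_)
    · gcongr
    · have h2 : (1 : ℝ) + ε * k ≤ Real.exp (ε * k) := by
        have := Real.add_one_le_exp (ε * k)
        linarith
      have h3 : (k : ℝ) + 1 ≤ (1 + 1 / ε) * Real.exp (ε * k) := by
        have h4 : (1 + 1 / ε) * (1 + ε * k) ≤ (1 + 1 / ε) * Real.exp (ε * k) := by gcongr
        have h5 : (1 + 1 / ε) * (1 + ε * k) = 1 + ε * k + 1 / ε + k := by field_simp; ring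
        have h6 : 0 ≤ ε * (k : ℝ) := by positivity
        have h7 : 0 < 1 / ε := by positivity
        linarith
      have h8 : (k : ℝ) + m + 2 ≤ (m + 2) * (k + 1) := by
        have : (0 : ℝ) ≤ (m : ℝ) * k := by positivity
        have : (0 : ℝ) ≤ (k : ℝ) := by positivity
        nlinarith
      calc ((n : ℝ) + 3) ^ m * (π / ϑ) = ((n : ℝ) + 3) ^ m * (π / δ') * (k + m + 2) := by
            rw [hϑ]; field_simp
        _ ≤ ((n : ℝ) + 3) ^ m * (π / δ') * ((m + 2) * ((1 + 1 / ε) * Real.exp (ε * k))) := by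
            have : (k : ℝ) + m + 2 ≤ (m + 2) * ((1 + 1 / ε) * Real.exp (ε * k)) :=
              h8.trans (by gcongr)
            gcongr
        _ = C1 * Real.exp (ε * k) := by rw [hC1]; ring
  induction k using Nat.strong_induction_on with
  | _ k ih =>
    by_cases hk : k < m
    · have h1 := pow_any U 0 k G (w := []) (fun φ _ => rfl)
      rw [zero_add] at h1
      have h2 : ((Wd U k '' G).ncard : ℝ) ≤ ((n : ℝ) + 3) ^ k := by exact_mod_cast h1
      have h3 : ((n : ℝ) + 3) ^ k ≤ ((n : ℝ) + 3) ^ m := by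
        apply pow_le_pow_right₀ _ hk.le
        have : (0 : ℝ) ≤ n := n.cast_nonneg
        linarith
      have h4 : C ≤ C * Real.exp (ε * k) := by
        apply le_mul_of_one_le_right hC0.le
        apply Real.one_le_exp
        positivity
      have h5 : ((n : ℝ) + 3) ^ m ≤ C := by rw [hC]; linarith
      linarith
    · push Not at hk
      by_cases hm0 : m = 0
      · exfalso
        rw [hm0] at hm
        norm_num at hm
      obtain ⟨k', rfl⟩ : ∃ k', k = k' + m := ⟨k - m, by omega⟩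
      have h1 := hrec k'
      have h2 := ih k' (by omega)
      have e1 : Real.exp (ε * ((k' + m : ℕ) : ℝ)) = Real.exp (ε * m) * Real.exp (ε * k') := by
        rw [← Real.exp_add]; congr 1; push_cast; ring
      rw [e1]
      have h3 : 1 ≤ Real.exp (ε * m) := Real.one_le_exp (by positivity)
      have h4 : 0 < Real.exp (ε * k') := Real.exp_pos _
      have h5 : C1 ≤ C / 2 := by
        rw [hC]
        have : (0 : ℝ) < ((n : ℝ) + 3) ^ m := by positivity
        linarith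
      calc ((Wd U (k' + m) '' G).ncard : ℝ) ≤
          1 / 2 * Real.exp (ε * m) * (Wd U k' '' G).ncard + C1 * Real.exp (ε * k') := h1
        _ ≤ 1 / 2 * Real.exp (ε * m) * (C * Real.exp (ε * k')) +
            C / 2 * Real.exp (ε * m) * Real.exp (ε * k') := by
            refine add_le_add (by gcongr) ?_
            have : C1 ≤ C / 2 * Real.exp (ε * m) :=
              h5.trans (le_mul_of_one_le_right (by positivity) h3)
            gcongr
        _ = C * (Real.exp (ε * m) * Real.exp (ε * k')) := by ring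

end Pool.Agent.Q48.BL
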