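import Pool.Agent.TH103.BL.Ch
import Pool.Agent.W12.BB.Fan

set_option autoImplicit false

/-!
Billiards: unfolded vertices which are seen from a point of the region.
-/

namespace Pool.Agent.Q48.BL

open Complex Set MeasureTheory Filter Topology Pool.Agent.W780.PG Pool.Agent.W780.BB
  Pool.Agent.TH103.BL
open Pool.Agent.W12.BB.Fan (sf_line cr_facts side_of_seg)

open scoped Real ComplexConjugate

variable {n : ℕ} {p : Fin (n + 3) → ℂ}

/-- `a` is seen from `b` after the reflections `w` -/
def See (p : Fin (n + 3) → ℂ) (w : List (Fin (n + 3))) (b a : ℂ) : Prop :=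
  ∃ s0 : ℝ, s0 < 1 ∧ ∀ s : ℝ, s0 < s → s < 1 → Ch p w b (b + s • (a - b))

/-- the unfolded vertices seen from a point of the region after at most `K` reflections -/
def VS (p : Fin (n + 3) → ℂ) (K : ℕ) : Set ℂ :=
  {a | ∃ w : List (Fin (n + 3)), w.length ≤ K ∧ ∃ j, a = uf p w (p j) ∧ ∃ b ∈ reg p, See p w b a}

theorem sf_vert0 (p : Fin (n + 3) → ℂ) (j : Fin (n + 3)) : sf p j (p j) = 0 :=
  Pool.Agent.W82.BB.sf_vertex_left p j

theorem sf_vert1 (p : Fin (n + 3) → ℂ) (j : Fin (n + 3)) : sf p (j - 1) (p j) = 0 :=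
  Pool.Agent.W82.BB.sf_vertex_right p j

theorem side_of_pos (hp : IsConvexPolygon p) {i : Fin (n + 3)} {y : ℂ} (h0 : sf p i y = 0)
    (h : ∀ j, j ≠ i → 0 < sf p j y) : y ∈ Pool.Agent.W780.PG.side p i := by
  refine Pool.Agent.W174.PG.side_of hp i (fun j => ?_) h0 (fun k hk => ?_)
  · by_cases hj : j = i
    · rw [hj]; exact h0.ge
    · exact (h j hj).le
  · by_cases hki : k = i
    · have h1 : k - 1 ≠ i := by
        rw [hki]
        exact Pool.Agent.W174.PG.im i
      have := h _ h1
      rw [hk, sf_vert1] at this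
      exact lt_irrefl _ this
    · have := h _ hki
      rw [hk, sf_vert0] at this
      exact lt_irrefl _ this

theorem cr_eq {i : Fin (n + 3)} {B A : ℂ} (hB : 0 < sf p i B) (hA : sf p i A < 0) {c : ℝ}
    (h : sf p i (B + c • (A - B)) = 0) : cr p i B A = B + c • (A - B) := by
  rw [sf_line] at h
  unfold cr
  have h1 : sf p i B - sf p i A ≠ 0 := by linarith
  have h2 : sf p i B / (sf p i B - sf p i A) = c := by
    rw [div_eq_iff h1]
    linarith
  rw [h2]

/-- projection from `A` of a point of the chord to the base -/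
theorem base_point {B C A : ℂ} {y y1 s : ℝ} (hy0 : 0 < y) (hy : y < 1) (hy10 : 0 < y1)
    (hy1 : y1 < 1) (hs0 : 0 ≤ s) (hs1 : s ≤ 1) : ∃ c σ : ℝ, 0 ≤ c ∧ c ≤ 1 ∧ 0 < σ ∧ σ < 1 ∧
      (B + y • (A - B)) + s • ((C + y1 • (A - C)) - (B + y • (A - B))) =
        (B + c • (C - B)) + (1 - σ) • (A - (B + c • (C - B))) := by
  obtain ⟨σ, hσ⟩ : ∃ σ, σ = (1 - s) * (1 - y) + s * (1 - y1) := ⟨_, rfl⟩
  have hσ0 : 0 < σ := by
    rw [hσ]
    rcases hs0.lt_or_eq with h | h
    · have := mul_pos h (show 0 < 1 - y1 by linarith)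
      have := mul_nonneg (show 0 ≤ 1 - s by linarith) (show 0 ≤ 1 - y by linarith)
      linarith
    · rw [← h]; linarith
  have hσ1 : σ < 1 := by
    have h1 : 1 - σ = (1 - s) * y + s * y1 := by rw [hσ]; ring
    have h2 : 0 < (1 - s) * y + s * y1 := by
      rcases hs0.lt_or_eq with h | h
      · have := mul_pos h hy10
        have := mul_nonneg (show 0 ≤ 1 - s by linarith) hy0.le
        linarith
      · rw [← h]; linarith
    linarith
  have hc1 : s * (1 - y1) ≤ σ := by
    rw [hσ]
    have := mul_nonneg (show 0 ≤ 1 - s by linarith) (show 0 ≤ 1 - y by linarith)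
    linarith
  have hσc : (σ : ℂ) ≠ 0 := by exact_mod_cast hσ0.ne'
  refine ⟨s * (1 - y1) / σ, σ, div_nonneg (mul_nonneg hs0 (by linarith)) hσ0.le,
    (div_le_one hσ0).2 hc1, hσ0, hσ1, ?_⟩
  simp only [real_smul]
  have e : (σ : ℂ) = (1 - s) * (1 - y) + s * (1 - y1) := by rw [hσ]; push_cast; ring
  push_cast
  field_simp
  rw [e]
  ring

theorem hB_convex (hp : IsConvexPolygon p) : Convex ℝ (reg p) := (hB n p hp).2.2.1

theorem fan_vis_aux (hp : IsConvexPolygon p) : ∀ (w : List (Fin (n + 3))) (B C A : ℂ),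
    ((B ∈ reg p ∧ C ∈ reg p) ∨ ∃ k, B ∈ Pool.Agent.W780.PG.side p k ∧
      C ∈ Pool.Agent.W780.PG.side p k) → Ch p w B A → ¬ Ch p w C A →
    ∃ (c χ : ℝ) (w' : List (Fin (n + 3))) (j : Fin (n + 3)), 0 ≤ c ∧ c ≤ 1 ∧ 0 < χ ∧ χ ≤ 1 ∧
      w'.length ≤ w.length ∧
      uf p w' (p j) = (B + c • (C - B)) + χ • (A - (B + c • (C - B))) ∧
      See p w' (B + c • (C - B)) (uf p w' (p j)) := by
  intro w
  induction w with
  | nil =>
    intro B C A _ h1 h2
    exact absurd h1 h2
  | cons i w ih =>
    intro B C A hbase hch hnch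
    obtain ⟨hB, hA, hcr, hrest⟩ := hch
    obtain ⟨hr1, _, _, hr4, _, hr6, _⟩ := hR n p hp
    have hC : 0 < sf p i C := by
      rcases hbase with h | ⟨k, hBk, hCk⟩
      · exact h.2 i
      · have hik : i ≠ k := by
          rintro rfl
          have : sf p i B = 0 := side_zero hp hBk
          linarith
        exact side_pos hp hCk hik
    have zB := (cr_facts hB hA).2
    have zC := (cr_facts hC hA).2
    have hY : cr p i B A ∈ Pool.Agent.W780.PG.side p i := side_of_pos hp zB hcr
    -- parameters of the crossing points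
    obtain ⟨y, hy⟩ : ∃ y, y = sf p i B / (sf p i B - sf p i A) := ⟨_, rfl⟩
    obtain ⟨y1, hy1⟩ : ∃ y1, y1 = sf p i C / (sf p i C - sf p i A) := ⟨_, rfl⟩
    have hy0 : 0 < y := by rw [hy]; exact div_pos hB (by linarith)
    have hyl : y < 1 := by rw [hy, div_lt_one (by linarith)]; linarith
    have hy10 : 0 < y1 := by rw [hy1]; exact div_pos hC (by linarith)
    have hy1l : y1 < 1 := by rw [hy1, div_lt_one (by linarith)]; linarith
    have eY : cr p i B A = B + y • (A - B) := by rw [hy]; rfl
    have eY1 : cr p i C A = C + y1 • (A - C) := by rw [hy1]; rfl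
    by_cases hY1 : cr p i C A ∈ Pool.Agent.W780.PG.side p i
    · -- the next level
      have hn : ¬ Ch p w (cr p i C A) (rf p i A) := fun h =>
        hnch ⟨hC, hA, fun j hj => side_pos hp hY1 hj, h⟩
      obtain ⟨s, ρ, w', j, hs0, hs1, hρ0, hρ1, hlen, hpt, s0, hs0', hsee⟩ :=
        ih (cr p i B A) (cr p i C A) (rf p i A) (Or.inr ⟨i, hY, hY1⟩) hrest hn
      obtain ⟨c, σ, hc0, hc1, hσ0, hσ1, hbp⟩ := base_point (B := B) (C := C) (A := A) hy0 hyl
        hy10 hy1l hs0 hs1
      rw [← eY, ← eY1] at hbp
      obtain ⟨B', hB'⟩ : ∃ B', B' = B + c • (C - B) := ⟨_, rfl⟩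
      obtain ⟨B'', hB''⟩ : ∃ B'', B'' = cr p i B A + s • (cr p i C A - cr p i B A) := ⟨_, rfl⟩
      rw [← hB', ← hB''] at hbp
      rw [← hB''] at hpt hsee
      have hB''side : B'' ∈ Pool.Agent.W780.PG.side p i := by
        rw [hB'']
        apply (convex_openSegment (p i) (p (i + 1))).segment_subset hY hY1
        rw [segment_eq_image']
        exact ⟨s, ⟨hs0, hs1⟩, rfl⟩
      have hB''0 : sf p i B'' = 0 := side_zero hp hB''side
      have hB'pos : 0 < sf p i B' := by
        rw [hB', sf_line]
        rcases hc0.lt_or_eq with h | h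
        · have := mul_pos h hC
          have := mul_nonneg (show 0 ≤ 1 - c by linarith) hB.le
          linarith
        · rw [← h]; linarith
      obtain ⟨χ, hχ⟩ : ∃ χ, χ = (1 - σ) + ρ * σ := ⟨_, rfl⟩
      have hχ0 : 0 < χ := by rw [hχ]; have := mul_pos hρ0 hσ0; linarith
      have hχ1 : χ ≤ 1 := by rw [hχ]; nlinarith
      have hpt' : uf p (i :: w') (p j) = B' + χ • (A - B') := by
        show rf p i (uf p w' (p j)) = _
        rw [hpt, hr6, hr1, hr4 _ _ hB''0, hbp, hχ]
        simp only [real_smul]
        push_cast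
        ring
      refine ⟨c, χ, i :: w', j, hc0, hc1, hχ0, hχ1, by simpa using hlen, ?_, ?_⟩
      · rw [← hB']; exact hpt'
      rw [← hB', hpt']
      -- the point is seen from `B'`
      obtain ⟨q, hq⟩ : ∃ q, q = (1 - σ) / χ := ⟨_, rfl⟩
      have hq0 : 0 < q := by rw [hq]; exact div_pos (by linarith) hχ0
      have hqχ : q * χ = 1 - σ := by rw [hq]; field_simp
      have hq1 : q < 1 := by
        rw [hq, div_lt_one hχ0, hχ]
        have := mul_pos hρ0 hσ0
        linarith
      refine ⟨max q (q + s0 * (1 - q)), max_lt hq1 (by nlinarith), fun s' h1 h2 => ?_⟩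
      have h1a := (le_max_left _ _).trans_lt h1
      have h1b := (le_max_right _ _).trans_lt h1
      obtain ⟨v, hv⟩ : ∃ v, v = (s' - q) / (1 - q) := ⟨_, rfl⟩
      have hv0 : 0 < v := by rw [hv]; exact div_pos (by linarith) (by linarith)
      have hv1 : v < 1 := by rw [hv, div_lt_one (by linarith)]; linarith
      have hvs0 : s0 < v := by rw [hv, lt_div_iff₀ (by linarith)]; linarith
      have hvq : v * (1 - q) = s' - q := by
        rw [hv]
        have : 1 - q ≠ 0 := by linarith
        field_simp
      obtain ⟨As, hAs⟩ : ∃ As, As = B' + s' • (B' + χ • (A - B') - B') := ⟨_, rfl⟩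
      rw [← hAs]
      have eAs : As = B'' + (v * ρ) • (A - B'') := by
        have e1 : ((1 : ℂ) - v * ρ) * σ = 1 - s' * χ := by
          have : (1 - v * ρ) * σ = 1 - s' * χ := by
            have a1 : χ * (1 - q) = ρ * σ := by rw [mul_sub, mul_one, mul_comm χ q, hqχ, hχ]; ring
            have a2 : v * (ρ * σ) = χ * (s' - q) := by rw [← a1, ← hvq]; ring
            have a3 : χ * q = 1 - σ := by rw [mul_comm]; exact hqχ
            linear_combination -a2 + a3
          exact_mod_cast congrArg (fun x : ℝ => (x : ℂ)) this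
        rw [hAs, hbp]
        simp only [real_smul]
        push_cast
        linear_combination (A - B') * e1
      have hA'' : sf p i As < 0 := by
        rw [eAs, sf_line, hB''0]
        have := mul_neg_of_pos_of_neg (mul_pos hv0 hρ0) hA
        linarith
      have hcrs : cr p i B' As = B'' := by
        have e1 : B'' = B' + (q / s') • (As - B') := by
          have hs'0 : s' ≠ 0 := (hq0.trans h1a).ne'
          have hd : As - B' = (s' * χ) • (A - B') := by
            rw [hAs]
            simp only [real_smul]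
            push_cast
            ring
          have e2 : q / s' * (s' * χ) = 1 - σ := by
            rw [← hqχ]
            field_simp
          rw [hd, smul_smul, e2]
          exact hbp
        rw [e1]
        apply cr_eq hB'pos hA''
        rw [← e1]
        exact hB''0
      refine ⟨hB'pos, hA'', fun j' hj' => ?_, ?_⟩
      · rw [hcrs]; exact side_pos hp hB''side hj'
      · rw [hcrs]
        have e3 : rf p i As = B'' + v • (uf p w' (p j) - B'') := by
          rw [eAs, hr6, hr4 _ _ hB''0, hpt]
          simp only [real_smul]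
          push_cast
          ring
        rw [e3]
        exact hsee v hvs0 hv1
    · -- a vertex on the chord
      have hex : ∃ j, p j ∈ segment ℝ (cr p i B A) (cr p i C A) := by
        by_contra hcon
        push Not at hcon
        exact hY1 (side_of_seg hp (convex_segment _ _) hY zC (left_mem_segment _ _ _)
          (right_mem_segment _ _ _) hcon)
      obtain ⟨j, hj⟩ := hex
      rw [segment_eq_image'] at hj
      obtain ⟨s, ⟨hs0, hs1⟩, hj⟩ := hj
      simp only at hj
      obtain ⟨c, σ, hc0, hc1, hσ0, hσ1, hbp⟩ := base_point (B := B) (C := C) (A := A) hy0 hyl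
        hy10 hy1l hs0 hs1
      rw [← eY, ← eY1, hj] at hbp
      refine ⟨c, 1 - σ, [], j, hc0, hc1, by linarith, by linarith, Nat.zero_le _, hbp, ?_⟩
      refine ⟨0, one_pos, fun s' h1 h2 m => ?_⟩
      show 0 < sf p m _
      obtain ⟨B', hB'⟩ : ∃ B', B' = B + c • (C - B) := ⟨_, rfl⟩
      rw [← hB'] at hbp ⊢
      show 0 < sf p m (B' + s' • (p j - B'))
      rw [sf_line]
      have hjm : 0 ≤ sf p m (p j) := vert_mem hp j m
      have hcomb : ∀ m, 0 < sf p m B → 0 < sf p m C → 0 < sf p m B' := by
        intro m hb hc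
        rw [hB', sf_line]
        rcases hc0.lt_or_eq with h | h
        · have := mul_pos h hc
          have := mul_nonneg (show 0 ≤ 1 - c by linarith) hb.le
          linarith
        · rw [← h]; linarith
      rcases hbase with ⟨hb, hc⟩ | ⟨k, hb, hc⟩
      · have := mul_pos (show 0 < 1 - s' by linarith) (hcomb m (hb m) (hc m))
        have := mul_nonneg h1.le hjm
        linarith
      · by_cases hmk : m = k
        · subst hmk
          have hb0 : sf p m B = 0 := side_zero hp hb
          have hc0' : sf p m C = 0 := side_zero hp hc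
          have hB'0 : sf p m B' = 0 := by rw [hB', sf_line, hb0, hc0']; ring
          have hmi : m ≠ i := by
            rintro rfl
            linarith
          have h3 := hcr m hmi
          rw [eY, sf_line, hb0, mul_zero, zero_add] at h3
          have hAm : 0 < sf p m A := by
            by_contra hcon
            push Not at hcon
            have := mul_nonpos_of_nonneg_of_nonpos hy0.le hcon
            linarith
          have h4 : 0 < sf p m (p j) := by
            rw [hbp, sf_line, hB'0]
            have := mul_pos (show 0 < 1 - σ by linarith) hAm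
            linarith
          rw [hB'0, mul_zero, zero_add]
          exact mul_pos h1 h4
        · have := mul_pos (show 0 < 1 - s' by linarith)
            (hcomb m (side_pos hp hb hmk) (side_pos hp hc hmk))
          have := mul_nonneg h1.le hjm
          linarith

/-- If the triangle contains no visible unfolded vertex, then both its sides have the same
itinerary. -/
theorem fan_vis (hp : IsConvexPolygon p) {K : ℕ} {w : List (Fin (n + 3))} {B C A : ℂ}
    (hw : w.length ≤ K) (hB : B ∈ reg p) (hC : C ∈ reg p) (hch : Ch p w B A)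
    (hV : ∀ a ∈ VS p K, a ∉ convexHull ℝ ({A, B, C} : Set ℂ)) : Ch p w C A := by
  by_contra hcon
  obtain ⟨c, χ, w', j, hc0, hc1, hχ0, hχ1, hlen, hpt, hsee⟩ :=
    fan_vis_aux hp w B C A (Or.inl ⟨hB, hC⟩) hch hcon
  have hconv : Convex ℝ (convexHull ℝ ({A, B, C} : Set ℂ)) := convex_convexHull ℝ _
  have mA : A ∈ convexHull ℝ ({A, B, C} : Set ℂ) := subset_convexHull ℝ _ (by simp)
  have mB : B ∈ convexHull ℝ ({A, B, C} : Set ℂ) := subset_convexHull ℝ _ (by simp)
  have mC : C ∈ convexHull ℝ ({A, B, C} : Set ℂ) := subset_convexHull ℝ _ (by simp)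
  have hB' : B + c • (C - B) ∈ reg p := by
    have := (hB_convex hp).segment_subset hB hC
    apply this
    rw [segment_eq_image']
    exact ⟨c, ⟨hc0, hc1⟩, rfl⟩
  refine hV _ ⟨w', hlen.trans hw, j, rfl, _, hB', hsee⟩ ?_
  rw [hpt]
  have m1 : B + c • (C - B) ∈ convexHull ℝ ({A, B, C} : Set ℂ) :=
    Pool.Agent.W12.BB.Fan.mem_line hconv mB mC hc0 hc1
  exact Pool.Agent.W12.BB.Fan.mem_line hconv m1 mA hχ0.le hχ1

end Pool.Agent.Q48.BL
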