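import Pool.Agent.Q48.BL.Grow
import Pool.Agent.Q48.BL.Vis

set_option autoImplicit false

/-!
Billiards: the number of visible unfolded vertices grows subexponentially.
-/

namespace Pool.Agent.Q48.BL

open Complex Set MeasureTheory Filter Topology Pool.Agent.W780.PG Pool.Agent.W780.BB
  Pool.Agent.TH103.BL

open scoped Real ComplexConjugate

variable {n : ℕ} {p : Fin (n + 3) → ℂ}

theorem hUq' (hp : IsConvexPolygon p) {w w' : List (Fin (n + 3))} {B A : ℂ} (h : Ch p w B A)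
    (h' : Ch p w' B A) : w = w' := Pool.Agent.W108.BB.uniq n p hp w w' B A h h'

theorem hRev : S_Rev := _root_.W973.BB.rev hR

theorem ae_gen (z : ℂ) : ∀ᵐ θ : ℝ, ∀ w j (s : ℝ), 0 < s → z + s • dir θ ≠ uf p w (p j) := by
  have h1 : ∀ w j, ∀ᵐ θ : ℝ, ∀ s : ℝ, 0 < s → z + s • dir θ ≠ uf p w (p j) := by
    intro w j
    have hcount : {θ : ℝ | ¬ ∀ s : ℝ, 0 < s → z + s • dir θ ≠ uf p w (p j)}.Countable := by
      refine (countable_range fun k : ℤ => arg (uf p w (p j) - z) + k * (2 * π)).mono ?_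
      intro θ hθ
      rw [mem_ofPred_eq] at hθ
      push Not at hθ
      obtain ⟨s, hs, he⟩ := hθ
      have h2 : uf p w (p j) - z = (s : ℂ) * dir θ := by rw [← he, real_smul]; ring
      have h3 : ‖uf p w (p j) - z‖ = s := by
        rw [h2, norm_mul, norm_dir, mul_one, norm_real, Real.norm_eq_abs, abs_of_pos hs]
      have h4 := Complex.norm_mul_exp_arg_mul_I (uf p w (p j) - z)
      rw [h3] at h4
      have h5 : exp ((θ : ℂ) * I) = exp ((arg (uf p w (p j) - z) : ℂ) * I) := by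
        have hs' : (s : ℂ) ≠ 0 := by exact_mod_cast hs.ne'
        apply mul_left_cancel₀ hs'
        rw [h4]
        exact h2.symm
      obtain ⟨k, hk⟩ := Complex.exp_eq_exp_iff_exists_int.1 h5
      refine ⟨k, ?_⟩
      simp only
      have h6 : (θ : ℂ) * I = ((arg (uf p w (p j) - z) + k * (2 * π) : ℝ) : ℂ) * I := by
        rw [hk]; push_cast; ring
      have h7 := mul_right_cancel₀ I_ne_zero h6
      exact_mod_cast h7.symm
    exact hcount.measure_zero _
  rw [ae_all_iff]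
  intro w
  rw [ae_all_iff]
  intro j
  exact h1 w j

/-- the directions of the rays from a vertex -/
def Gj (p : Fin (n + 3) → ℂ) (j : Fin (n + 3)) : Set ℝ :=
  {φ | φ ∈ Ioo (tau p j) (tau p j + π) ∧ Ok p (p j) φ 0}

/-- polar coordinates at a vertex -/
theorem polar (hp : IsConvexPolygon p) {j : Fin (n + 3)} {b : ℂ} (hb : 0 < sf p j b) :
    ∃ φ ρ : ℝ, φ ∈ Ioo (tau p j) (tau p j + π) ∧ 0 < ρ ∧ b = p j + ρ • dir φ := by
  obtain ⟨c, hc⟩ : ∃ c, c = (b - p j) * conj (dir (tau p j)) := ⟨_, rfl⟩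
  have hbc : b - p j = c * dir (tau p j) := by
    rw [hc, mul_assoc, mul_comm (conj (dir (tau p j))), dir_mul_conj, mul_one]
  have hci : 0 < c.im := by
    have h3 : p (j + 1) - p j = (‖p (j + 1) - p j‖ : ℂ) * dir (tau p j) := by
      unfold tau dir
      exact (Complex.norm_mul_exp_arg_mul_I _).symm
    unfold sf lft at hb
    rw [h3, map_mul, conj_ofReal, mul_assoc, im_ofReal_mul, mul_comm (conj (dir (tau p j))),
      ← hc] at hb
    exact pos_r hb (lt_of_le_of_ne (norm_nonneg _) (fun h => by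
      rw [← h, zero_mul] at hb; exact lt_irrefl _ hb))
  have hc0 : c ≠ 0 := fun h => by rw [h, zero_im] at hci; exact lt_irrefl _ hci
  have hn : 0 < ‖c‖ := norm_pos_iff.2 hc0
  have hcd : c = (‖c‖ : ℂ) * dir (arg c) := by
    unfold dir; exact (Complex.norm_mul_exp_arg_mul_I _).symm
  have hsin : 0 < Real.sin (arg c) := by
    have h1 : c.im = ‖c‖ * Real.sin (arg c) := by
      conv_lhs => rw [hcd]
      rw [im_ofReal_mul, dir_im]
    rw [h1] at hci
    exact pos_r hci hn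
  have h1 : 0 < arg c := by
    by_contra hcon
    push Not at hcon
    have := Real.sin_nonpos_of_nonpos_of_neg_pi_le hcon (Complex.neg_pi_lt_arg c).le
    linarith
  have h2 : arg c < π := by
    refine lt_of_le_of_ne (Complex.arg_le_pi c) fun h => ?_
    rw [h, Real.sin_pi] at hsin
    exact lt_irrefl _ hsin
  refine ⟨tau p j + arg c, ‖c‖, ⟨by linarith, by linarith⟩, hn, ?_⟩
  have h3 : b = p j + c * dir (tau p j) := by rw [← hbc]; ring
  rw [h3, dir_add, real_smul]
  conv_lhs => rw [hcd]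
  ring

theorem vis_word (hp : IsConvexPolygon p) {j : Fin (n + 3)} {U : ℝ → ℕ → Fin (n + 3)}
    {T : ℝ → ℕ → ℝ} (hUT : ∀ φ, Ok p (p j) φ 0 → Orb p (p j) φ (U φ) (T φ))
    {w : List (Fin (n + 3))} {b : ℂ} (hb : b ∈ reg p) (hsee : See p w b (uf p w (p j))) :
    w.reverse ∈ Wd U w.length '' Gj p j := by
  obtain ⟨s0, hs0, hsee⟩ := hsee
  obtain ⟨s1, h1, h2⟩ : ∃ s1, max s0 0 < s1 ∧ s1 < 1 := exists_between (max_lt hs0 one_pos)
  have h1a := (le_max_left _ _).trans_lt h1
  have h1b := (le_max_right _ _).trans_lt h1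
  have hch := hsee s1 h1a h2
  have hrev := hRev n p hp w b _ hb hch
  have hreg := ch_mem w _ _ hch
  obtain ⟨bh, hbh⟩ : ∃ bh, bh = fp p w b := ⟨_, rfl⟩
  obtain ⟨η, hη⟩ : ∃ η, η = 1 - s1 := ⟨_, rfl⟩
  have hη0 : 0 < η := by rw [hη]; linarith
  have hη1 : η < 1 := by rw [hη]; linarith
  have hA1 : fp p w (b + s1 • (uf p w (p j) - b)) = p j + η • (bh - p j) := by
    rw [fp_line hp, fp_uf hp, ← hbh, hη]
    simp only [real_smul]
    push_cast
    ring
  rw [hA1, ← hbh] at hrev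
  rw [hA1] at hreg
  -- the direction
  have hsf : 0 < sf p j bh := by
    have := hreg j
    change 0 < sf p j _ at this
    rw [Pool.Agent.W12.BB.Fan.sf_line, sf_vert0, mul_zero, zero_add] at this
    exact pos_r this hη0
  obtain ⟨φ0, ρ, hφ0, hρ, hbφ⟩ := polar hp hsf
  have hpt : p j + η • (bh - p j) = p j + (η * ρ) • dir φ0 := by
    rw [hbφ, add_sub_cancel_left, smul_smul]
  rw [hpt, hbφ] at hrev
  rw [hpt] at hreg
  -- a generic direction nearby
  have hc1 : Continuous fun φ : ℝ => p j + (η * ρ) • dir φ :=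
    continuous_const.add (continuous_dir.const_smul (η * ρ))
  have hc2 : Continuous fun φ : ℝ => p j + ρ • dir φ :=
    continuous_const.add (continuous_dir.const_smul ρ)
  have o1 : ∀ᶠ φ in 𝓝 φ0, Ch p w.reverse (p j + (η * ρ) • dir φ) (p j + ρ • dir φ) :=
    ((Pool.Agent.W762.BB.open_it n p hp w.reverse).preimage (hc1.prodMk hc2)).mem_nhds hrev
  have o2 : ∀ᶠ φ in 𝓝 φ0, p j + (η * ρ) • dir φ ∈ reg p :=
    hc1.continuousAt ((reg_open hp).mem_nhds hreg)
  have o3 : ∀ᶠ φ in 𝓝 φ0, φ ∈ Ioo (tau p j) (tau p j + π) := isOpen_Ioo.mem_nhds hφ0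
  obtain ⟨φ, hgen, hφch, hφreg, hφI⟩ := (Measure.dense_of_ae (ae_gen (p := p) (p j))).inter_nhds_nonempty
    (o1.and (o2.and o3))
  rw [mem_ofPred_eq] at hgen
  have hηρ : 0 < η * ρ := mul_pos hη0 hρ
  have hins : ∀ s, 0 < s → s < η * ρ → p j + s • dir φ ∈ reg p := by
    intro s hs hs2 m
    show 0 < sf p m _
    have e : p j + s • dir φ = p j + (s / (η * ρ)) • ((p j + (η * ρ) • dir φ) - p j) := by
      rw [add_sub_cancel_left, smul_smul, div_mul_cancel₀ _ hηρ.ne']
    rw [e, Pool.Agent.W12.BB.Fan.sf_line]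
    have a1 : 0 ≤ sf p m (p j) := vert_mem hp j m
    have a2 : 0 < sf p m (p j + (η * ρ) • dir φ) := hφreg m
    have a3 : 0 < s / (η * ρ) := div_pos hs hηρ
    have a4 : s / (η * ρ) < 1 := by rw [div_lt_one hηρ]; exact hs2
    have := mul_pos a3 a2
    have := mul_nonneg (show 0 ≤ 1 - s / (η * ρ) by linarith) a1
    linarith
  have hok : Ok p (p j) φ 0 := ⟨⟨η * ρ, hηρ, hins⟩, hgen⟩
  have O := hUT φ hok
  have ht0 : η * ρ < T φ 0 := by
    by_contra hcon
    push Not at hcon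
    have hin : p j + (T φ 0) • dir φ ∈ reg p := by
      rcases hcon.lt_or_eq with h | h
      · exact hins _ O.pos h
      · rw [h]; exact hφreg
    have hz : sf p (U φ 0) (p j + (T φ 0) • dir φ) = 0 := side_zero hp (O.hit 0)
    have := hin (U φ 0)
    change 0 < sf p (U φ 0) _ at this
    linarith
  obtain ⟨K, hK1, hK2⟩ := exists_frame hp O hρ.le
  -- a slightly later time
  have hc3 : Continuous fun s : ℝ => p j + s • dir φ := by fun_prop
  have o4 : ∀ᶠ s in 𝓝 ρ, Ch p w.reverse (p j + (η * ρ) • dir φ) (p j + s • dir φ) :=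
    ((Pool.Agent.W762.BB.open_it n p hp w.reverse).preimage
      (continuous_const.prodMk hc3)).mem_nhds hφch
  obtain ⟨δ, hδ, hball⟩ := Metric.eventually_nhds_iff.1 o4
  obtain ⟨s, hs⟩ : ∃ s, s = ρ + min δ (T φ K - ρ) / 2 := ⟨_, rfl⟩
  have h3 : 0 < min δ (T φ K - ρ) := lt_min hδ (by linarith)
  have h4 := min_le_left δ (T φ K - ρ)
  have h5 := min_le_right δ (T φ K - ρ)
  have hch2 := hball (show dist s ρ < δ by
    rw [Real.dist_eq, hs, add_sub_cancel_left, abs_of_pos (by linarith)]; linarith)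
  have hs1 : tp (T φ) K < s := by linarith
  have hs2 : s < T φ K := by linarith
  have hch3 := ch_of hp K (U φ) (T φ) (p j) φ (η * ρ) s (fun k _ => O.hit k)
    (fun k _ => sl_neg hp O k) (fun _ => ht0) (fun k _ => O.mono k)
    (fun k hk => lt_of_tp O hs1 hk) (ps_in O K hs1 hs2)
  have hw := hUq' hp hch2 hch3
  have hlen : K = w.length := by
    have := congrArg List.length hw
    simpa using this.symm
  refine ⟨φ, ⟨hφI, hok⟩, ?_⟩
  rw [hw, ← hlen]
  rfl

theorem VS_card (hp : IsConvexPolygon p) {ε : ℝ} (hε : 0 < ε) : ∃ C : ℝ, 0 < C ∧ ∀ K : ℕ,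
    ∃ V : Finset ℂ, VS p K ⊆ V ∧ (V.card : ℝ) ≤ C * Real.exp (ε * K) := by
  classical
  obtain ⟨C, hC, hgrow⟩ := subexp hp (half_pos hε)
  have hch : ∀ (j : Fin (n + 3)) (φ : ℝ), ∃ q : (ℕ → Fin (n + 3)) × (ℕ → ℝ),
      Ok p (p j) φ 0 → Orb p (p j) φ q.1 q.2 := by
    intro j φ
    by_cases h : Ok p (p j) φ 0
    · obtain ⟨u, t, O⟩ := exists_orb hp h
      exact ⟨(u, t), fun _ => O⟩
    · exact ⟨(fun _ => 0, fun _ => 0), fun h' => absurd h' h⟩
  choose q hq using hch
  have hfam : ∀ j, Fam p (p j) (tau p j) (Gj p j) (fun φ => (q j φ).1) (fun φ => (q j φ).2) :=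
    fun j => ⟨fun φ hφ => ⟨hq j φ hφ.2, hφ.2.gen⟩, fun φ hφ => hφ.1⟩
  refine ⟨((n : ℝ) + 3) * C * (1 + 1 / (ε / 2)), by positivity, fun K => ?_⟩
  set V : Finset ℂ := Finset.univ.biUnion fun j => (Finset.range (K + 1)).biUnion fun k =>
    (Wd_fin (fun φ => (q j φ).1) k (Gj p j)).toFinset.image fun v => uf p v.reverse (p j) with hV
  refine ⟨V, ?_, ?_⟩
  · rintro a ⟨w, hwl, j, rfl, b, hb, hsee⟩
    have hvw := vis_word hp (fun φ h => hq j φ h) hb hsee
    rw [hV, Finset.mem_coe, Finset.mem_biUnion]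
    refine ⟨j, Finset.mem_univ _, ?_⟩
    rw [Finset.mem_biUnion]
    refine ⟨w.length, Finset.mem_range.2 (by omega), ?_⟩
    rw [Finset.mem_image]
    exact ⟨w.reverse, (Set.Finite.mem_toFinset _).2 hvw, by rw [List.reverse_reverse]⟩
  · have h1 : (V.card : ℝ) ≤ ∑ j : Fin (n + 3), ∑ k ∈ Finset.range (K + 1),
        ((Wd (fun φ => (q j φ).1) k '' (Gj p j)).ncard : ℝ) := by
      have : V.card ≤ ∑ j : Fin (n + 3), ∑ k ∈ Finset.range (K + 1),
          (Wd (fun φ => (q j φ).1) k '' (Gj p j)).ncard := by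
        refine Finset.card_biUnion_le.trans (Finset.sum_le_sum fun j _ => ?_)
        refine Finset.card_biUnion_le.trans (Finset.sum_le_sum fun k _ => ?_)
        refine Finset.card_image_le.trans ?_
        rw [Set.ncard_eq_toFinset_card _ (Wd_fin (fun φ => (q j φ).1) k (Gj p j))]
      exact_mod_cast this
    have h2 : ∀ j : Fin (n + 3), ∀ k ∈ Finset.range (K + 1),
        ((Wd (fun φ => (q j φ).1) k '' (Gj p j)).ncard : ℝ) ≤ C * Real.exp (ε / 2 * K) := by
      intro j k hk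
      refine (hgrow (p j) (tau p j) (Gj p j) _ _ (vert_mem hp j) (hfam j) k).trans ?_
      have : (k : ℝ) ≤ K := by
        have := Finset.mem_range.1 hk
        exact_mod_cast (show k ≤ K by omega)
      gcongr
    have h3 : (1 : ℝ) + ε / 2 * K ≤ Real.exp (ε / 2 * K) := by
      have := Real.add_one_le_exp (ε / 2 * K)
      linarith
    have h4 : (K : ℝ) + 1 ≤ (1 + 1 / (ε / 2)) * Real.exp (ε / 2 * K) := by
      have h4 : (1 + 1 / (ε / 2)) * (1 + ε / 2 * K) ≤ (1 + 1 / (ε / 2)) * Real.exp (ε / 2 * K) := by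
        gcongr
      have h5 : (1 + 1 / (ε / 2)) * (1 + ε / 2 * K) = 1 + ε / 2 * K + 1 / (ε / 2) + K := by
        field_simp
        ring
      have h6 : 0 ≤ ε / 2 * (K : ℝ) := by positivity
      have h7 : 0 < 1 / (ε / 2) := by positivity
      linarith
    calc (V.card : ℝ) ≤ ∑ j : Fin (n + 3), ∑ k ∈ Finset.range (K + 1),
          C * Real.exp (ε / 2 * K) :=
          h1.trans (Finset.sum_le_sum fun j _ => Finset.sum_le_sum (h2 j))
      _ = ((n : ℝ) + 3) * C * ((K : ℝ) + 1) * Real.exp (ε / 2 * K) := by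
          rw [Finset.sum_const, Finset.sum_const, Finset.card_univ, Fintype.card_fin,
            Finset.card_range, nsmul_eq_mul, nsmul_eq_mul]
          push_cast
          ring
      _ ≤ ((n : ℝ) + 3) * C * ((1 + 1 / (ε / 2)) * Real.exp (ε / 2 * K)) *
          Real.exp (ε / 2 * K) := by gcongr
      _ = ((n : ℝ) + 3) * C * (1 + 1 / (ε / 2)) * Real.exp (ε * K) := by
          have : Real.exp (ε * K) = Real.exp (ε / 2 * K) * Real.exp (ε / 2 * K) := by
            rw [← Real.exp_add]; congr 1; ring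
          rw [this]
          ring

end Pool.Agent.Q48.BL
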