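import Pool.Agent.Q48.BL.Est
import Pool.Agent.Q48.BL.VCount
import Pool.Agent.TH225.BL.Slow

set_option autoImplicit false

/-!
Billiards: invariant sets whose directional perimeter at scale `h`, outside small balls about a
separated set of points, is `O(h log (1 / h))` along a sequence of scales.
-/

namespace Pool.Agent.Q48.BL

open Complex Set MeasureTheory Filter Topology Pool.Agent.W780.PG Pool.Agent.W780.BB
  Pool.Agent.TH103.BL

open scoped Real ComplexConjugate ENNReal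

variable {n : ℕ} {p : Fin (n + 3) → ℂ}

/-- The measure of the set of states over `U` whose membership in `A` changes when the direction
is turned by `h`. -/
noncomputable def Chg (p : Fin (n + 3) → ℂ) (U : Set ℂ) (A : Set (ℂ × ℝ)) (h : ℝ) : ℝ≥0∞ :=
  volume {x : ℂ × ℝ | x ∈ phase p ∧ x.1 ∈ U ∧ ¬ (x ∈ A ↔ (x.1, x.2 + h) ∈ A)}

/-- Along a sequence of scales `h` the change, outside small balls, is `O(Φ h)`. -/
def SlowSet (p : Fin (n + 3) → ℂ) (Φ : ℝ → ℝ) (A : Set (ℂ × ℝ)) : Prop :=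
  ∃ C : ℝ, ∃ᶠ h : ℝ in 𝓝[>] 0, ∃ (F : Set ℂ) (r : ℝ), Small p F r ∧
    Chg p (Away F r) A h ≤ ENNReal.ofReal (C * Φ h)

theorem log_inv_atTop : Tendsto (fun h : ℝ => Real.log (1 / h)) (𝓝[>] 0) atTop := by
  have h1 : Tendsto (fun h : ℝ => h⁻¹) (𝓝[>] 0) atTop := tendsto_inv_nhdsGT_zero
  have h2 := Real.tendsto_log_atTop.comp h1
  refine h2.congr fun x => ?_
  rw [Function.comp_apply, one_div]

theorem away_meas (F : Set ℂ) (r : ℝ) : MeasurableSet (Away F r) := by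
  have h1 : IsClosed (Away F r) := by
    have e : Away F r = ⋂ f ∈ F, {z : ℂ | r ≤ ‖z - f‖} := by
      ext z; simp [Away]
    rw [e]
    exact isClosed_biInter fun f _ => isClosed_le continuous_const
      (continuous_id.sub continuous_const).norm
  exact h1.measurableSet

/-- The number of visible unfolded vertices grows more slowly than any exponential. -/
theorem card_V (hp : IsConvexPolygon p) (N : ℕ) {d : ℝ} (hd : 0 < d) {c : ℝ} (hc : 0 < c) :
    ∃ M : ℝ, 0 < M ∧ ∀ T : ℝ, 0 < T → ∃ V : Finset ℂ,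
      VS p (N * (⌊T / d⌋₊ + 1) + 1) ⊆ V ∧ (V.card : ℝ) ^ 2 ≤ M * Real.exp (c * T) := by
  obtain ⟨C, hC, hV⟩ := VS_card hp (ε := c * d / (2 * ((N : ℝ) + 1))) (by positivity)
  refine ⟨C ^ 2 * Real.exp (c * d), by positivity, fun T hT => ?_⟩
  obtain ⟨V, hV1, hV2⟩ := hV (N * (⌊T / d⌋₊ + 1) + 1)
  refine ⟨V, hV1, ?_⟩
  have h4 : ((⌊T / d⌋₊ : ℕ) : ℝ) ≤ T / d := Nat.floor_le (by positivity)
  have h5 : (0 : ℝ) ≤ N := N.cast_nonneg
  have h3 : ((N * (⌊T / d⌋₊ + 1) + 1 : ℕ) : ℝ) ≤ (N + 1) * (T / d) + (N + 1) := by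
    push_cast
    have : 0 < T / d := by positivity
    nlinarith
  have h6 : c * d / (2 * ((N : ℝ) + 1)) * ((N * (⌊T / d⌋₊ + 1) + 1 : ℕ) : ℝ) ≤
      (c * d + c * T) / 2 := by
    calc c * d / (2 * ((N : ℝ) + 1)) * ((N * (⌊T / d⌋₊ + 1) + 1 : ℕ) : ℝ) ≤
        c * d / (2 * ((N : ℝ) + 1)) * ((N + 1) * (T / d) + (N + 1)) := by gcongr
      _ = (c * d + c * T) / 2 := by field_simp; ring
  calc (V.card : ℝ) ^ 2 ≤ (C * Real.exp (c * d / (2 * ((N : ℝ) + 1)) *
        ((N * (⌊T / d⌋₊ + 1) + 1 : ℕ) : ℝ))) ^ 2 := by gcongr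
    _ ≤ (C * Real.exp ((c * d + c * T) / 2)) ^ 2 := by gcongr
    _ = C ^ 2 * Real.exp (c * d) * Real.exp (c * T) := by
        rw [mul_pow, sq (Real.exp _), ← Real.exp_add, mul_assoc, ← Real.exp_add]
        congr 2
        ring

/-- The numerical part. -/
theorem numbers2 (M c δ C ε h : ℝ) (v : ℝ≥0∞) (hM : 0 < M) (hc : 0 < c) (hδ : 0 < δ)
    (hC : 0 ≤ C) (hh : 0 < h) (hh1 : h < 1) (k : ℕ)
    (hk : (k : ℝ) ≤ 2 * δ / (Real.log (1 / h) / (2 * c) * Real.sin h))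
    (T : ℝ) (hT0 : 0 < T) (hT : T ≤ Real.log (1 / h) / (2 * c))
    (hsmall : 2 * π ^ 2 * δ * M / (2 * c) * (Real.log (1 / h) * √h) ≤ ε)
    (hv : v ≤ k * (ENNReal.ofReal (M * Real.exp (c * T) * (2 * π * T ^ 2 * h ^ 2)) +
      24 * ENNReal.ofReal (C * (h * Real.log (1 / h))))) :
    v ≤ ENNReal.ofReal (ε + 48 * π * δ * c * C) := by
  have hpi := Real.pi_pos
  set L := Real.log (1 / h) with hL
  have hL0 : 0 < L := Real.log_pos (by rw [lt_div_iff₀ hh]; linarith)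
  obtain ⟨s, hs⟩ : ∃ s, s = √h := ⟨_, rfl⟩
  have hs0 : 0 < s := by rw [hs]; exact Real.sqrt_pos.2 hh
  have hs2 : h = s ^ 2 := by rw [hs, Real.sq_sqrt hh.le]
  rw [← hs] at hsmall
  have hsin : 2 / π * h ≤ Real.sin h := Real.mul_le_sin hh.le (by
    have := Real.pi_gt_three; linarith)
  have hk2 : (k : ℝ) ≤ 2 * π * δ * c / (L * s ^ 2) := by
    refine hk.trans ?_
    rw [div_le_div_iff₀ (by have : 0 < Real.sin h := lt_of_lt_of_le (by positivity) hsin
                            positivity) (by positivity)]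
    have h1 : 2 * δ * (L * s ^ 2) = 2 * δ * L * h := by rw [hs2]; ring
    have h2 : 2 * π * δ * c * (L / (2 * c) * Real.sin h) = π * δ * L * Real.sin h := by
      field_simp
    rw [h1, h2]
    calc 2 * δ * L * h = π * δ * L * (2 / π * h) := by field_simp
      _ ≤ π * δ * L * Real.sin h := by gcongr
  have hexp : Real.exp (c * T) ≤ 1 / s := by
    have h1 : c * T ≤ L / 2 := by
      calc c * T ≤ c * (L / (2 * c)) := by gcongr
        _ = L / 2 := by field_simp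
    refine (Real.exp_le_exp.2 h1).trans ?_
    rw [Real.exp_half, hL, Real.exp_log (by positivity), Real.sqrt_div zero_le_one,
      Real.sqrt_one, hs]
  have hk0 : (0 : ℝ) ≤ k := k.cast_nonneg
  calc v ≤ k * (ENNReal.ofReal (M * Real.exp (c * T) * (2 * π * T ^ 2 * h ^ 2)) +
      24 * ENNReal.ofReal (C * (h * L))) := hv
    _ = ENNReal.ofReal (k * (M * Real.exp (c * T) * (2 * π * T ^ 2 * h ^ 2) +
        24 * (C * (h * L)))) := by
        rw [ENNReal.ofReal_mul hk0, ENNReal.ofReal_add (by positivity) (by positivity),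
          ENNReal.ofReal_mul (by norm_num : (0 : ℝ) ≤ 24), ENNReal.ofReal_natCast]
        norm_num
    _ ≤ ENNReal.ofReal (ε + 48 * π * δ * c * C) := by
        apply ENNReal.ofReal_le_ofReal
        calc (k : ℝ) * (M * Real.exp (c * T) * (2 * π * T ^ 2 * h ^ 2) + 24 * (C * (h * L)))
            ≤ 2 * π * δ * c / (L * s ^ 2) *
              (M * (1 / s) * (2 * π * (L / (2 * c)) ^ 2 * h ^ 2) + 24 * (C * (h * L))) := by
              gcongr
          _ = 2 * π ^ 2 * δ * M / (2 * c) * (L * s) + 48 * π * δ * c * C := by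
              rw [hs2]
              field_simp
              ring
          _ ≤ ε + 48 * π * δ * c * C := by gcongr

/-- The estimate at level `j`, for all sets at the same time. -/
def Lev (p : Fin (n + 3) → ℂ) (L : ℝ) (j : ℕ) (h : ℝ) : Prop :=
  ∀ (S : Set (ℂ × ℝ)) (U : Set ℂ) (m : Fin 3 → ℝ) (X η δ : ℝ), MeasurableSet S →
    IsInvariant p S → MeasurableSet U → Ctrl p U m → (∀ j, 0 < m j) → (∀ j, m j ≤ L) →
    0 ≤ X → 1 / ((j : ℝ) + 1) ≤ δ → δ ≤ (j : ℝ) + 1 → δ < η →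
    Chg p U S h ≤ ENNReal.ofReal (X * (h * Real.log (1 / h))) →
    volume (Pool.Agent.W396.BB.DD p S (2 * η) δ) ≤
      ENNReal.ofReal (1 / ((j : ℝ) + 1) + 48 * π * δ * (1 / ((j : ℝ) + 1) ^ 2) * X)

theorem lev_eventually (hp : IsConvexPolygon p) {L : ℝ} (hL : 0 < L) (j : ℕ) :
    ∀ᶠ h : ℝ in 𝓝[>] 0, Lev p L j h := by
  have hreg : region p = reg p := (hH n p hp).2
  have hpi := Real.pi_pos
  obtain ⟨N, d, hd, hex⟩ := Pool.Agent.TH225.BL.exist_lin n p hp
  obtain ⟨c, hcdef⟩ : ∃ c : ℝ, c = 1 / ((j : ℝ) + 1) ^ 2 := ⟨_, rfl⟩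
  have hc : 0 < c := by rw [hcdef]; positivity
  obtain ⟨ε, hεdef⟩ : ∃ ε : ℝ, ε = 1 / ((j : ℝ) + 1) := ⟨_, rfl⟩
  have hε : 0 < ε := by rw [hεdef]; positivity
  obtain ⟨M, hM, hcard⟩ := card_V hp N hd hc
  obtain ⟨M', hM'⟩ : ∃ M', M' = 4 * (M * Real.exp (c * L)) := ⟨_, rfl⟩
  have hM'0 : 0 < M' := by rw [hM']; positivity
  have e1 : ∀ᶠ h in 𝓝[>] (0 : ℝ), h < 1 := by
    filter_upwards [Ioo_mem_nhdsGT (zero_lt_one : (0 : ℝ) < 1)] with h hh using hh.2
  have e2 : ∀ᶠ h in 𝓝[>] (0 : ℝ), Real.log (1 / h) * h < ε * c :=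
    Pool.Agent.TH225.BL.log_id_tendsto.eventually (gt_mem_nhds (by positivity))
  have e3 : ∀ᶠ h in 𝓝[>] (0 : ℝ), Real.log (1 / h) * √h <
      ε / (2 * π ^ 2 * ((j : ℝ) + 1) * M' / (2 * c)) :=
    Pool.Agent.TH225.BL.log_sqrt_tendsto.eventually (gt_mem_nhds (by positivity))
  have e4 : ∀ᶠ h in 𝓝[>] (0 : ℝ), 4 * c * L ≤ Real.log (1 / h) :=
    log_inv_atTop.eventually_ge_atTop _
  filter_upwards [e1, e2, e3, e4, self_mem_nhdsWithin] with h hh1 hη1 hsm hlarge hh0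
  intro S U m X η δ hS hI hU hctrl hm0 hmL hX hδ1 hδ2 hδη hω
  rw [← hcdef, ← hεdef]
  rw [← hεdef] at hδ1
  have hδ : 0 < δ := hε.trans_le hδ1
  have hη : 0 < η := hδ.trans hδη
  have hh : 0 < h := hh0
  have hL0 : 0 < Real.log (1 / h) := Real.log_pos (by rw [lt_div_iff₀ hh]; linarith)
  have hsmall : 2 * π ^ 2 * δ * M' / (2 * c) * (Real.log (1 / h) * √h) ≤ ε := by
    rw [lt_div_iff₀ (by positivity)] at hsm
    have : 2 * π ^ 2 * δ * M' / (2 * c) * (Real.log (1 / h) * √h) ≤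
        2 * π ^ 2 * ((j : ℝ) + 1) * M' / (2 * c) * (Real.log (1 / h) * √h) := by gcongr
    linarith
  obtain ⟨T', hT'⟩ : ∃ T', T' = Real.log (1 / h) / (2 * c) := ⟨_, rfl⟩
  have hT'0 : 0 < T' := by rw [hT']; positivity
  have hT'L : 2 * L ≤ T' := by
    rw [hT', le_div_iff₀ (by positivity)]
    linarith
  have hT'h : 2 * T' * h < δ := by
    have : 2 * T' * h = Real.log (1 / h) * h / c := by rw [hT']; field_simp
    rw [this, div_lt_iff₀ hc]
    exact hη1.trans_le (by gcongr)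
  have hsin1 : Real.sin h ≤ h := Real.sin_le hh.le
  have hsin0 : 0 < Real.sin h := Real.sin_pos_of_pos_of_lt_pi hh (by
    have := Real.pi_gt_three; linarith)
  obtain ⟨k, hk⟩ : ∃ k, k = ⌈δ / (T' * Real.sin h)⌉₊ := ⟨_, rfl⟩
  have hq0 : 0 < δ / (T' * Real.sin h) := by positivity
  have hk0 : 0 < k := by rw [hk]; exact Nat.ceil_pos.2 hq0
  have hk1 : δ / (T' * Real.sin h) ≤ k := by rw [hk]; exact Nat.le_ceil _
  have hk2 : (k : ℝ) < δ / (T' * Real.sin h) + 1 := by rw [hk]; exact Nat.ceil_lt_add_one hq0.le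
  have hkR : (0 : ℝ) < k := by exact_mod_cast hk0
  have hTδ : T' * Real.sin h ≤ δ := by
    have : T' * Real.sin h ≤ T' * h := by gcongr
    have h3 : 0 < T' * h := by positivity
    nlinarith
  have hk3 : (k : ℝ) ≤ 2 * δ / (T' * Real.sin h) := by
    have h1 : 1 ≤ δ / (T' * Real.sin h) := by rw [le_div_iff₀ (by positivity)]; linarith
    calc (k : ℝ) ≤ δ / (T' * Real.sin h) + 1 := hk2.le
      _ ≤ δ / (T' * Real.sin h) + δ / (T' * Real.sin h) := by gcongr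
      _ = 2 * δ / (T' * Real.sin h) := by ring
  obtain ⟨T, hT⟩ : ∃ T, T = δ / (k * Real.sin h) := ⟨_, rfl⟩
  have hT0 : 0 < T := by rw [hT]; positivity
  have hTT : T ≤ T' := by
    rw [hT, div_le_iff₀ (by positivity)]
    rw [div_le_iff₀ (by positivity)] at hk1
    calc δ ≤ k * (T' * Real.sin h) := hk1
      _ = T' * (k * Real.sin h) := by ring
  have hTT2 : T' / 2 ≤ T := by
    rw [hT, le_div_iff₀ (by positivity)]
    rw [le_div_iff₀ (by positivity)] at hk3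
    nlinarith
  have hLT : L ≤ T := by linarith
  have hTs : T * Real.sin h = δ / k := by rw [hT]; field_simp
  have hTh : (T + L) * h < η := by
    calc (T + L) * h ≤ 2 * T' * h := by
          have : T + L ≤ 2 * T' := by linarith
          gcongr
      _ < δ := hT'h
      _ ≤ η := hδη.le
  have hest := est_loc hp S hS hI hU hctrl hm0 hmL (N * (⌊(T + L) / d⌋₊ + 1) + 1) T η h hT0 hh
    hTh (hex (T + L))
  rw [hTs] at hest
  obtain ⟨V, hV1, hV2⟩ := hcard (T + L) (by positivity)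
  have hbad : volume (Bad (VS p (N * (⌊(T + L) / d⌋₊ + 1) + 1)) (T + L) h) ≤
      ENNReal.ofReal (M' * Real.exp (c * T) * (2 * π * T ^ 2 * h ^ 2)) := by
    refine (measure_mono (Pool.Agent.TH225.BL.bad_mono hV1 (T + L) h)).trans ?_
    refine (Pool.Agent.TH225.BL.bad_quant _ (T + L) h (by positivity) hh hh1.le).trans ?_
    apply ENNReal.ofReal_le_ofReal
    calc _ ≤ M * Real.exp (c * (T + L)) * (2 * π * (T + L) ^ 2 * h ^ 2) := by gcongr
      _ ≤ M * Real.exp (c * (T + L)) * (2 * π * (2 * T) ^ 2 * h ^ 2) := by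
        gcongr
        linarith
      _ = M' * Real.exp (c * T) * (2 * π * T ^ 2 * h ^ 2) := by
        rw [hM', mul_add, Real.exp_add]
        ring
  have hDD := Pool.Agent.W396.BB.DD_meas hreg S hδ hδη hk0
  refine numbers2 M' c δ X ε h _ hM'0 hc hδ hX hh hh1 k
    (by rw [← hT']; exact hk3) T hT0 (by rw [← hT']; exact hTT) hsmall ?_
  refine hDD.trans ?_
  gcongr
  refine (le_of_eq rfl).trans (hest.trans ?_)
  refine add_le_add hbad ?_
  unfold Chg at hω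
  gcongr

/-- A diagonal argument. -/
theorem diag {P : ℕ → ℝ → Prop} (hP : ∀ j, ∀ᶠ h : ℝ in 𝓝[>] 0, P j h) :
    ∃ J : ℝ → ℕ, Tendsto J (𝓝[>] 0) atTop ∧ ∀ᶠ h : ℝ in 𝓝[>] 0, P (J h) h := by
  classical
  refine ⟨fun h => Nat.findGreatest (fun j => P j h) ⌊1 / h⌋₊, ?_, ?_⟩
  · rw [tendsto_atTop]
    intro N
    have h1 : ∀ᶠ h : ℝ in 𝓝[>] 0, (N : ℝ) ≤ 1 / h := by
      have : Tendsto (fun h : ℝ => h⁻¹) (𝓝[>] 0) atTop := tendsto_inv_nhdsGT_zero
      filter_upwards [this.eventually_ge_atTop (N : ℝ)] with h hh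
      rw [one_div]
      exact hh
    filter_upwards [h1, hP N] with h hh1 hh2
    exact Nat.le_findGreatest (Nat.le_floor hh1) hh2
  · filter_upwards [hP 0] with h hh
    exact Nat.findGreatest_spec (P := fun j => P j h) (Nat.zero_le _) hh

/-- The rate. -/
theorem rate (hp : IsConvexPolygon p) {L : ℝ} (hL : 0 < L) : ∃ J : ℝ → ℕ,
    Tendsto J (𝓝[>] 0) atTop ∧ ∀ S : Set (ℂ × ℝ), MeasurableSet S → IsInvariant p S → ∀ C : ℝ,
    (∃ᶠ h : ℝ in 𝓝[>] 0, ∃ (U : Set ℂ) (m : Fin 3 → ℝ), MeasurableSet U ∧ Ctrl p U m ∧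
      (∀ j, 0 < m j) ∧ (∀ j, m j ≤ L) ∧
      Chg p U S h ≤ ENNReal.ofReal (C * (((J h : ℝ) + 1) * (h * Real.log (1 / h))))) →
    ∀ η δ : ℝ, 0 < δ → δ < η →
    volume {x : ℂ × ℝ | x ∈ phase p ∧ Metric.closedBall x.1 (2 * η) ⊆ reg p ∧
        ¬ (x ∈ S ↔ (x.1 + δ • (I * dir x.2), x.2) ∈ S)} = 0 := by
  obtain ⟨J, hJ, hLev⟩ := diag (lev_eventually hp hL)
  refine ⟨J, hJ, fun S hS hI C hF η δ hδ hδη => ?_⟩
  have hpi := Real.pi_pos
  obtain ⟨C', hC'⟩ : ∃ C', C' = max C 0 := ⟨_, rfl⟩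
  have hC'0 : 0 ≤ C' := by rw [hC']; exact le_max_right _ _
  have hCC' : C ≤ C' := by rw [hC']; exact le_max_left _ _
  have hJR : Tendsto (fun h => (J h : ℝ) + 1) (𝓝[>] 0) atTop :=
    tendsto_atTop_add_const_right _ _ (tendsto_natCast_atTop_atTop.comp hJ)
  have e1 : ∀ᶠ h in 𝓝[>] (0 : ℝ), h < 1 := by
    filter_upwards [Ioo_mem_nhdsGT (zero_lt_one : (0 : ℝ) < 1)] with h hh using hh.2
  have key : ∀ ε : ℝ, 0 < ε → volume (Pool.Agent.W396.BB.DD p S (2 * η) δ) ≤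
      ENNReal.ofReal ε := by
    intro ε hε
    have e2 := hJR.eventually_ge_atTop (1 / δ)
    have e3 := hJR.eventually_ge_atTop δ
    have e4 := hJR.eventually_ge_atTop ((1 + 48 * π * δ * C') / ε)
    obtain ⟨h, ⟨U, m, hU, hctrl, hm0, hmL, hω⟩, hlev, h2, h3, h4, hh1, hh0⟩ :=
      (hF.and_eventually (hLev.and (e2.and (e3.and (e4.and
        (e1.and self_mem_nhdsWithin)))))).exists
    have hh : 0 < h := hh0
    have hL0 : 0 < Real.log (1 / h) := Real.log_pos (by rw [lt_div_iff₀ hh]; linarith)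
    obtain ⟨b, hb⟩ : ∃ b : ℝ, b = (J h : ℝ) + 1 := ⟨_, rfl⟩
    rw [← hb] at h2 h3 h4 hω
    have hb0 : 0 < b := by rw [hb]; positivity
    have hfin := hlev S U m (C' * b) η δ hS hI hU hctrl hm0 hmL (by positivity)
      (by
        rw [← hb, div_le_iff₀ hb0]
        rw [div_le_iff₀ hδ] at h2
        linarith) (by rw [← hb]; exact h3) hδη
      (hω.trans (ENNReal.ofReal_le_ofReal (by
        calc C * (b * (h * Real.log (1 / h))) ≤ C' * (b * (h * Real.log (1 / h))) := by gcongr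
          _ = C' * b * (h * Real.log (1 / h)) := by ring)))
    refine hfin.trans (ENNReal.ofReal_le_ofReal ?_)
    rw [← hb]
    have h5 : 1 / b + 48 * π * δ * (1 / b ^ 2) * (C' * b) = (1 + 48 * π * δ * C') / b := by
      field_simp
    rw [h5, div_le_iff₀ hb0]
    rw [div_le_iff₀ hε] at h4
    linarith
  show volume (Pool.Agent.W396.BB.DD p S (2 * η) δ) = 0
  have hlim : Tendsto (fun ε : ℝ => ENNReal.ofReal ε) (𝓝[>] 0) (𝓝 0) := by
    have := (ENNReal.continuous_ofReal.tendsto 0)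
    rw [ENNReal.ofReal_zero] at this
    exact this.mono_left nhdsWithin_le_nhds
  refine le_antisymm ?_ zero_le
  refine ge_of_tendsto hlim ?_
  filter_upwards [self_mem_nhdsWithin] with ε hε
  exact key ε hε

end Pool.Agent.Q48.BL
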