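import Pool.Agent.Q48.BL.Fun

set_option autoImplicit false

/-!
Billiards: an invariant map of slow directional oscillation outside small balls is a function of
the direction, and constant if some angle is irrational.
-/

namespace Pool.Agent.Q48.BL

open Complex Set MeasureTheory Filter Topology Pool.Agent.W780.PG Pool.Agent.W780.BB
  Pool.Agent.TH103.BL

open scoped Real ComplexConjugate ENNReal

variable {n : ℕ} {p : Fin (n + 3) → ℂ} {Y : Type*} [MetricSpace Y]

/-- the distance to `a`, cut off at `1` -/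
noncomputable def cut (a y : Y) : ℝ := min 1 (dist y a)

theorem cut_cont (a : Y) : Continuous (cut a) := by
  unfold cut
  fun_prop

theorem cut_diff (a y y' : Y) : |cut a y' - cut a y| ≤ min 1 (dist y' y) := by
  unfold cut
  refine le_min ?_ ?_
  · rw [abs_le]
    have h1 : (0 : ℝ) ≤ min 1 (dist y a) := le_min zero_le_one dist_nonneg
    have h2 : (0 : ℝ) ≤ min 1 (dist y' a) := le_min zero_le_one dist_nonneg
    have h3 : min 1 (dist y a) ≤ (1 : ℝ) := min_le_left _ _
    have h4 : min 1 (dist y' a) ≤ (1 : ℝ) := min_le_left _ _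
    constructor <;> linarith
  · refine (abs_min_sub_min_le_max _ _ _ _).trans ?_
    rw [sub_self, abs_zero]
    exact max_le dist_nonneg (abs_dist_sub_le _ _ _)

/-- The cut off distances to a dense set of points separate points. -/
theorem cut_sep [TopologicalSpace.SeparableSpace Y] [Nonempty Y] {D : ℕ → Set ℝ}
    (hD : ∀ i, Dense (D i)) {y y' : Y}
    (h : ∀ i, ∀ c ∈ D i, c < cut (TopologicalSpace.denseSeq Y i) y ↔
      c < cut (TopologicalSpace.denseSeq Y i) y') : y = y' := by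
  have heq : ∀ i, cut (TopologicalSpace.denseSeq Y i) y =
      cut (TopologicalSpace.denseSeq Y i) y' := by
    intro i
    by_contra hne
    rcases lt_or_gt_of_ne hne with h1 | h1
    · obtain ⟨c, hc, hc1, hc2⟩ := (hD i).exists_between h1
      exact absurd ((h i c hc).2 hc2) (not_lt.2 hc1.le)
    · obtain ⟨c, hc, hc1, hc2⟩ := (hD i).exists_between h1
      exact absurd ((h i c hc).1 hc2) (not_lt.2 hc1.le)
  by_contra hne
  have hd : 0 < dist y y' := dist_pos.2 hne
  obtain ⟨ρ, hρ⟩ : ∃ ρ, ρ = min 1 (dist y y') := ⟨_, rfl⟩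
  have hρ0 : 0 < ρ := by rw [hρ]; exact lt_min one_pos hd
  have hρ1 : ρ ≤ 1 := by rw [hρ]; exact min_le_left _ _
  have hρ2 : ρ ≤ dist y y' := by rw [hρ]; exact min_le_right _ _
  obtain ⟨_, ⟨i, rfl⟩, hi⟩ := (TopologicalSpace.denseRange_denseSeq Y).exists_mem_open
    (Metric.isOpen_ball (x := y) (ε := ρ / 3)) ⟨y, Metric.mem_ball_self (by positivity)⟩ |>
      fun ⟨i, hi⟩ => (⟨_, ⟨i, rfl⟩, hi⟩ : ∃ x, (∃ i, TopologicalSpace.denseSeq Y i = x) ∧
        x ∈ Metric.ball y (ρ / 3))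
  rw [Metric.mem_ball, dist_comm] at hi
  have h1 := heq i
  unfold cut at h1
  have h2 : min 1 (dist y (TopologicalSpace.denseSeq Y i)) < ρ / 3 := min_lt_of_right_lt hi
  rw [h1] at h2
  have h3 : dist y' (TopologicalSpace.denseSeq Y i) < ρ / 3 := by
    rcases min_lt_iff.1 h2 with h | h
    · linarith
    · exact h
  have h4 := dist_triangle_right y y' (TopologicalSpace.denseSeq Y i)
  linarith

/-- The set version gives the version for maps. -/
theorem map_of_set (hp : IsConvexPolygon p) {Φ : ℝ → ℝ} (hΦ : ∀ᶠ h in 𝓝[>] (0 : ℝ), 0 < Φ h)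
    (hst : ∀ S : Set (ℂ × ℝ), MeasurableSet S → IsInvariant p S → SlowSet p Φ S →
      ∃ Θ : Set ℝ, MeasurableSet Θ ∧ (∀ θ, θ + 2 * π ∈ Θ ↔ θ ∈ Θ) ∧
        volume {x : ℂ × ℝ | x ∈ phase p ∧ ¬ (x ∈ S ↔ x.2 ∈ Θ)} = 0)
    [SecondCountableTopology Y] [MeasurableSpace Y]
    [BorelSpace Y] {f : ℂ × ℝ → Y} (hf : Measurable f) (hI : IsInvariantMap p f) {C : ℝ}
    (hF : ∃ᶠ h : ℝ in 𝓝[>] 0, ∃ (F : Set ℂ) (r : ℝ), Small p F r ∧
      Osc p (Away F r) f h ≤ ENNReal.ofReal (C * Φ h)) :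
    (∃ g : ℝ → Y, Measurable g ∧ (∀ θ, g (θ + 2 * π) = g θ) ∧
      ∀ᵐ x : ℂ × ℝ, x ∈ phase p → f x = g x.2) ∧
    ((∃ i, Irrational (ang p i / π)) → ∃ y : Y, ∀ᵐ x : ℂ × ℝ, x ∈ phase p → f x = y) := by
  have : Nonempty Y := ⟨f (0, 0)⟩
  set e : ℕ → Y := TopologicalSpace.denseSeq Y with he
  have hmeas : ∀ i, Measurable fun x => cut (e i) (f x) := fun i =>
    (cut_cont (e i)).measurable.comp hf
  have hslow : ∀ i, ∀ᵐ c : ℝ, SlowSet p Φ {x | c < cut (e i) (f x)} := by
    intro i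
    refine levels (hmeas i) (C := C) hΦ (hF.mono ?_)
    rintro h ⟨F, r, hs, ho⟩
    refine ⟨F, r, hs, le_trans ?_ ho⟩
    unfold Osc
    refine lintegral_mono fun x => ENNReal.ofReal_le_ofReal ?_
    exact cut_diff _ _ _
  have hD : ∀ i, ∃ D : Set ℝ, (∀ c ∈ D, SlowSet p Φ {x | c < cut (e i) (f x)}) ∧ D.Countable ∧
      Dense D := by
    intro i
    obtain ⟨D, h1, h2, h3⟩ := (Measure.dense_of_ae (hslow i)).exists_countable_dense_subset
    exact ⟨D, h1, h2, h3⟩
  choose D hDs hDc hDd using hD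
  have hlm : ∀ i (c : ℝ), MeasurableSet {x | c < cut (e i) (f x)} := fun i c =>
    measurableSet_lt measurable_const (hmeas i)
  have hbig : volume (phase p) ≠ 0 := by
    have hopen : IsOpen (region p) := isOpen_interior
    have hne : (region p).Nonempty := by
      rw [(hH n p hp).2]
      exact (hB n p hp).2.2.2.2.2.1
    have h1 : 0 < volume (region p) := hopen.measure_pos volume hne
    unfold phase
    rw [Measure.volume_eq_prod, Measure.prod_prod, Real.volume_Ico]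
    refine mul_ne_zero h1.ne' ?_
    have := Real.pi_pos
    simp [this]
  constructor
  · have hst' : ∀ i c, ∃ Θ : Set ℝ, c ∈ D i →
        volume {x : ℂ × ℝ | x ∈ phase p ∧ ¬ (c < cut (e i) (f x) ↔ x.2 ∈ Θ)} = 0 := by
      intro i c
      by_cases hc : c ∈ D i
      · obtain ⟨Θ, -, -, h⟩ := hst _ (hlm i c) (lvl_inv hI (cut (e i)) c) (hDs i c hc)
        exact ⟨Θ, fun _ => h⟩
      · exact ⟨∅, fun h => absurd h hc⟩
    choose Θ hΘ using hst'
    have hall : ∀ᵐ x : ℂ × ℝ, x ∈ phase p → ∀ i, ∀ c ∈ D i,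
        (c < cut (e i) (f x) ↔ x.2 ∈ Θ i c) := by
      have h1 : ∀ i, ∀ᵐ x : ℂ × ℝ, ∀ c ∈ D i, x ∈ phase p →
          (c < cut (e i) (f x) ↔ x.2 ∈ Θ i c) := by
        intro i
        refine (ae_ball_iff (hDc i)).2 fun c hc => ?_
        have h2 := hΘ i c hc
        have h3 : ∀ᵐ x : ℂ × ℝ, x ∉ {x : ℂ × ℝ | x ∈ phase p ∧
            ¬ (c < cut (e i) (f x) ↔ x.2 ∈ Θ i c)} := measure_eq_zero_iff_ae_notMem.1 h2
        filter_upwards [h3] with x hx hph
        by_contra hcon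
        exact hx ⟨hph, hcon⟩
      filter_upwards [ae_all_iff.2 h1] with x hx hph i c hc
      exact hx i c hc hph
    have hslice : ∀ᵐ z : ℂ, ∀ᵐ θ : ℝ, (z, θ) ∈ phase p → ∀ i, ∀ c ∈ D i,
        (c < cut (e i) (f (z, θ)) ↔ θ ∈ Θ i c) := by
      rw [Measure.volume_eq_prod] at hall
      exact Measure.ae_ae_of_ae_prod hall
    have hex : ∃ z ∈ region p, ∀ᵐ θ : ℝ, (z, θ) ∈ phase p → ∀ i, ∀ c ∈ D i,
        (c < cut (e i) (f (z, θ)) ↔ θ ∈ Θ i c) := by
      by_contra hcon
      apply hbig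
      have h1 : volume (region p) = 0 := by
        refine measure_mono_null ?_ (ae_iff.1 hslice)
        intro z hz h
        exact hcon ⟨z, hz, h⟩
      unfold phase
      rw [Measure.volume_eq_prod, Measure.prod_prod, h1, zero_mul]
    obtain ⟨z0, hz0, hz0'⟩ := hex
    refine ⟨fun θ => f (z0, θ), hf.comp (by fun_prop), fun θ => hI.periodic z0 θ, ?_⟩
    have h2 : ∀ᵐ x : ℂ × ℝ, (z0, x.2) ∈ phase p → ∀ i, ∀ c ∈ D i,
        (c < cut (e i) (f (z0, x.2)) ↔ x.2 ∈ Θ i c) := by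
      rw [Measure.volume_eq_prod]
      exact Measure.quasiMeasurePreserving_snd.ae hz0'
    filter_upwards [hall, h2] with x hx hx2 hph
    have hph2 : (z0, x.2) ∈ phase p := ⟨hz0, hph.2⟩
    refine cut_sep hDd fun i c hc => ?_
    exact (hx hph i c hc).trans (hx2 hph2 i c hc).symm
  · intro hirr
    have hst' : ∀ i, ∀ c, ∃ b : Prop, c ∈ D i →
        volume {x : ℂ × ℝ | x ∈ phase p ∧ ¬ (c < cut (e i) (f x) ↔ b)} = 0 := by
      intro i c
      by_cases hc : c ∈ D i
      · rcases Pool.Agent.TH225.BL.trivial_of_dir hp hirr _ (hlm i c) (lvl_inv hI (cut (e i)) c)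
          (hst _ (hlm i c) (lvl_inv hI (cut (e i)) c) (hDs i c hc)) with h | h
        · refine ⟨False, fun _ => measure_mono_null ?_ h⟩
          rintro x ⟨h1, h2⟩
          refine ⟨h1, ?_⟩
          by_contra hcon
          exact h2 ⟨fun h => hcon h, fun h => h.elim⟩
        · refine ⟨True, fun _ => measure_mono_null ?_ h⟩
          rintro x ⟨h1, h2⟩
          refine ⟨h1, ?_⟩
          intro hcon
          exact h2 ⟨fun _ => trivial, fun _ => hcon⟩
      · exact ⟨True, fun h => absurd h hc⟩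
    choose b hb using hst'
    have hall : ∀ᵐ x : ℂ × ℝ, x ∈ phase p → ∀ i, ∀ c ∈ D i,
        (c < cut (e i) (f x) ↔ b i c) := by
      have h1 : ∀ i, ∀ᵐ x : ℂ × ℝ, ∀ c ∈ D i, x ∈ phase p →
          (c < cut (e i) (f x) ↔ b i c) := by
        intro i
        refine (ae_ball_iff (hDc i)).2 fun c hc => ?_
        have h2 := hb i c hc
        have h3 : ∀ᵐ x : ℂ × ℝ, x ∉ {x : ℂ × ℝ | x ∈ phase p ∧
            ¬ (c < cut (e i) (f x) ↔ b i c)} := measure_eq_zero_iff_ae_notMem.1 h2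
        filter_upwards [h3] with x hx hph
        by_contra hcon
        exact hx ⟨hph, hcon⟩
      filter_upwards [ae_all_iff.2 h1] with x hx hph i c hc
      exact hx i c hc hph
    have hex : ∃ x0 ∈ phase p, ∀ i, ∀ c ∈ D i, (c < cut (e i) (f x0) ↔ b i c) := by
      by_contra hcon
      apply hbig
      refine measure_mono_null ?_ (ae_iff.1 hall)
      intro x hx h
      exact hcon ⟨x, hx, h hx⟩
    obtain ⟨x0, hx0, hx0'⟩ := hex
    refine ⟨f x0, ?_⟩
    filter_upwards [hall] with x hx hph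
    refine cut_sep hDd fun i c hc => ?_
    exact (hx hph i c hc).trans (hx0' i c hc).symm

end Pool.Agent.Q48.BL
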