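import Pool.Agent.Q48.BL.Geo

set_option autoImplicit false

/-!
Billiards: two rays with different itineraries are separated by an end point of a gate.
-/

namespace Pool.Agent.Q48.BL

open Complex Set MeasureTheory Filter Topology Pool.Agent.W780.PG Pool.Agent.W780.BB
  Pool.Agent.TH103.BL

open scoped Real ComplexConjugate

variable {n : ℕ} {p : Fin (n + 3) → ℂ}

theorem pos_l {a b : ℝ} (h : 0 < a * b) (hb : 0 < b) : 0 < a := by
  by_contra hc
  push Not at hc
  have := mul_nonpos_of_nonpos_of_nonneg hc hb.le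
  linarith

theorem pos_r {a b : ℝ} (h : 0 < a * b) (ha : 0 < a) : 0 < b := by
  rw [mul_comm] at h
  exact pos_l h ha

theorem ge_ne {X : ℂ} {φ : ℝ} (hg : ∀ w j (s : ℝ), 0 < s → X + s • dir φ ≠ uf p w (p j))
    {u : ℕ → Fin (n + 3)} {i : ℕ} {b : Bool} {s : ℝ} (hs : 0 < s)
    (h : ge p u i b = X + s • dir φ) : False :=
  hg ((List.range i).map u) (if b then u i + 1 else u i) s hs (h.symm.trans rfl)

theorem in_gate (hp : IsConvexPolygon p) (u : ℕ → Fin (n + 3)) (i : ℕ) {c : ℝ} (h0 : 0 < c)
    (h1 : c < 1) : fp p ((List.range i).map u) (ge p u i false + c • (ge p u i true -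
      ge p u i false)) ∈ Pool.Agent.W780.PG.side p (u i) := by
  rw [fp_line hp]
  unfold ge
  rw [fp_uf hp, fp_uf hp]
  simp only [if_true, Bool.false_eq_true, if_false]
  refine ⟨1 - c, c, by linarith, h0, by ring, ?_⟩
  rw [sub_smul, one_smul, smul_sub]
  ring

theorem sep (hp : IsConvexPolygon p) {X : ℂ} {φ φ' e : ℝ} (he : e = 1 ∨ e = -1)
    {u u' : ℕ → Fin (n + 3)} {t t' : ℕ → ℝ} (O : Orb p X φ u t) (O' : Orb p X φ' u' t')
    (hg : ∀ w j (s : ℝ), 0 < s → X + s • dir φ ≠ uf p w (p j))
    (hg' : ∀ w j (s : ℝ), 0 < s → X + s • dir φ' ≠ uf p w (p j))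
    (hs : 0 < e * Real.sin (φ' - φ)) {i : ℕ} (hag : ∀ r < i, u r = u' r) (hne : u i ≠ u' i) :
    ∃ b, 0 < e * kp X φ (ge p u i b) ∧ e * kp X φ' (ge p u i b) < 0 := by
  obtain ⟨c, hc0, hc1, hy⟩ := hit_ge hp O i
  have ht := O.tpos i
  set E0 := ge p u i false with hE0
  set E1 := ge p u i true with hE1
  have k0 : kp X φ E0 + c * (kp X φ E1 - kp X φ E0) = 0 := by
    rw [← kp_line, ← hy, kp_self]
  -- one end point is on the side `e`
  have step1 : ∃ b, 0 < e * kp X φ (ge p u i b) := by
    by_contra hcon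
    push Not at hcon
    have a0 := hcon false
    have a1 := hcon true
    rw [← hE0] at a0
    rw [← hE1] at a1
    have b0 : kp X φ E0 = 0 ∧ kp X φ E1 = 0 := by
      rcases he with rfl | rfl
      · have c1 : kp X φ E0 = 0 := by nlinarith
        rw [c1] at k0
        refine ⟨c1, ?_⟩
        have : c * kp X φ E1 = 0 := by linarith
        exact (mul_eq_zero.1 this).resolve_left hc0.ne'
      · have c1 : kp X φ E0 = 0 := by nlinarith
        rw [c1] at k0
        refine ⟨c1, ?_⟩
        have : c * kp X φ E1 = 0 := by linarith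
        exact (mul_eq_zero.1 this).resolve_left hc0.ne'
    have d0 := of_kp_zero b0.1
    have d1 := of_kp_zero b0.2
    have d2 : t i = rp X φ E0 + c * (rp X φ E1 - rp X φ E0) := by
      have h1 : rp X φ (X + t i • dir φ) = t i := by
        unfold rp
        rw [add_sub_cancel_left, real_smul, mul_assoc, dir_mul_conj, mul_one, ofReal_re]
      rw [← h1, hy]
      unfold rp
      have : (E0 + c • (E1 - E0) - X) * conj (dir φ) = (E0 - X) * conj (dir φ) +
          (c : ℂ) * ((E1 - X) * conj (dir φ) - (E0 - X) * conj (dir φ)) := by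
        rw [real_smul]; ring
      rw [this, add_re, re_ofReal_mul, sub_re]
    by_cases h3 : 0 < rp X φ E0
    · exact ge_ne hg h3 d0
    · by_cases h4 : 0 < rp X φ E1
      · exact ge_ne hg h4 d1
      · push Not at h3 h4
        nlinarith
  obtain ⟨b, hb⟩ := step1
  refine ⟨b, hb, ?_⟩
  by_contra hcon
  push Not at hcon
  obtain ⟨y, hyd⟩ : ∃ y, y = X + t i • dir φ := ⟨_, rfl⟩
  obtain ⟨v0, hv0⟩ : ∃ v0, v0 = e * kp X φ' y := ⟨_, rfl⟩
  obtain ⟨v1, hv1⟩ : ∃ v1, v1 = e * kp X φ' (ge p u i b) := ⟨_, rfl⟩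
  have hv0n : v0 < 0 := by
    rw [hv0, hyd, kp_ray, ← neg_sub φ' φ, Real.sin_neg]
    have := mul_pos ht hs
    nlinarith
  rw [← hv1] at hcon
  obtain ⟨c', hc'⟩ : ∃ c', c' = -v0 / (v1 - v0) := ⟨_, rfl⟩
  have hc'0 : 0 < c' := by rw [hc']; exact div_pos (by linarith) (by linarith)
  have hc'1 : c' ≤ 1 := by rw [hc', div_le_one (by linarith)]; linarith
  obtain ⟨y', hy'⟩ : ∃ y', y' = y + c' • (ge p u i b - y) := ⟨_, rfl⟩
  have hk' : kp X φ' y' = 0 := by
    have h1 : e * kp X φ' y' = v0 + c' * (v1 - v0) := by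
      rw [hy', kp_line, hv0, hv1]; ring
    have h2 : c' * (v1 - v0) = -v0 := by
      rw [hc']
      have : v1 - v0 ≠ 0 := by linarith
      field_simp
    rw [h2] at h1
    have he0 : e ≠ 0 := by rcases he with rfl | rfl <;> norm_num
    have h3 : e * kp X φ' y' = 0 := by linarith
    exact (mul_eq_zero.1 h3).resolve_left he0
  have hys := of_kp_zero hk'
  obtain ⟨s, hs'⟩ : ∃ s, s = rp X φ' y' := ⟨_, rfl⟩
  rw [← hs'] at hys
  have hspos : 0 < s := by
    have h1 : e * kp X φ y' = c' * (e * kp X φ (ge p u i b)) := by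
      rw [hy', kp_line, hyd, kp_self]; ring
    have h2 : e * kp X φ y' = s * (e * Real.sin (φ' - φ)) := by
      rw [hys, kp_ray]; ring
    have h3 : 0 < c' * (e * kp X φ (ge p u i b)) := mul_pos hc'0 hb
    rw [← h1, h2] at h3
    exact pos_l h3 hs
  rcases hc'1.lt_or_eq with hlt | heq
  · -- the ray `φ'` crosses the open gate
    have hw : (List.range i).map u' = (List.range i).map u :=
      word_congr fun r hr => (hag r hr).symm
    have hin : ps p X φ' u' i s ∈ Pool.Agent.W780.PG.side p (u i) := by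
      rw [← fp_ps hp, hw, ← hys, hy', hyd, hy]
      cases b with
      | true =>
        have e1 : E0 + c • (E1 - E0) + c' • (ge p u i true - (E0 + c • (E1 - E0))) =
            E0 + (c + c' * (1 - c)) • (E1 - E0) := by
          rw [← hE1]
          simp only [real_smul]
          push_cast
          ring
        rw [e1]
        exact in_gate hp u i (by nlinarith) (by nlinarith)
      | false =>
        have e1 : E0 + c • (E1 - E0) + c' • (ge p u i false - (E0 + c • (E1 - E0))) =
            E0 + (c * (1 - c')) • (E1 - E0) := by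
          rw [← hE0]
          simp only [real_smul]
          push_cast
          ring
        rw [e1]
        exact in_gate hp u i (by nlinarith) (by nlinarith)
    have hlate := late hp O' hspos hin (fun m hm => by
      subst hm
      rw [← hag m (Nat.lt_succ_self m)]
      exact u_ne hp O m)
    exact hne (exit_uniq hp O' hlate hin).2.symm
  · have h1 : y' = ge p u i b := by
      rw [hy', heq, one_smul]; ring
    rw [h1] at hys
    exact ge_ne hg' hspos hys

/-- the end points of a gate which is crossed by two rays -/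
theorem ends (hp : IsConvexPolygon p) {X : ℂ} {φ φ' : ℝ}
    {u u' : ℕ → Fin (n + 3)} {t t' : ℕ → ℝ} (O : Orb p X φ u t) (O' : Orb p X φ' u' t')
    (h1 : φ < φ') (h2 : φ' < φ + π) {i : ℕ} (hag : ∀ r ≤ i, u r = u' r) :
    ∃ b : Bool, 0 < kp X φ (ge p u i b) ∧ 0 < kp X φ' (ge p u i b) ∧
      kp X φ (ge p u i (!b)) < 0 ∧ kp X φ' (ge p u i (!b)) < 0 := by
  obtain ⟨c, hc0, hc1, hy⟩ := hit_ge hp O i
  obtain ⟨c', hc'0, hc'1, hy'⟩ := hit_ge hp O' i
  have ht := O.tpos i
  have ht' := O'.tpos i
  have hge : ∀ b, ge p u' i b = ge p u i b := by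
    intro b
    unfold ge
    rw [word_congr (k := i) (u := u') (u' := u) fun r hr => (hag r hr.le).symm, ← hag i le_rfl]
  rw [hge, hge] at hy'
  set E0 := ge p u i false with hE0
  set E1 := ge p u i true with hE1
  have hsin : 0 < Real.sin (φ' - φ) := Real.sin_pos_of_pos_of_lt_pi (by linarith) (by linarith)
  have a1 : kp X φ E0 + c * (kp X φ E1 - kp X φ E0) = 0 := by rw [← kp_line, ← hy, kp_self]
  have a2 : kp X φ' E0 + c' * (kp X φ' E1 - kp X φ' E0) = 0 := by
    rw [← kp_line, ← hy', kp_self]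
  have a3 : 0 < kp X φ E0 + c' * (kp X φ E1 - kp X φ E0) := by
    rw [← kp_line, ← hy', kp_ray]
    exact mul_pos ht' hsin
  have a4 : kp X φ' E0 + c * (kp X φ' E1 - kp X φ' E0) < 0 := by
    rw [← kp_line, ← hy, kp_ray, ← neg_sub φ' φ, Real.sin_neg]
    have := mul_pos ht hsin
    linarith
  have a5 : 0 < (c' - c) * (kp X φ E1 - kp X φ E0) := by linarith
  have a6 : 0 < (c' - c) * (kp X φ' E1 - kp X φ' E0) := by linarith
  rcases lt_trichotomy c c' with h | h | h
  · have b1 : 0 < kp X φ E1 - kp X φ E0 := pos_r a5 (by linarith)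
    have b2 : 0 < kp X φ' E1 - kp X φ' E0 := pos_r a6 (by linarith)
    refine ⟨true, ?_, ?_, ?_, ?_⟩
    · rw [← hE1]; nlinarith
    · rw [← hE1]; nlinarith
    · show kp X φ (ge p u i false) < 0
      rw [← hE0]; nlinarith
    · show kp X φ' (ge p u i false) < 0
      rw [← hE0]; nlinarith
  · rw [h] at a5
    simp at a5
  · have b1 : kp X φ E1 - kp X φ E0 < 0 := by
      by_contra hcon
      push Not at hcon
      have := mul_nonpos_of_nonpos_of_nonneg (show c' - c ≤ 0 by linarith) hcon
      linarith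
    have b2 : kp X φ' E1 - kp X φ' E0 < 0 := by
      by_contra hcon
      push Not at hcon
      have := mul_nonpos_of_nonpos_of_nonneg (show c' - c ≤ 0 by linarith) hcon
      linarith
    refine ⟨false, ?_, ?_, ?_, ?_⟩
    · rw [← hE0]; nlinarith
    · rw [← hE0]; nlinarith
    · show kp X φ (ge p u i true) < 0
      rw [← hE1]; nlinarith
    · show kp X φ' (ge p u i true) < 0
      rw [← hE1]; nlinarith

end Pool.Agent.Q48.BL
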