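import Pool.Agent.TH225.BL.BadQ
import Pool.Agent.Q48.BL.Vis

set_option autoImplicit false

/-!
Billiards: one step of the transversal translation, with control only over a set `U`.
-/

namespace Pool.Agent.Q48.BL

open Complex Set MeasureTheory Filter Topology Pool.Agent.W780.PG Pool.Agent.W780.BB
  Pool.Agent.TH103.BL

open scoped Real ComplexConjugate

variable {n : ℕ} {p : Fin (n + 3) → ℂ}

theorem hInv : S_Inv := Pool.Agent.W82.BB.inv hR hH
theorem hUq : S_Uniq := Pool.Agent.W108.BB.uniq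
theorem hFlow : S_Flow := Pool.Agent.W462.BBF.flow hR Pool.Agent.W333.BB.mp
    Pool.Agent.W762.BB.open_it Pool.Agent.W108.BB.uniq (_root_.W973.BB.rev hR) hH hB

/-- One step: if the thin triangle contains no visible unfolded vertex and turning by `± h` does not matter
at the common position of the two orbits, then the two states are equivalent. -/
theorem step (hp : IsConvexPolygon p) {S : Set (ℂ × ℝ)} (hI : IsInvariant p S) {K : ℕ}
    {y : ℂ} {θ τ ι h : ℝ} (hι : ι = h ∨ ι = -h) (hy : y ∈ reg p)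
    (hC : y - τ • (dir (θ + ι) - dir θ) ∈ reg p) {w : List (Fin (n + 3))} (hwl : w.length ≤ K)
    (hw : Ch p w y (y + τ • dir θ))
    (hfree : ∀ a ∈ VS p K, a ∉ convexHull ℝ ({y + τ • dir θ, y,
      y - τ • (dir (θ + ι) - dir θ)} : Set ℂ))
    (hn : fd p w (y + τ • dir θ, θ) ∉ Bp S h ∪ Bp S (-h)) :
    ((y, θ) ∈ S ↔ (y - τ • (dir (θ + ι) - dir θ), θ + ι) ∈ S) := by
  obtain ⟨-, -, -, -, -, -, -, -, hfd1, -, hfd, -⟩ := hR n p hp
  have hw2 : Ch p w (y - τ • (dir (θ + ι) - dir θ)) (y + τ • dir θ) :=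
    fan_vis hp hwl hy hC hw hfree
  have i1 := hInv n p hp S hI w y θ τ hy hw
  have ht : y - τ • (dir (θ + ι) - dir θ) + τ • dir (θ + ι) = y + τ • dir θ := by
    simp only [real_smul]
    ring
  have i2 := hInv n p hp S hI w (y - τ • (dir (θ + ι) - dir θ)) (θ + ι) τ hC
    (by rw [ht]; exact hw2)
  rw [ht] at i2
  obtain ⟨e, c, he, hec⟩ := hfd w
  have f1 : (fd p w (y + τ • dir θ, θ)) = (fp p w (y + τ • dir θ), e * θ + c) := by
    refine Prod.ext (hfd1 w _ _) (hec _ _).1
  have f2 : (fd p w (y + τ • dir θ, θ + ι)) =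
      (fp p w (y + τ • dir θ), e * θ + c + e * ι) := by
    refine Prod.ext (hfd1 w _ _) ?_
    rw [(hec _ _).1]
    ring
  have hee : e = 1 ∨ e = -1 := by rw [he]; exact neg_one_pow_eq_or ℝ _
  rw [i1, i2]
  rw [mem_union, not_or, f1, Bp, mem_ofPred_eq, not_not, Bp, mem_ofPred_eq, not_not] at hn
  simp only at hn
  rw [f1, f2]
  rcases hee with rfl | rfl <;> rcases hι with rfl | rfl
  · have := hn.1
    simpa using this
  · have := hn.2
    simpa using this
  · have := hn.2
    simpa using this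
  · have := hn.1
    simpa using this

/-- points of the big triangle -/
theorem mem_tri {z a b : ℂ} {s u T : ℝ} (hT : 0 < T) (hs : 0 ≤ s) (hu : 0 ≤ u)
    (hsu : s + u ≤ T) : z + s • b + u • a ∈
      convexHull ℝ ({z + T • a, z, z + T • b} : Set ℂ) := by
  have h1 : z + T • a ∈ convexHull ℝ ({z + T • a, z, z + T • b} : Set ℂ) :=
    subset_convexHull _ _ (by simp)
  have h2 : z ∈ convexHull ℝ ({z + T • a, z, z + T • b} : Set ℂ) :=
    subset_convexHull _ _ (by simp)
  have h3 : z + T • b ∈ convexHull ℝ ({z + T • a, z, z + T • b} : Set ℂ) :=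
    subset_convexHull _ _ (by simp)
  have hc := convex_convexHull ℝ ({z + T • a, z, z + T • b} : Set ℂ)
  have h4 := hc.sum_mem (t := Finset.univ) (w := ![u / T, 1 - (s + u) / T, s / T])
    (z := ![z + T • a, z, z + T • b]) (by
      intro i _
      fin_cases i
      · simp; positivity
      · simp
        rw [div_le_one hT]; exact hsu
      · simp; positivity) (by
      simp [Fin.sum_univ_three]
      field_simp
      ring) (by
      intro i _
      fin_cases i
      · simpa using h1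
      · simpa using h2
      · simpa using h3)
  have e : z + s • b + u • a = ∑ i, (![u / T, 1 - (s + u) / T, s / T] : Fin 3 → ℝ) i •
      (![z + T • a, z, z + T • b] : Fin 3 → ℂ) i := by
    simp only [Fin.sum_univ_three, Matrix.cons_val_zero, Matrix.cons_val_one, Matrix.cons_val_two,
      Matrix.head_cons, Matrix.tail_cons, real_smul, Matrix.cons_val]
    have hTc : (T : ℂ) ≠ 0 := by exact_mod_cast hT.ne'
    push_cast
    field_simp
    ring
  rw [e]
  exact h4

/-- small triangles inside the big triangle -/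
theorem tri_sub {z a b : ℂ} {s t T : ℝ} (hT : 0 < T) (hs : 0 ≤ s) (ht : 0 ≤ t)
    (hst : s + t ≤ T) :
    convexHull ℝ ({z + s • b + t • a, z + s • b, z + s • b + t • b} : Set ℂ) ⊆
      convexHull ℝ ({z + T • a, z, z + T • b} : Set ℂ) := by
  refine convexHull_min ?_ (convex_convexHull ℝ _)
  intro x hx
  simp only [mem_insert_iff, mem_singleton_iff] at hx
  rcases hx with rfl | rfl | rfl
  · exact mem_tri hT hs ht hst
  · have := mem_tri (z := z) (a := a) (b := b) hT hs le_rfl (by linarith : s + 0 ≤ T)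
    simpa using this
  · have := mem_tri (z := z) (a := a) (b := b) hT (by linarith : 0 ≤ s + t) le_rfl
      (by linarith : s + t + 0 ≤ T)
    rw [zero_smul, add_zero, add_smul, ← add_assoc] at this
    exact this

/-- turning by `h`, the set where something changes, over `R` -/
theorem vol_neg' {S : Set (ℂ × ℝ)} (hS : MeasurableSet S) {R : Set ℂ} (hreg : MeasurableSet R)
    (hper : ∀ z θ, (z, θ + 2 * π) ∈ S ↔ (z, θ) ∈ S) (h : ℝ) :
    volume ((R ×ˢ Ico 0 (2 * π)) ∩ Bp S (-h)) = volume ((R ×ˢ Ico 0 (2 * π)) ∩ Bp S h) := by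
  have hmB := meas_Bp hS h
  set Q : Set (ℂ × ℝ) := (R ×ˢ univ) ∩ Bp S h with hQ
  have hQm : MeasurableSet Q := (hreg.prod MeasurableSet.univ).inter hmB
  have hQp : ∀ z θ, (z, θ + 2 * π) ∈ Q ↔ (z, θ) ∈ Q := by
    intro z θ
    rw [hQ]
    simp only [mem_inter_iff, mem_prod, mem_univ, and_true]
    rw [per_Bp hper]
  have h1 := strip Q hQm hQp (-h)
  have e1 : (R ×ˢ Ico 0 (2 * π)) ∩ Bp S h = Q ∩ (univ ×ˢ Ico 0 (2 * π)) := by
    rw [hQ]
    ext ⟨z, θ⟩
    simp only [mem_inter_iff, mem_prod, mem_univ, and_true, true_and]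
    tauto
  have e2 : (R ×ˢ Ico 0 (2 * π)) ∩ Bp S (-h) =
      (fun x : ℂ × ℝ => (x.1, x.2 + (-h))) ⁻¹' (Q ∩ (univ ×ˢ Ico (-h) (-h + 2 * π))) := by
    rw [hQ]
    ext ⟨z, θ⟩
    simp only [mem_inter_iff, mem_prod, mem_univ, and_true, true_and, mem_Ico, mem_preimage, Bp,
      mem_ofPred_eq]
    constructor
    · rintro ⟨⟨h2, h3, h4⟩, h5⟩
      refine ⟨⟨h2, ?_⟩, by linarith, by linarith⟩
      rw [show θ + -h + h = θ by ring]
      intro h6
      exact h5 h6.symm
    · rintro ⟨⟨h2, h5⟩, h3, h4⟩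
      refine ⟨⟨h2, by linarith, by linarith⟩, ?_⟩
      rw [show θ + -h + h = θ by ring] at h5
      intro h6
      exact h5 h6.symm
  rw [e2, (shift (-h)).measure_preimage
    (hQm.inter (MeasurableSet.univ.prod measurableSet_Ico)).nullMeasurableSet, h1, e1]

/-- shears do not increase the outer measure -/
theorem shear_le (g : ℝ → ℂ) (hg : Measurable g) (E : Set (ℂ × ℝ)) :
    volume ((fun x : ℂ × ℝ => (x.1 + g x.2, x.2)) ⁻¹' E) ≤ volume E := by
  calc volume ((fun x : ℂ × ℝ => (x.1 + g x.2, x.2)) ⁻¹' E)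
      ≤ volume ((fun x : ℂ × ℝ => (x.1 + g x.2, x.2)) ⁻¹' (toMeasurable volume E)) :=
        measure_mono (preimage_mono (subset_toMeasurable _ _))
    _ = volume (toMeasurable volume E) :=
        (shear g hg).measure_preimage (measurableSet_toMeasurable _ _).nullMeasurableSet
    _ = volume E := measure_toMeasurable E

/-- the position after a straight path is in `U` -/
def PosIn (p : Fin (n + 3) → ℂ) (U : Set ℂ) (z A : ℂ) : Prop :=
  ∃ w : List (Fin (n + 3)), Ch p w z A ∧ fp p w A ∈ U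

/-- Of the positions at the times `T + m 0, T + m 1, T + m 2` at most one is not in `U`. -/
def Ctrl (p : Fin (n + 3) → ℂ) (U : Set ℂ) (m : Fin 3 → ℝ) : Prop :=
  ∀ (z : ℂ) (φ : ℝ), z ∈ reg p → Ok p z φ 0 → ∀ T : ℝ, 0 ≤ T →
    (∀ j w i, sf p i (fp p w (z + (T + m j) • dir φ)) ≠ 0) → ∀ j k, j ≠ k →
    PosIn p U z (z + (T + m j) • dir φ) ∨ PosIn p U z (z + (T + m k) • dir φ)

end Pool.Agent.Q48.BL
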